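import Pool.Agent.TPG.Real
import Pool.Agent.Lib_helper27.Transl

/-!
# Mass gap of pairs of strands under a lateral force: exponential tails at the critical weight
-/

set_option autoImplicit false

namespace Pool.Agent.TPG

open Pool.Agent.MG Pool.Agent.Lib27 Pool.Agent.SapR Finset Pool.Agent.AreaLaw
open Pool.Agent.TPT (lat kap mlev mlat MArch MCap wp CritM TailsM NoB slev scnt)
open Pool.Agent.FL (hl htn)
open scoped ENNReal NNReal

theorem wp_nonneg {s g R : ℝ} (hs : 0 < s) (hR : 0 ≤ R) (p : Wd × Wd) : 0 ≤ wp s g R p := by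
  unfold wp
  positivity

theorem wp_mul (s g R t : ℝ) (p : Wd × Wd) : wp s g (t * R) p = t ^ hl p * wp s g R p := by
  unfold wp
  rw [mul_pow]
  ring

/-- pieces -/
theorem sum_pieces {f g X C : ℝ} (hX : 0 < X) (hC0 : 0 ≤ C)
    (hC : ∑' H : ℕ, ENNReal.ofReal (Real.exp f) ^ H * gp (g / 2) (ENNReal.ofReal X) (NCS H) ≤
      ENNReal.ofReal C) (F : Finset (Wd × Wd)) (hF : ∀ p ∈ F, FreePiece p.1 p.2) :
    ∑ p ∈ F, wp (Real.exp (-f)) g (X ^ 2 * Real.exp f) p ≤ C := by
  refine fin_sum_le {p : Wd × Wd | FreePiece p.1 p.2} F hF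
    (fun p => wt2 (g / 2) (ENNReal.ofReal X) (p.1, rv p.2) * ENNReal.ofReal (Real.exp f) ^ htn p)
    _ (fun p _ => wp_nonneg (Real.exp_pos _) (by positivity) p) ?_ C hC0 ?_
  · intro p hp
    exact (wp_eq f g X hX (hF p hp)).ge
  · exact (emb_piece _ _).trans hC

/-- marked caps -/
theorem sum_caps {f g X C : ℝ} (hX : 0 < X) (hC0 : 0 ≤ C)
    (hC : ∑' H : ℕ, ENNReal.ofReal (Real.exp f) ^ H * gp (g / 2) (ENNReal.ofReal X) (NCS H) ≤
      ENNReal.ofReal C) (m : ℕ) :
    ∑ x ∈ Icc (1 : ℤ) m, ∑ a ∈ MCap x (2 * m), (X ^ 2 * Real.exp f) ^ m *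
      Real.exp (-f) ^ (m - mlev a) * Real.exp (g * mlat x a) ≤ C := by
  classical
  rw [sum_sigma' (Icc (1 : ℤ) m) (fun x => MCap x (2 * m))
    (fun x a => (X ^ 2 * Real.exp f) ^ m * Real.exp (-f) ^ (m - mlev a) *
      Real.exp (g * mlat x a))]
  set F : Finset (Σ _ : ℤ, Wd × ℕ) := (Icc (1 : ℤ) m).sigma fun x => MCap x (2 * m) with hF
  have hmem : ∀ y ∈ F, y.2 ∈ MCap y.1 (2 * m) := fun y hy => (mem_sigma.1 hy).2
  refine fin_sum_le {y : Σ _ : ℤ, Wd × ℕ | y.2 ∈ MCap y.1 (2 * m)} F hmem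
    (fun y => wt2 (g / 2) (ENNReal.ofReal X) (cutw y.2) *
      ENNReal.ofReal (Real.exp f) ^ mlev y.2)
    _ (fun y _ => by positivity) ?_ C hC0 ?_
  · intro y hy
    exact (cap_eq f g X hX (hmem y hy)).ge
  · refine le_trans ?_ ((emb_cap _ _).trans hC)
    refine tsum_le_of_inj (fun y : Σ _ : ℤ, Wd × ℕ => wt2 (g / 2) (ENNReal.ofReal X) (cutw y.2) *
      ENNReal.ofReal (Real.exp f) ^ mlev y.2)
      (fun a : Wd × ℕ => wt2 (g / 2) (ENNReal.ofReal X) (cutw a) *
      ENNReal.ofReal (Real.exp f) ^ mlev a) (fun y => y.2) ?_ ?_ fun _ _ => le_rfl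
    · intro y hy
      exact ⟨y.1, 2 * m, hy⟩
    · rintro ⟨x, a⟩ hy ⟨x', a'⟩ hy' h
      have h1 : a = a' := h
      subst h1
      have h2 := (mem_MCap.1 hy).1
      have h3 := (mem_MCap.1 hy').1
      simp only at h2 h3
      rw [TPT.HGM.mem_MArch] at h2 h3
      have h4 := h2.2.2.1.2.1
      rw [h3.2.2.1.2.1] at h4
      have h5 : x' = x := congrArg Prod.snd h4
      rw [h5]

/-- marked polygon words, the mark different from the origin -/
theorem sum_pm {f g X C : ℝ} (hf : 0 ≤ f) (hX : 0 < X) (hC0 : 0 ≤ C)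
    (hC : ∑' H : ℕ, ENNReal.ofReal (Real.exp f) ^ H * gp (g / 2) (ENNReal.ofReal X) (NCS H) ≤
      ENNReal.ofReal C) (hchi : chi (g / 2) (ENNReal.ofReal X) ≤ ENNReal.ofReal C)
    (n : ℕ) (F : Finset (Wd × ℕ)) (hF : ∀ a ∈ F, a ∈ PN n)
    (hno : ∀ a ∈ F, ∀ h : ℤ, 0 < h → h < lev (ep 0 (a.1.take a.2)) → cnt (vs 0 a.1) h ≠ 2) :
    ∑ a ∈ F, pw f g X n a ≤ C + C ^ 2 := by
  classical
  rw [← sum_filter_add_sum_filter_not F (fun a => 0 ≤ lev (ep 0 (a.1.take a.2)))]
  refine add_le_add ?_ ?_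
  · refine fin_sum_le (PM n) _ ?_ (fun a => wt2 (g / 2) (ENNReal.ofReal X) (cutw a) *
      ENNReal.ofReal (Real.exp f) ^ (lev (ep 0 (a.1.take a.2))).toNat) _
      (fun a _ => pw_nonneg f g X hX n a) ?_ C hC0 ((emb_pm n _ _).trans hC)
    · intro a ha
      rw [mem_filter] at ha
      exact ⟨(hF a ha.1).1, (hF a ha.1).2.1, (hF a ha.1).2.2, ha.2, hno a ha.1⟩
    · intro a ha
      rw [mem_filter] at ha
      exact (pm_wt f g X hX (n := n) ⟨(hF a ha.1).1, (hF a ha.1).2.1, (hF a ha.1).2.2, ha.2,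
        hno a ha.1⟩).ge
  · have hC2 : chi (g / 2) (ENNReal.ofReal X) ^ 2 ≤ ENNReal.ofReal (C ^ 2) := by
      rw [ENNReal.ofReal_pow hC0]
      gcongr
    refine fin_sum_le (PN n) _ ?_ (fun a => wt2 (g / 2) (ENNReal.ofReal X) (cutw a)) _
      (fun a _ => pw_nonneg f g X hX n a) ?_ (C ^ 2) (by positivity) ((emb_pn n _).trans hC2)
    · intro a ha
      rw [mem_filter] at ha
      exact hF a ha.1
    · intro a ha
      rw [mem_filter] at ha
      rw [pn_wt g X hX (hF a ha.1)]
      apply ENNReal.ofReal_le_ofReal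
      unfold pw
      refine mul_le_mul_of_nonneg_left (Real.exp_le_exp.2 ?_) (by positivity)
      have h1 : ((lev (ep 0 (a.1.take a.2)) : ℤ) : ℝ) ≤ 0 := by
        have := ha.2
        push Not at this
        exact_mod_cast this.le
      have h2 : f * ((lev (ep 0 (a.1.take a.2)) : ℤ) : ℝ) ≤ 0 := mul_nonpos_of_nonneg_of_nonpos hf h1
      linarith

theorem card_filter_range (N : ℕ) (P : ℕ → Prop) [DecidablePred P] :
    ((range N).filter P).card = (List.range N).countP (fun i => decide (P i)) := by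
  rw [List.countP_eq_length_filter]
  rfl

/-- the words of the third sum, mark different from the origin -/
theorem mem_conv {n : ℕ} {w : Fin (2 * n) → Fin 4} {j : ℕ} (hw : w ∈ SAP n) (hj0 : 0 < j)
    (hj : j < 2 * n) (hno : NoB n w j) : (List.ofFn w, j) ∈ PN n ∧
    (∀ h : ℤ, 0 < h → h < lev (ep 0 ((List.ofFn w).take j)) → cnt (vs 0 (List.ofFn w)) h ≠ 2) := by
  classical
  have hW : List.ofFn w ∈ W n := by
    rw [← image_SAP, mem_map]
    exact ⟨w, hw, rfl⟩
  refine ⟨⟨hW, hj0, hj⟩, ?_⟩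
  intro h h0 h1
  have h2 := hno h h0 (by unfold slev; rw [pos_eq n w j hj.le]; exact h1)
  unfold scnt at h2
  intro h3
  have hlen : (vs 0 (List.ofFn w)).length = 2 * n := by rw [vs_length, List.length_ofFn]
  have e1 : vs 0 (List.ofFn w) = (List.range (2 * n)).map (fun i => pos n w i) := by
    apply List.ext_getElem
    · rw [hlen, List.length_map, List.length_range]
    · intro i hi hi'
      rw [vs_getElem, List.getElem_map, List.getElem_range, pos_eq]
      rw [hlen] at hi
      omega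
  refine h2 (Eq.trans ?_ h3)
  unfold cnt
  rw [e1, List.countP_map, card_filter_range]
  rfl

/-! ### the critical weight -/

theorem Pc_free {r : ℕ} {p : Wd × Wd} (hp : p ∈ Pc r) : FreePiece p.1 p.2 :=
  ((FL.mem_Pc r p).1 hp).1

/-- basic pieces -/
theorem basic_sum (n : ℕ) (_hn : 1 ≤ n) {s g rho : ℝ} (hs : 0 < s) (hr : 0 < rho) :
    4 * rho ≤ ∑ p ∈ Pc (2 * n - 1), wp s g rho p := by
  classical
  set B : Finset (Wd × Wd) := {([0], [2]), ([0], [3]), ([1], [2]), ([1], [3])} with hB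
  have hBP : B ⊆ Pc (2 * n - 1) := by
    intro p hp
    rw [FL.mem_Pc]
    rw [hB] at hp
    simp only [mem_insert, mem_singleton] at hp
    rcases hp with rfl | rfl | rfl | rfl
    · exact ⟨FL.basic_piece 0 2 (Or.inl rfl) (Or.inl rfl), by
        simp only [List.length_singleton]; omega⟩
    · exact ⟨FL.basic_piece 0 3 (Or.inl rfl) (Or.inr rfl), by
        simp only [List.length_singleton]; omega⟩
    · exact ⟨FL.basic_piece 1 2 (Or.inr rfl) (Or.inl rfl), by
        simp only [List.length_singleton]; omega⟩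
    · exact ⟨FL.basic_piece 1 3 (Or.inr rfl) (Or.inr rfl), by
        simp only [List.length_singleton]; omega⟩
  have h1 : ∑ p ∈ B, wp s g rho p = rho * Real.exp g + (rho + (rho + rho * Real.exp (-g))) := by
    rw [hB, sum_insert (by decide), sum_insert (by decide), sum_insert (by decide), sum_singleton]
    have k1 : hl (([0], [2]) : Wd × Wd) = 1 := rfl
    have k2 : hl (([0], [3]) : Wd × Wd) = 1 := rfl
    have k3 : hl (([1], [2]) : Wd × Wd) = 1 := rfl
    have k4 : hl (([1], [3]) : Wd × Wd) = 1 := rfl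
    have l1 : htn (([0], [2]) : Wd × Wd) = 1 := rfl
    have l2 : htn (([0], [3]) : Wd × Wd) = 1 := rfl
    have l3 : htn (([1], [2]) : Wd × Wd) = 1 := rfl
    have l4 : htn (([1], [3]) : Wd × Wd) = 1 := rfl
    have m1 : kap (([0], [2]) : Wd × Wd) = 1 := by decide
    have m2 : kap (([0], [3]) : Wd × Wd) = 0 := by decide
    have m3 : kap (([1], [2]) : Wd × Wd) = 0 := by decide
    have m4 : kap (([1], [3]) : Wd × Wd) = -1 := by decide
    unfold wp
    rw [k1, k2, k3, k4, l1, l2, l3, l4, m1, m2, m3, m4]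
    simp
  have h2 : ∑ p ∈ B, wp s g rho p ≤ ∑ p ∈ Pc (2 * n - 1), wp s g rho p :=
    sum_le_sum_of_subset_of_nonneg hBP (fun p _ _ => wp_nonneg hs hr.le p)
  have h3 : 2 ≤ Real.exp g + Real.exp (-g) := by
    have := Real.add_one_le_exp g
    have := Real.add_one_le_exp (-g)
    linarith
  nlinarith

/-- existence of the critical weight -/
theorem exists_rho (n : ℕ) (hn : 1 ≤ n) {s g : ℝ} (hs : 0 < s) :
    ∃ rho : ℝ, CritM n s g rho ∧ rho ≤ 1 / 4 := by
  have hc : Continuous fun rho : ℝ => ∑ p ∈ Pc (2 * n - 1), wp s g rho p := by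
    unfold wp
    fun_prop
  have h0 : ∑ p ∈ Pc (2 * n - 1), wp s g 0 p = 0 := by
    refine sum_eq_zero fun p hp => ?_
    have := FL.hl_pos (Pc_free hp)
    unfold wp
    rw [zero_pow (by omega)]
    ring
  have h1 : 1 ≤ ∑ p ∈ Pc (2 * n - 1), wp s g (1 / 4) p := by
    have := basic_sum n hn (s := s) (g := g) (rho := 1 / 4) hs (by norm_num)
    linarith
  obtain ⟨rho, hr, hr1⟩ := intermediate_value_Icc (show (0 : ℝ) ≤ 1 / 4 by norm_num)
    hc.continuousOn (show (1 : ℝ) ∈ Set.Icc _ _ from ⟨by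
      show ∑ p ∈ Pc (2 * n - 1), wp s g 0 p ≤ 1
      rw [h0]; exact zero_le_one, h1⟩)
  have hr1' : ∑ p ∈ Pc (2 * n - 1), wp s g rho p = 1 := hr1
  refine ⟨rho, ⟨?_, hr1'⟩, hr.2⟩
  rcases hr.1.eq_or_lt with h | h
  · rw [← h, h0] at hr1'
    exact absurd hr1' zero_ne_one
  · exact h

/-- lower bound of the critical weight -/
theorem rho_ge {n : ℕ} {f g b rho : ℝ} (hf : 0 ≤ f) (hg : |g| ≤ b) (h : CritM n (Real.exp (-f)) g rho)
    (hr : rho ≤ 1 / 4) : Real.exp (-(2 * b)) / 1275 ≤ rho := by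
  classical
  obtain ⟨hr0, h1⟩ := h
  by_contra hcon
  push Not at hcon
  have hb0 : 0 ≤ b := (abs_nonneg g).trans hg
  set z : ℝ := 25 * (Real.exp (2 * b) * rho) with hz
  have hz0 : 0 < z := by positivity
  have hz1 : z < 1 / 51 := by
    rw [Real.exp_neg, lt_div_iff₀ (by norm_num)] at hcon
    have h2 : Real.exp (2 * b) * (rho * 1275) < Real.exp (2 * b) * (Real.exp (2 * b))⁻¹ :=
      mul_lt_mul_of_pos_left hcon (Real.exp_pos _)
    rw [mul_inv_cancel₀ (Real.exp_pos _).ne'] at h2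
    rw [hz]
    linarith
  have hmaps : ∀ p ∈ Pc (2 * n - 1), hl p ∈ range (n + 2) := by
    intro p hp
    have h2 := FL.hl_eq (Pc_free hp)
    have h3 := ((FL.mem_Pc _ _).1 hp).2
    rw [mem_range]
    omega
  have h2 : ∑ p ∈ Pc (2 * n - 1), wp (Real.exp (-f)) g rho p ≤
      ∑ m ∈ range (n + 2), (if m = 0 then 0 else 25 * z ^ m) := by
    rw [← sum_fiberwise_of_maps_to hmaps]
    refine sum_le_sum fun m _ => ?_
    split_ifs with hm
    · refine le_of_eq (sum_eq_zero fun p hp => ?_)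
      rw [mem_filter] at hp
      have := FL.hl_pos (Pc_free hp.1)
      omega
    · have h3 : ∀ p ∈ (Pc (2 * n - 1)).filter (fun p => hl p = m),
          wp (Real.exp (-f)) g rho p ≤ (Real.exp (2 * b) * rho) ^ m := by
        intro p hp
        rw [mem_filter] at hp
        have hp1 := Pc_free hp.1
        have h4 : |kap p| ≤ 2 * (m : ℤ) := by
          have h5 := two_mul_kap hp1
          have h6 := abs_lt_le p.1
          have h7 := abs_lt_le (rv p.2)
          rw [rv_length] at h7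
          have h8 := FL.hl_eq hp1
          rw [hp.2] at h8
          rw [abs_le] at h6 h7 ⊢
          omega
        have h5 : Real.exp (g * kap p) ≤ Real.exp (2 * b) ^ m := by
          rw [← Real.exp_nat_mul]
          apply Real.exp_le_exp.2
          have h6 : ((|kap p| : ℤ) : ℝ) ≤ 2 * (m : ℝ) := by exact_mod_cast h4
          rw [Int.cast_abs] at h6
          calc g * kap p ≤ |g * kap p| := le_abs_self _
            _ = |g| * |(kap p : ℝ)| := abs_mul _ _
            _ ≤ b * (2 * m) := mul_le_mul hg h6 (abs_nonneg _) hb0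
            _ = _ := by ring
        have h6 : Real.exp (-f) ^ (hl p - htn p) ≤ 1 :=
          pow_le_one₀ (Real.exp_pos _).le (by
            rw [← Real.exp_zero]
            exact Real.exp_le_exp.2 (by linarith))
        unfold wp
        rw [hp.2] at h6 ⊢
        calc rho ^ m * Real.exp (-f) ^ (m - htn p) * Real.exp (g * kap p)
            ≤ rho ^ m * 1 * Real.exp (2 * b) ^ m := by gcongr
          _ = _ := by rw [mul_pow]; ring
      refine (sum_le_sum h3).trans ?_
      rw [sum_const, nsmul_eq_mul]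
      have h4 := FL.card_pieces (2 * n - 1) m
      calc (((Pc (2 * n - 1)).filter (fun p => hl p = m)).card : ℝ) * (Real.exp (2 * b) * rho) ^ m
          ≤ (25 * 25 ^ m) * (Real.exp (2 * b) * rho) ^ m :=
            mul_le_mul_of_nonneg_right h4 (by positivity)
        _ = _ := by rw [hz, mul_pow 25]; ring
  have h3 : ∑ m ∈ range (n + 2), (if m = 0 then 0 else 25 * z ^ m) ≤ 1 / 2 := by
    rw [sum_range_succ']
    simp only [Nat.add_eq_zero_iff, one_ne_zero, and_false, if_false, if_true, add_zero]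
    have h4 : ∑ k ∈ range (n + 1), 25 * z ^ (k + 1) = (25 * z) * ∑ k ∈ range (n + 1), z ^ k := by
      rw [mul_sum]
      refine sum_congr rfl fun k _ => ?_
      rw [pow_succ]
      ring
    rw [h4]
    have h5 : ∑ k ∈ range (n + 1), z ^ k ≤ (1 - z)⁻¹ := by
      have h6 := (summable_geometric_of_lt_one hz0.le (by linarith)).sum_le_tsum (range (n + 1))
        (fun a _ => by positivity)
      rwa [tsum_geometric_of_lt_one hz0.le (by linarith)] at h6
    have h6 : (1 - z)⁻¹ ≤ 51 / 50 := by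
      rw [inv_le_comm₀ (by linarith) (by norm_num)]
      norm_num
      linarith
    nlinarith
  linarith

/-- lower bound of the truncated sum at the critical point of the full series -/
theorem trunc {f g x e C : ℝ} (hx : 0 < x) (he : 0 < e) (hC0 : 0 ≤ C)
    (hone : ∑' p : {p : Wd × Wd | FreePiece p.1 p.2},
      wt2 (g / 2) (ENNReal.ofReal x) ((p : Wd × Wd).1, rv (p : Wd × Wd).2) *
        ENNReal.ofReal (Real.exp f) ^ (ht (p : Wd × Wd)).toNat = 1)
    (hC : ∑' H : ℕ, ENNReal.ofReal (Real.exp f) ^ H *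
      gp (g / 2) (ENNReal.ofReal ((1 + e) * x)) (NCS H) ≤ ENNReal.ofReal C) (n : ℕ) :
    1 ≤ ∑ p ∈ Pc (2 * n - 1), wp (Real.exp (-f)) g (x ^ 2 * Real.exp f) p +
      ((1 + e)⁻¹) ^ (2 * (n + 1)) * C := by
  classical
  set X : ℝ := (1 + e) * x with hX
  have hX0 : 0 < X := by positivity
  set ri : ℝ := x ^ 2 * Real.exp f with hri
  set R : ℝ := X ^ 2 * Real.exp f with hR
  have hR0 : 0 < R := by positivity
  have hri0 : 0 < ri := by positivity
  have hrR : ri = ((1 + e)⁻¹) ^ 2 * R := by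
    rw [hR, hX, hri]
    field_simp
  have hθ1 : (1 + e)⁻¹ ≤ 1 := inv_le_one_of_one_le₀ (by linarith)
  have hθ0 : 0 < (1 + e)⁻¹ := by positivity
  set F : Wd × Wd → ℝ≥0∞ := fun p => ENNReal.ofReal (wp (Real.exp (-f)) g ri p) with hF
  set G : Wd × Wd → ℝ≥0∞ := fun p => ENNReal.ofReal (wp (Real.exp (-f)) g R p) with hG
  set th : ℝ≥0∞ := ENNReal.ofReal (((1 + e)⁻¹) ^ (2 * (n + 1))) with hth
  have hone' : ∑' p : {p : Wd × Wd | FreePiece p.1 p.2}, F p = 1 := by
    rw [← hone]
    congr 1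
    funext p
    exact (wp_eq f g x hx p.2).symm
  have hGC : ∑' p : {p : Wd × Wd | FreePiece p.1 p.2}, G p ≤ ENNReal.ofReal C := by
    refine le_trans (le_of_eq ?_) ((emb_piece (γ := g / 2) (ENNReal.ofReal X)
      (ENNReal.ofReal (Real.exp f))).trans hC)
    congr 1
    funext p
    exact (wp_eq f g X hX0 p.2).symm
  have e1 : ∀ p : Wd × Wd, FreePiece p.1 p.2 →
      F p ≤ (if p ∈ Pc (2 * n - 1) then F p else 0) + th * G p := by
    intro p hp
    split_ifs with hmem
    · exact le_self_add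
    · rw [zero_add, hF, hG, hth]
      beta_reduce
      have hlen : n + 1 ≤ hl p := by
        rw [FL.mem_Pc] at hmem
        have h5 := FL.hl_eq hp
        by_contra hc
        exact hmem ⟨hp, by omega⟩
      rw [← ENNReal.ofReal_mul (by positivity)]
      apply ENNReal.ofReal_le_ofReal
      rw [hrR, wp_mul, ← pow_mul]
      apply mul_le_mul_of_nonneg_right _ (wp_nonneg (Real.exp_pos _) hR0.le p)
      exact pow_le_pow_of_le_one hθ0.le hθ1 (by omega)
  have e2 : (1 : ℝ≥0∞) ≤ ∑ p ∈ Pc (2 * n - 1), F p + th * ENNReal.ofReal C := by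
    rw [← hone']
    calc ∑' p : {p : Wd × Wd | FreePiece p.1 p.2}, F p
        ≤ ∑' p : {p : Wd × Wd | FreePiece p.1 p.2},
            ((if (p : Wd × Wd) ∈ Pc (2 * n - 1) then F p else 0) + th * G p) :=
          ENNReal.tsum_le_tsum (fun p => e1 p p.2)
      _ = ∑' p : {p : Wd × Wd | FreePiece p.1 p.2},
            (if (p : Wd × Wd) ∈ Pc (2 * n - 1) then F p else 0) +
          th * ∑' p : {p : Wd × Wd | FreePiece p.1 p.2}, G p := by
            rw [ENNReal.tsum_add, ENNReal.tsum_mul_left]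
      _ ≤ ∑ p ∈ Pc (2 * n - 1), F p + th * ENNReal.ofReal C := by
            apply add_le_add
            · calc ∑' p : {p : Wd × Wd | FreePiece p.1 p.2},
                  (if (p : Wd × Wd) ∈ Pc (2 * n - 1) then F p else 0)
                  ≤ ∑' p : Wd × Wd, (if p ∈ Pc (2 * n - 1) then F p else 0) :=
                    ENNReal.tsum_comp_le_tsum_of_injective Subtype.val_injective
                      (fun p : Wd × Wd => if p ∈ Pc (2 * n - 1) then F p else 0)
                _ = ∑ p ∈ Pc (2 * n - 1), (if p ∈ Pc (2 * n - 1) then F p else 0) :=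
                    tsum_eq_sum (fun p hp => if_neg hp)
                _ = ∑ p ∈ Pc (2 * n - 1), F p :=
                    sum_congr rfl (fun p hp => if_pos hp)
            · exact mul_le_mul_right hGC _
  have hw0 : ∀ p ∈ Pc (2 * n - 1), 0 ≤ wp (Real.exp (-f)) g ri p :=
    fun p _ => wp_nonneg (Real.exp_pos _) hri0.le p
  rw [hF, hth, ← ENNReal.ofReal_mul (by positivity), ← ENNReal.ofReal_sum_of_nonneg hw0,
    ← ENNReal.ofReal_add (sum_nonneg hw0) (by positivity), ← ENNReal.ofReal_one,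
    ENNReal.ofReal_le_ofReal_iff (add_nonneg (sum_nonneg hw0) (by positivity))] at e2
  exact e2

/-- comparison of the two critical weights -/
theorem rho_le {f g x e C rho : ℝ} (hx : 0 < x) (he : 0 < e) {n : ℕ}
    (hlow : 1 ≤ ∑ p ∈ Pc (2 * n - 1), wp (Real.exp (-f)) g (x ^ 2 * Real.exp f) p +
      ((1 + e)⁻¹) ^ (2 * (n + 1)) * C)
    (hn : ((1 + e)⁻¹) ^ (2 * (n + 1)) * C ≤ 1 - (1 + e)⁻¹)
    (h : CritM n (Real.exp (-f)) g rho) :
    rho ≤ (1 + e)⁻¹ * (((1 + e) * x) ^ 2 * Real.exp f) := by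
  obtain ⟨hr0, h1⟩ := h
  set ri : ℝ := x ^ 2 * Real.exp f with hri
  have hri0 : 0 < ri := by positivity
  have hR : (1 + e)⁻¹ * (((1 + e) * x) ^ 2 * Real.exp f) = (1 + e) * ri := by
    rw [hri]
    field_simp
  rw [hR]
  by_contra hcon
  push Not at hcon
  set t : ℝ := rho / ri with ht
  have ht1 : 1 + e < t := by
    rw [ht, lt_div_iff₀ hri0]
    exact hcon
  have h2 : ∑ p ∈ Pc (2 * n - 1), wp (Real.exp (-f)) g ri p ≤ 1 / t := by
    have ht0 : 0 < t := by linarith
    have e2 : ∀ p ∈ Pc (2 * n - 1), wp (Real.exp (-f)) g ri p ≤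
        1 / t * wp (Real.exp (-f)) g rho p := by
      intro p hp
      have e3 : rho = t * ri := by
        rw [ht]
        field_simp
      have e6 : wp (Real.exp (-f)) g rho p = t ^ hl p * wp (Real.exp (-f)) g ri p := by
        rw [e3, wp_mul]
      have e4 : 1 ≤ 1 / t * t ^ hl p := by
        obtain ⟨j, hj⟩ : ∃ j, hl p = j + 1 := ⟨hl p - 1, by
          have := FL.hl_pos (Pc_free hp); omega⟩
        rw [hj, pow_succ]
        have e7 : 1 / t * (t ^ j * t) = t ^ j := by
          rw [one_div, mul_comm (t ^ j) t, ← mul_assoc, inv_mul_cancel₀ ht0.ne', one_mul]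
        rw [e7]
        exact one_le_pow₀ (by linarith)
      have e5 := wp_nonneg (s := Real.exp (-f)) (g := g) (Real.exp_pos _) hri0.le p
      rw [e6, ← mul_assoc]
      exact le_mul_of_one_le_left e5 e4
    refine (sum_le_sum e2).trans ?_
    rw [← mul_sum, h1, mul_one]
  have h3 : (1 + e)⁻¹ ≤ 1 / t := by linarith
  rw [one_div, inv_le_inv₀ (by positivity) (by positivity)] at h3
  linarith

/-! ### the third sum -/

theorem abs_lev_le (w : Wd) : |lev (ep 0 w)| ≤ w.length := by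
  have h : ∀ (w : Wd) (p : ℤ × ℤ), |lev (ep p w) - lev p| ≤ w.length := by
    intro w
    induction w with
    | nil => intro p; simp [ep]
    | cons d w ih =>
      intro p
      have h1 := ih (p + dv d)
      have h2 : |lev (p + dv d) - lev p| ≤ 1 := by
        have h3 : lev (p + dv d) - lev p = lev (dv d) := by
          unfold lev
          simp only [Prod.fst_add, Prod.snd_add]
          ring
        rw [h3]
        revert d
        intro d _ _
        fin_cases d <;> decide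
      have h4 : ep p (d :: w) = ep (p + dv d) w := rfl
      rw [h4, List.length_cons]
      push_cast
      rw [abs_le] at h1 h2 ⊢
      omega
  have h1 := h w 0
  have h2 : lev (0 : ℤ × ℤ) = 0 := rfl
  rwa [h2, sub_zero] at h1

theorem pw_conv (f g X : ℝ) {n : ℕ} (w : Fin (2 * n) → Fin 4) {j : ℕ} (hj : j ≤ 2 * n) :
    X ^ (2 * n) * Real.exp (f * slev n w j + g * lat (pos n w j)) =
      pw f g X n (List.ofFn w, j) := by
  unfold pw slev
  rw [pos_eq n w j hj]

theorem one_step {n : ℕ} (hn : 1 ≤ n) (w : Fin (2 * n) → Fin 4) :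
    |slev n w 1| ≤ 1 ∧ |lat (pos n w 1)| ≤ 1 := by
  have h1 : ((List.ofFn w).take 1).length = 1 := by
    rw [List.length_take, List.length_ofFn]
    omega
  unfold slev
  rw [pos_eq n w 1 (by omega)]
  have h2 := abs_lev_le ((List.ofFn w).take 1)
  have h3 := abs_lt_le ((List.ofFn w).take 1)
  rw [h1] at h2 h3
  exact ⟨by exact_mod_cast h2, by exact_mod_cast h3⟩

theorem sum_third {f g b X C : ℝ} (hf : 0 ≤ f) (hfb : f ≤ b) (hg : |g| ≤ b) (hX : 0 < X)
    (hC0 : 0 ≤ C)
    (hC : ∑' H : ℕ, ENNReal.ofReal (Real.exp f) ^ H * gp (g / 2) (ENNReal.ofReal X) (NCS H) ≤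
      ENNReal.ofReal C) (hchi : chi (g / 2) (ENNReal.ofReal X) ≤ ENNReal.ofReal C)
    {n : ℕ} (hn : 1 ≤ n) [∀ w : Fin (2 * n) → Fin 4, DecidablePred fun j => NoB n w j] :
    ∑ w ∈ SAP n, ∑ j ∈ (range (2 * n)).filter (fun j => NoB n w j),
      X ^ (2 * n) * Real.exp (f * slev n w j + g * lat (pos n w j)) ≤
      (1 + Real.exp (2 * b)) * (C + C ^ 2) := by
  classical
  have hb0 : 0 ≤ b := (abs_nonneg g).trans hg
  have hinj : ∀ {w w' : Fin (2 * n) → Fin 4} {j j' : ℕ},
      ((List.ofFn w, j) : Wd × ℕ) = (List.ofFn w', j') → w = w' ∧ j = j' := by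
    intro w w' j j' h
    exact ⟨List.ofFn_injective (congrArg Prod.fst h), congrArg Prod.snd h⟩
  -- marks different from the origin
  have hA : ∑ w ∈ SAP n, ∑ j ∈ ((range (2 * n)).filter (fun j => NoB n w j)).filter
      (fun j => 0 < j), pw f g X n (List.ofFn w, j) ≤ C + C ^ 2 := by
    rw [sum_sigma' (SAP n) (fun w => ((range (2 * n)).filter (fun j => NoB n w j)).filter
      (fun j => 0 < j)) (fun w j => pw f g X n (List.ofFn w, j))]
    set S := (SAP n).sigma (fun w => ((range (2 * n)).filter (fun j => NoB n w j)).filter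
      (fun j => 0 < j)) with hS
    have e1 : ∑ x ∈ S, pw f g X n (List.ofFn x.1, x.2) =
        ∑ a ∈ S.image (fun x => ((List.ofFn x.1, x.2) : Wd × ℕ)), pw f g X n a := by
      rw [sum_image]
      rintro ⟨w, j⟩ _ ⟨w', j'⟩ _ h
      obtain ⟨rfl, rfl⟩ := hinj h
      rfl
    rw [e1]
    have e2 : ∀ a ∈ S.image (fun x => ((List.ofFn x.1, x.2) : Wd × ℕ)), a ∈ PN n ∧
        (∀ h : ℤ, 0 < h → h < lev (ep 0 (a.1.take a.2)) → cnt (vs 0 a.1) h ≠ 2) := by
      intro a ha
      rw [mem_image] at ha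
      obtain ⟨⟨w, j⟩, hx, rfl⟩ := ha
      rw [hS, mem_sigma, mem_filter, mem_filter, mem_range] at hx
      exact mem_conv hx.1 hx.2.2 hx.2.1.1 hx.2.1.2
    exact sum_pm hf hX hC0 hC hchi n _ (fun a ha => (e2 a ha).1) (fun a ha => (e2 a ha).2)
  have hB : ∑ w ∈ SAP n, pw f g X n (List.ofFn w, 1) ≤ C + C ^ 2 := by
    have e1 : ∑ w ∈ SAP n, pw f g X n (List.ofFn w, 1) =
        ∑ a ∈ (SAP n).image (fun w => ((List.ofFn w, 1) : Wd × ℕ)), pw f g X n a := by
      rw [sum_image]
      intro w _ w' _ h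
      exact (hinj h).1
    rw [e1]
    have e2 : ∀ a ∈ (SAP n).image (fun w => ((List.ofFn w, 1) : Wd × ℕ)), a ∈ PN n ∧
        (∀ h : ℤ, 0 < h → h < lev (ep 0 (a.1.take a.2)) → cnt (vs 0 a.1) h ≠ 2) := by
      intro a ha
      rw [mem_image] at ha
      obtain ⟨w, hw, rfl⟩ := ha
      refine mem_conv hw one_pos (by omega) ?_
      intro h h0 h1
      have := (abs_le.1 (one_step hn w).1).2
      omega
    exact sum_pm hf hX hC0 hC hchi n _ (fun a ha => (e2 a ha).1) (fun a ha => (e2 a ha).2)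
  have hcomp : ∀ w : Fin (2 * n) → Fin 4, pw f g X n (List.ofFn w, 0) ≤
      Real.exp (2 * b) * pw f g X n (List.ofFn w, 1) := by
    intro w
    rw [← pw_conv f g X w (Nat.zero_le _), ← pw_conv f g X w (by omega)]
    have h0 : slev n w 0 = 0 := by simp [slev, pos, lev]
    have h0' : lat (pos n w 0) = 0 := by simp [lat, pos]
    obtain ⟨h1, h2⟩ := one_step hn w
    rw [h0, h0', mul_left_comm, ← Real.exp_add]
    refine mul_le_mul_of_nonneg_left (Real.exp_le_exp.2 ?_) (by positivity)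
    have h3 : ((|slev n w 1| : ℤ) : ℝ) ≤ 1 := by exact_mod_cast h1
    have h4 : ((|lat (pos n w 1)| : ℤ) : ℝ) ≤ 1 := by exact_mod_cast h2
    rw [Int.cast_abs] at h3 h4
    have h5 : |f * (slev n w 1 : ℝ)| ≤ b := by
      rw [abs_mul, abs_of_nonneg hf]
      calc f * |(slev n w 1 : ℝ)| ≤ b * 1 := mul_le_mul hfb h3 (abs_nonneg _) hb0
        _ = b := mul_one b
    have h6 : |g * (lat (pos n w 1) : ℝ)| ≤ b := by
      rw [abs_mul]
      calc |g| * |(lat (pos n w 1) : ℝ)| ≤ b * 1 := mul_le_mul hg h4 (abs_nonneg _) hb0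
        _ = b := mul_one b
    rw [abs_le] at h5 h6
    simp only [Int.cast_zero, mul_zero, add_zero]
    linarith [h5.1, h6.1]
  have hsplit : ∀ w ∈ SAP n, ∑ j ∈ (range (2 * n)).filter (fun j => NoB n w j),
      X ^ (2 * n) * Real.exp (f * slev n w j + g * lat (pos n w j)) ≤
      ∑ j ∈ ((range (2 * n)).filter (fun j => NoB n w j)).filter
        (fun j => 0 < j), pw f g X n (List.ofFn w, j) +
      Real.exp (2 * b) * pw f g X n (List.ofFn w, 1) := by
    intro w _
    rw [← sum_filter_add_sum_filter_not ((range (2 * n)).filter (fun j => NoB n w j))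
      (fun j => 0 < j)]
    refine add_le_add (le_of_eq (sum_congr rfl fun j hj => ?_)) ?_
    · rw [mem_filter, mem_filter, mem_range] at hj
      exact pw_conv f g X w hj.1.1.le
    · refine le_trans ?_ (hcomp w)
      have e1 : (((range (2 * n)).filter (fun j => NoB n w j)).filter (fun j => ¬ 0 < j)) ⊆
          ({0} : Finset ℕ) := by
        intro j hj
        rw [mem_filter] at hj
        rw [mem_singleton]
        have := hj.2
        omega
      refine (sum_le_sum_of_subset_of_nonneg e1 (fun j _ _ => by positivity)).trans ?_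
      rw [sum_singleton]
      exact (pw_conv f g X w (Nat.zero_le _)).le
  refine (sum_le_sum hsplit).trans ?_
  rw [sum_add_distrib, ← mul_sum]
  have h7 := mul_le_mul_of_nonneg_left hB (Real.exp_pos (2 * b)).le
  linarith

/-- the mass gap part -/
theorem tmg : Pool.Agent.TPT.TMG_Stmt := by
  classical
  intro a b ha hab
  obtain ⟨C₀, eta, heta, hBd⟩ := uniform_gap (a := Real.exp (-b / 2)) (b := Real.exp (-a / 2))
    (c := b / 2) (Real.exp_pos _) (by
      rw [← Real.exp_zero]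
      exact Real.exp_lt_exp.2 (by linarith))
  set e : ℝ := (eta : ℝ) with he
  have he0 : 0 < e := by rw [he]; exact_mod_cast heta
  set C : ℝ := (C₀ : ℝ) with hCdef
  have hC0 : 0 ≤ C := C₀.coe_nonneg
  set θ : ℝ := (1 + e)⁻¹ with hθ
  have hθ0 : 0 < θ := by positivity
  have hθ1 : θ < 1 := by
    rw [hθ]
    exact inv_lt_one_of_one_lt₀ (by linarith)
  have hb : 0 < b := ha.trans_le hab
  -- the range of `n`
  obtain ⟨N, hN⟩ : ∃ N : ℕ, ∀ n : ℕ, N ≤ n → θ ^ (2 * (n + 1)) * C ≤ 1 - θ := by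
    have h1 : Filter.Tendsto (fun n : ℕ => θ ^ (2 * (n + 1)) * C) Filter.atTop (nhds (0 * C)) := by
      refine Filter.Tendsto.mul_const C ?_
      have h2 : Filter.Tendsto (fun n : ℕ => 2 * (n + 1)) Filter.atTop Filter.atTop :=
        Filter.tendsto_atTop_mono (fun n => by simp only [id]; omega) Filter.tendsto_id
      exact (tendsto_pow_atTop_nhds_zero_of_lt_one hθ0.le hθ1).comp h2
    rw [zero_mul] at h1
    have h2 := h1.eventually (ge_mem_nhds (show (0 : ℝ) < 1 - θ by linarith))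
    exact Filter.eventually_atTop.1 h2
  set D : ℝ := C + (1 + Real.exp (2 * b)) * (C + C ^ 2) + 1275 * Real.exp (2 * b) + 1 with hD
  have hD0 : 0 < D := by positivity
  have hCD : C ≤ D := by
    have : 0 ≤ (1 + Real.exp (2 * b)) * (C + C ^ 2) := by positivity
    have := Real.exp_pos (2 * b)
    rw [hD]
    linarith
  have hCD2 : (1 + Real.exp (2 * b)) * (C + C ^ 2) ≤ D := by
    have := Real.exp_pos (2 * b)
    rw [hD]
    linarith
  refine ⟨D, θ, hD0, hθ0, hθ1, max N 1, fun n hn f g hfa hfb hg => ?_⟩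
  have hn1 : 1 ≤ n := (le_max_right N 1).trans hn
  have hf0 : 0 < f := ha.trans_le hfa
  -- the critical point of the full series
  set q : ℝ := Real.exp (-f / 2) with hq
  have hq0 : 0 < q := Real.exp_pos _
  have hq1 : q < 1 := by
    rw [hq, ← Real.exp_zero]
    exact Real.exp_lt_exp.2 (by linarith)
  obtain ⟨x, hx⟩ := exists_crit (γ := g / 2) hq0 hq1
  have hx0 := hx.x_pos
  have hqi : (ENNReal.ofReal q)⁻¹ ^ 2 = ENNReal.ofReal (Real.exp f) := by
    rw [← ENNReal.ofReal_inv_of_pos hq0, ← ENNReal.ofReal_pow (by positivity)]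
    congr 1
    rw [hq, ← Real.exp_neg, ← Real.exp_nat_mul]
    congr 1
    push_cast
    ring
  have hone := free_one hx.crE (S := ENNReal.ofReal (Real.exp f)) hqi.symm
  obtain ⟨hgap, hchi⟩ := hBd q ⟨Real.exp_le_exp.2 (by linarith), Real.exp_le_exp.2 (by linarith)⟩
    (g / 2) ⟨by have := (abs_le.1 hg).1; linarith, by have := (abs_le.1 hg).2; linarith⟩ x hx
  have hXe : (1 + (eta : ℝ≥0∞)) * ENNReal.ofReal x = ENNReal.ofReal ((1 + e) * x) := by
    rw [ENNReal.ofReal_mul (by positivity), ENNReal.ofReal_add zero_le_one he0.le,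
      ENNReal.ofReal_one, he, ENNReal.ofReal_coe_nnreal]
  have hCe : (C₀ : ℝ≥0∞) = ENNReal.ofReal C := by
    rw [hCdef, ENNReal.ofReal_coe_nnreal]
  rw [hXe, hCe] at hgap hchi
  simp only [pow_mul, hqi] at hgap
  set X : ℝ := (1 + e) * x with hX
  have hX0 : 0 < X := by positivity
  obtain ⟨rho, hcrit, hr4⟩ := exists_rho n hn1 (s := Real.exp (-f)) (g := g) (Real.exp_pos _)
  have hr0 := hcrit.1
  have hrle : rho ≤ θ * (X ^ 2 * Real.exp f) :=
    rho_le hx0 he0 (trunc hx0 he0 hC0 hone hgap n) (hN n ((le_max_left N 1).trans hn)) hcrit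
  set R : ℝ := X ^ 2 * Real.exp f with hR
  have hR0 : 0 < R := by positivity
  have hpow : ∀ m : ℕ, rho ^ m ≤ θ ^ m * R ^ m := by
    intro m
    rw [← mul_pow]
    exact pow_le_pow_left₀ hr0.le hrle m
  refine ⟨rho, hcrit, ⟨?_, ?_, ?_⟩, ?_, hr4⟩
  · intro m
    have h1 : ∀ p ∈ (Pc (2 * n - 1)).filter (fun p => hl p = m),
        wp (Real.exp (-f)) g rho p ≤ θ ^ m * wp (Real.exp (-f)) g R p := by
      intro p hp
      rw [mem_filter] at hp
      unfold wp
      rw [hp.2]
      calc rho ^ m * Real.exp (-f) ^ (m - htn p) * Real.exp (g * kap p)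
          ≤ (θ ^ m * R ^ m) * Real.exp (-f) ^ (m - htn p) * Real.exp (g * kap p) := by
            have := hpow m
            gcongr
        _ = _ := by ring
    refine (sum_le_sum h1).trans ?_
    rw [← mul_sum, mul_comm D]
    refine mul_le_mul_of_nonneg_left ((sum_pieces hX0 hC0 hgap _ ?_).trans hCD) (by positivity)
    intro p hp
    exact Pc_free (mem_filter.1 hp).1
  · intro m
    have h1 : ∀ x ∈ Icc (1 : ℤ) m, ∑ a ∈ MCap x (2 * m), rho ^ m * Real.exp (-f) ^ (m - mlev a) *
        Real.exp (g * mlat x a) ≤ θ ^ m * ∑ a ∈ MCap x (2 * m), R ^ m *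
          Real.exp (-f) ^ (m - mlev a) * Real.exp (g * mlat x a) := by
      intro x _
      rw [mul_sum]
      refine sum_le_sum fun a _ => ?_
      calc rho ^ m * Real.exp (-f) ^ (m - mlev a) * Real.exp (g * mlat x a)
          ≤ (θ ^ m * R ^ m) * Real.exp (-f) ^ (m - mlev a) * Real.exp (g * mlat x a) := by
            have := hpow m
            gcongr
        _ = _ := by ring
    refine (sum_le_sum h1).trans ?_
    rw [← mul_sum, mul_comm D]
    exact mul_le_mul_of_nonneg_left ((sum_caps hX0 hC0 hgap m).trans hCD) (by positivity)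
  · have h1 : ∀ w ∈ SAP n, ∑ j ∈ (range (2 * n)).filter (fun j => NoB n w j),
        rho ^ n * Real.exp (-(f * n)) * Real.exp (f * slev n w j + g * lat (pos n w j)) ≤
        θ ^ n * ∑ j ∈ (range (2 * n)).filter (fun j => NoB n w j),
          X ^ (2 * n) * Real.exp (f * slev n w j + g * lat (pos n w j)) := by
      intro w _
      rw [mul_sum]
      refine sum_le_sum fun j _ => ?_
      have h2 : R ^ n * Real.exp (-(f * n)) = X ^ (2 * n) := by
        rw [hR, mul_pow, ← pow_mul, ← Real.exp_nat_mul, mul_assoc, ← Real.exp_add]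
        have : (n : ℝ) * f + -(f * n) = 0 := by ring
        rw [this, Real.exp_zero, mul_one]
      calc rho ^ n * Real.exp (-(f * n)) * Real.exp (f * slev n w j + g * lat (pos n w j))
          ≤ (θ ^ n * R ^ n) * Real.exp (-(f * n)) *
            Real.exp (f * slev n w j + g * lat (pos n w j)) := by
            have := hpow n
            gcongr
        _ = θ ^ n * ((R ^ n * Real.exp (-(f * n))) *
            Real.exp (f * slev n w j + g * lat (pos n w j))) := by ring
        _ = _ := by rw [h2]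
    refine (sum_le_sum h1).trans ?_
    rw [← mul_sum]
    have h2 := (sum_third hf0.le hfb hg hX0 hC0 hgap hchi hn1).trans hCD2
    have h3 : (1 : ℝ) ≤ (n : ℝ) ^ 2 := by
      have : (1 : ℝ) ≤ n := by exact_mod_cast hn1
      nlinarith
    calc θ ^ n * _ ≤ θ ^ n * D := mul_le_mul_of_nonneg_left h2 (by positivity)
      _ = D * 1 * θ ^ n := by ring
      _ ≤ D * (n : ℝ) ^ 2 * θ ^ n := by gcongr
  · have h1 := rho_ge hf0.le hg hcrit hr4
    refine le_trans ?_ h1
    rw [Real.exp_neg, inv_eq_one_div, inv_eq_one_div, div_div]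
    refine one_div_le_one_div_of_le (by positivity) ?_
    have : 0 ≤ (1 + Real.exp (2 * b)) * (C + C ^ 2) := by positivity
    rw [hD]
    linarith

end Pool.Agent.TPG
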