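import Pool.Agent.TPG.HW

/-!
# Mass gap of pairs of strands under a lateral force: the critical point
-/

set_option autoImplicit false

namespace Pool.Agent.TPG

open Pool.Agent.MG Pool.Agent.Lib27 Pool.Agent.SapR Finset
open scoped ENNReal

variable {γ : ℝ}

theorem abs_lt_le (w : Wd) : |lt w| ≤ w.length := by
  induction w with
  | nil => simp [lt_nil]
  | cons d w ih =>
    have h1 : lt (d :: w) = lt [d] + lt w := lt_append [d] w
    have h2 : ∀ d : Fin 4, |lt [d]| ≤ 1 := by decide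
    rw [h1, List.length_cons]
    refine (abs_add_le _ _).trans ?_
    have := h2 d
    push_cast
    linarith

theorem exp_lt_le (γ : ℝ) (w : Wd) : Real.exp (γ * lt w) ≤ Real.exp (|γ| * w.length) := by
  apply Real.exp_le_exp.2
  have h1 : ((|lt w| : ℤ) : ℝ) ≤ w.length := by exact_mod_cast abs_lt_le w
  rw [Int.cast_abs] at h1
  calc γ * lt w ≤ |γ * lt w| := le_abs_self _
    _ = |γ| * |(lt w : ℝ)| := abs_mul _ _
    _ ≤ _ := mul_le_mul_of_nonneg_left h1 (abs_nonneg _)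

theorem exp_lt_ge (γ : ℝ) (w : Wd) : Real.exp (-(|γ| * w.length)) ≤ Real.exp (γ * lt w) := by
  apply Real.exp_le_exp.2
  have h1 : ((|lt w| : ℤ) : ℝ) ≤ w.length := by exact_mod_cast abs_lt_le w
  rw [Int.cast_abs] at h1
  have h2 : |γ| * |(lt w : ℝ)| ≤ |γ| * w.length := mul_le_mul_of_nonneg_left h1 (abs_nonneg _)
  have h3 : -|γ * lt w| ≤ γ * lt w := neg_abs_le _
  rw [abs_mul] at h3
  linarith

/-- tilted number of self-avoiding words of length `n` -/
noncomputable def csum (γ : ℝ) (n : ℕ) : ℝ := ∑ w ∈ Cs n, Real.exp (γ * lt w)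

theorem csum_pos (γ : ℝ) (n : ℕ) : 0 < csum γ n := by
  unfold csum
  have h1 : (Cs n).Nonempty := card_pos.1 (Cs_pos n)
  exact sum_pos (fun _ _ => Real.exp_pos _) h1

theorem csum_ge (γ : ℝ) (n : ℕ) : Real.exp (-(|γ| * n)) ≤ csum γ n := by
  obtain ⟨w, hw⟩ : (Cs n).Nonempty := card_pos.1 (Cs_pos n)
  unfold csum
  refine le_trans ?_ (single_le_sum (f := fun w => Real.exp (γ * lt w))
    (fun _ _ => (Real.exp_pos _).le) hw)
  have := exp_lt_ge γ w
  rwa [((mem_Cs n w).1 hw).1] at this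

theorem csum_le (γ : ℝ) (n : ℕ) : csum γ n ≤ (4 * Real.exp |γ|) ^ n := by
  unfold csum
  calc ∑ w ∈ Cs n, Real.exp (γ * lt w) ≤ ∑ _w ∈ Cs n, Real.exp |γ| ^ n := by
        refine sum_le_sum fun w hw => ?_
        have := exp_lt_le γ w
        rwa [((mem_Cs n w).1 hw).1, mul_comm |γ|, Real.exp_nat_mul] at this
    _ = (Cs n).card * Real.exp |γ| ^ n := by rw [sum_const, nsmul_eq_mul]
    _ ≤ 4 ^ n * Real.exp |γ| ^ n := by
        have h3 : ((Cs n).card : ℝ) ≤ 4 ^ n := by exact_mod_cast Cs_le n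
        gcongr
    _ = _ := by rw [mul_pow]

theorem csum_mul (γ : ℝ) (n m : ℕ) : csum γ (n + m) ≤ csum γ n * csum γ m := by
  classical
  unfold csum
  rw [sum_mul_sum, ← sum_product']
  have h1 : ∑ w ∈ Cs (n + m), Real.exp (γ * lt w) =
      ∑ w ∈ Cs (n + m), Real.exp (γ * lt (w.take n)) * Real.exp (γ * lt (w.drop n)) := by
    refine sum_congr rfl fun w _ => ?_
    rw [← Real.exp_add]
    congr 1
    have h2 := lt_append (w.take n) (w.drop n)
    rw [List.take_append_drop] at h2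
    rw [h2]
    push_cast
    ring
  rw [h1]
  have h2 : Set.InjOn (fun w : Wd => (w.take n, w.drop n)) (Cs (n + m) : Set Wd) := by
    intro a _ b _ hab
    have e1 : a.take n = b.take n := congrArg Prod.fst hab
    have e2 : a.drop n = b.drop n := congrArg Prod.snd hab
    rw [← List.take_append_drop n a, ← List.take_append_drop n b, e1, e2]
  rw [← sum_image (f := fun p : Wd × Wd => Real.exp (γ * lt p.1) * Real.exp (γ * lt p.2)) h2]
  refine sum_le_sum_of_subset_of_nonneg ?_ fun _ _ _ => by positivity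
  intro p hp
  obtain ⟨w, hw, rfl⟩ := mem_image.1 hp
  rw [mem_Cs] at hw
  have hs : SAWs (w.take n ++ w.drop n) := by
    rw [List.take_append_drop]
    exact hw.2
  rw [mem_product, mem_Cs, mem_Cs]
  refine ⟨⟨?_, SAWs_left hs⟩, ⟨?_, SAWs_right hs⟩⟩
  · simp only [List.length_take]
    omega
  · simp only [List.length_drop]
    omega

theorem csum_subadd (γ : ℝ) : Subadditive fun n : ℕ => Real.log (csum γ n) := by
  intro m n
  rw [← Real.log_mul (csum_pos γ m).ne' (csum_pos γ n).ne']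
  exact Real.log_le_log (csum_pos γ _) (csum_mul γ m n)

/-- growth constant -/
noncomputable def Lg (γ : ℝ) : ℝ := (csum_subadd γ).lim

theorem csum_bdd (γ : ℝ) : BddBelow (Set.range fun n : ℕ => Real.log (csum γ n) / n) := by
  refine ⟨-|γ|, ?_⟩
  rintro _ ⟨n, rfl⟩
  rcases Nat.eq_zero_or_pos n with rfl | hn
  · simp
  · have hn0 : (0 : ℝ) < n := by exact_mod_cast hn
    have h1 : -(|γ| * n) ≤ Real.log (csum γ n) :=
      (Real.le_log_iff_exp_le (csum_pos γ n)).2 (csum_ge γ n)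
    show -|γ| ≤ Real.log (csum γ n) / n
    rw [le_div_iff₀ hn0]
    linarith

theorem tendsto_csum (γ : ℝ) : Filter.Tendsto (fun n : ℕ => Real.log (csum γ n) / n)
    Filter.atTop (nhds (Lg γ)) :=
  (csum_subadd γ).tendsto_lim (csum_bdd γ)

theorem csum_ge_exp (γ : ℝ) (n : ℕ) : Real.exp (n * Lg γ) ≤ csum γ n := by
  rcases Nat.eq_zero_or_pos n with rfl | hn
  · have := csum_ge γ 0
    simpa using this
  · have hn0 : (0 : ℝ) < n := by exact_mod_cast hn
    have h1 : Lg γ ≤ Real.log (csum γ n) / n :=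
      (csum_subadd γ).lim_le_div (csum_bdd γ) hn.ne'
    rw [le_div_iff₀ hn0, mul_comm] at h1
    exact (Real.le_log_iff_exp_le (csum_pos γ n)).1 h1

/-- critical point -/
noncomputable def xc (γ : ℝ) : ℝ := Real.exp (-Lg γ)

theorem xc_pos : 0 < xc γ := Real.exp_pos _

theorem sum_wt_Cs (x : ℝ≥0∞) (n : ℕ) :
    ∑ w ∈ Cs n, wt γ x w = ENNReal.ofReal (csum γ n) * x ^ n := by
  unfold csum
  rw [ENNReal.ofReal_sum_of_nonneg fun _ _ => (Real.exp_pos _).le, sum_mul]
  refine sum_congr rfl fun w hw => ?_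
  unfold wt tl
  rw [((mem_Cs n w).1 hw).1, mul_comm]

theorem gw_len_eq (x : ℝ≥0∞) (n : ℕ) :
    gw γ x {w | w ∈ SW ∧ w.length = n} = ENNReal.ofReal (csum γ n) * x ^ n := by
  have h1 : {w : Wd | w ∈ SW ∧ w.length = n} = (Cs n : Set Wd) := by
    ext w
    rw [Finset.mem_coe, mem_Cs]
    exact and_comm
  rw [h1, ← sum_wt_Cs]
  unfold gw
  exact Finset.tsum_subtype (Cs n) (fun w : Wd => wt γ x w)

theorem chi_lower (x : ℝ≥0∞) (N : ℕ) :
    ∑ n ∈ range N, ENNReal.ofReal (csum γ n) * x ^ n ≤ chi γ x := by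
  have h1 : ∑ n ∈ range N, ENNReal.ofReal (csum γ n) * x ^ n =
      ∑ w ∈ (range N).biUnion Cs, wt γ x w := by
    rw [Finset.sum_biUnion]
    · exact Finset.sum_congr rfl fun n _ => (sum_wt_Cs x n).symm
    · intro n _ m _ hnm
      refine Finset.disjoint_left.2 fun w hw hw' => hnm ?_
      rw [← ((mem_Cs n w).1 hw).1, ((mem_Cs m w).1 hw').1]
  rw [h1, ← Finset.tsum_subtype]
  refine tsum_le_of_inj (fun w : Wd => wt γ x w) (fun w : Wd => wt γ x w) (fun w => w)
    ?_ (Set.injOn_id _) fun _ _ => le_rfl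
  intro w hw
  obtain ⟨n, -, hn⟩ := Finset.mem_biUnion.1 (Finset.mem_coe.1 hw)
  exact ((mem_Cs n w).1 hn).2

theorem chi_unbounded (C : ℝ) : ∃ x : ℝ, 0 < x ∧ x < xc γ ∧
    ENNReal.ofReal C < chi γ (ENNReal.ofReal x) := by
  obtain ⟨N, hN⟩ := exists_nat_gt (2 * (|C| + 1))
  have hN0 : (0 : ℝ) < N := by
    have := abs_nonneg C
    linarith
  have hc : Filter.Tendsto (fun t : ℝ => t ^ N) (nhds 1) (nhds 1) := by
    have := (continuous_pow N).tendsto (1 : ℝ)
    simpa using this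
  have hev : ∀ᶠ t in nhds (1 : ℝ), (1 / 2 : ℝ) < t ^ N :=
    hc.eventually (lt_mem_nhds (by norm_num))
  obtain ⟨t, ht1, ht2, ht3⟩ : ∃ t : ℝ, 0 < t ∧ t < 1 ∧ (1 / 2 : ℝ) < t ^ N := by
    have h1 : ∀ᶠ t in nhdsWithin (1 : ℝ) (Set.Iio 1), (1 / 2 : ℝ) < t ^ N :=
      hev.filter_mono nhdsWithin_le_nhds
    have h2 : ∀ᶠ t in nhdsWithin (1 : ℝ) (Set.Iio 1), t < 1 := self_mem_nhdsWithin
    have h3 : ∀ᶠ t in nhdsWithin (1 : ℝ) (Set.Iio 1), (0 : ℝ) < t :=
      (lt_mem_nhds (by norm_num : (0 : ℝ) < 1)).filter_mono nhdsWithin_le_nhds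
    obtain ⟨t, h⟩ := (h1.and (h2.and h3)).exists
    exact ⟨t, h.2.2, h.2.1, h.1⟩
  have hxc : 0 < xc γ := xc_pos
  refine ⟨t * xc γ, by positivity, by nlinarith, ?_⟩
  refine lt_of_lt_of_le ?_ (chi_lower (ENNReal.ofReal (t * xc γ)) N)
  have h1 : ∀ n ∈ range N, ENNReal.ofReal (1 / 2) ≤
      ENNReal.ofReal (csum γ n) * ENNReal.ofReal (t * xc γ) ^ n := by
    intro n hn
    have h2 := csum_ge_exp γ n
    rw [← ENNReal.ofReal_pow (by positivity), ← ENNReal.ofReal_mul (csum_pos γ n).le]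
    apply ENNReal.ofReal_le_ofReal
    have h3 : (1 / 2 : ℝ) ≤ t ^ n := by
      have : t ^ N ≤ t ^ n := pow_le_pow_of_le_one ht1.le ht2.le (by
        have := mem_range.1 hn; omega)
      linarith
    have h4 : Real.exp (n * Lg γ) * xc γ ^ n = 1 := by
      unfold xc
      rw [← Real.exp_nat_mul, ← Real.exp_add]
      simp
    calc (1 / 2 : ℝ) ≤ t ^ n := h3
      _ = t ^ n * (Real.exp (n * Lg γ) * xc γ ^ n) := by rw [h4, mul_one]
      _ ≤ t ^ n * (csum γ n * xc γ ^ n) := by gcongr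
      _ = _ := by rw [mul_pow]; ring
  calc ENNReal.ofReal C < ENNReal.ofReal (N * (1 / 2)) := by
        apply (ENNReal.ofReal_lt_ofReal_iff (by positivity)).2
        have := le_abs_self C
        linarith
    _ = ∑ _n ∈ range N, ENNReal.ofReal (1 / 2) := by
        rw [Finset.sum_const, card_range, nsmul_eq_mul, ENNReal.ofReal_mul (by positivity),
          ENNReal.ofReal_natCast]
    _ ≤ _ := Finset.sum_le_sum h1

theorem chi_finite {x : ℝ} (hx0 : 0 < x) (hx : x < xc γ) : chi γ (ENNReal.ofReal x) < ∞ := by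
  have hlog : Real.log x < -Lg γ := by
    have := Real.log_lt_log hx0 hx
    unfold xc at this
    rwa [Real.log_exp] at this
  set L' : ℝ := (Lg γ + (-Real.log x)) / 2 with hL'
  have h1 : Lg γ < L' := by rw [hL']; linarith
  have h2 : L' < -Real.log x := by rw [hL']; linarith
  have hev : ∀ᶠ n : ℕ in Filter.atTop, Real.log (csum γ n) / n < L' :=
    (tendsto_csum γ).eventually (gt_mem_nhds h1)
  obtain ⟨N, hN⟩ := Filter.eventually_atTop.1 hev
  set r : ℝ := x * Real.exp L' with hr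
  have hr0 : 0 < r := by positivity
  have hr1 : r < 1 := by
    have h3 : Real.exp L' < x⁻¹ := by
      rw [← Real.exp_log (inv_pos.2 hx0), Real.log_inv]
      exact Real.exp_lt_exp.2 h2
    calc r < x * x⁻¹ := mul_lt_mul_of_pos_left h3 hx0
      _ = 1 := mul_inv_cancel₀ hx0.ne'
  have hterm : ∀ n : ℕ, ENNReal.ofReal (csum γ n) * ENNReal.ofReal x ^ n ≤
      ENNReal.ofReal ((if n ≤ N then (4 * Real.exp |γ| * x) ^ n else 0) + r ^ n) := by
    intro n
    rw [← ENNReal.ofReal_pow hx0.le, ← ENNReal.ofReal_mul (csum_pos γ n).le]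
    apply ENNReal.ofReal_le_ofReal
    by_cases hn : n ≤ N
    · rw [if_pos hn]
      have h3 := csum_le γ n
      have h4 : csum γ n * x ^ n ≤ (4 * Real.exp |γ| * x) ^ n := by
        rw [mul_pow (4 * Real.exp |γ|) x n]
        gcongr
      have : 0 ≤ r ^ n := by positivity
      linarith
    · rw [if_neg hn, zero_add]
      push Not at hn
      have h3 := hN n hn.le
      have hn0 : (0 : ℝ) < n := by
        have : 0 < n := by omega
        exact_mod_cast this
      rw [div_lt_iff₀ hn0] at h3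
      have h5 : csum γ n ≤ Real.exp (n * L') := by
        rw [← Real.exp_log (csum_pos γ n)]
        apply Real.exp_le_exp.2
        linarith
      calc csum γ n * x ^ n ≤ Real.exp (n * L') * x ^ n := by gcongr
        _ = r ^ n := by rw [hr, mul_pow, ← Real.exp_nat_mul]; ring
  have h5 : chi γ (ENNReal.ofReal x) ≤
      ∑' n : ℕ, gw γ (ENNReal.ofReal x) {w | w ∈ SW ∧ w.length = n} := by
    refine (gw_mono ?_).trans (gw_iUnion _ _)
    intro w hw
    exact Set.mem_iUnion.2 ⟨w.length, hw, rfl⟩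
  refine lt_of_le_of_lt h5 ?_
  have hsum : Summable fun n : ℕ =>
      (if n ≤ N then (4 * Real.exp |γ| * x) ^ n else 0) + r ^ n := by
    apply Summable.add
    · apply summable_of_ne_finset_zero (s := range (N + 1))
      intro n hn
      rw [if_neg]
      rw [mem_range] at hn
      omega
    · exact summable_geometric_of_lt_one hr0.le hr1
  calc ∑' n : ℕ, gw γ (ENNReal.ofReal x) {w | w ∈ SW ∧ w.length = n}
      ≤ ∑' n : ℕ, ENNReal.ofReal ((if n ≤ N then (4 * Real.exp |γ| * x) ^ n else 0) + r ^ n) :=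
        ENNReal.tsum_le_tsum fun n => by rw [gw_len_eq]; exact hterm n
    _ = ENNReal.ofReal (∑' n : ℕ, ((if n ≤ N then (4 * Real.exp |γ| * x) ^ n else 0) + r ^ n)) :=
        (ENNReal.ofReal_tsum_of_nonneg (fun n => by positivity) hsum).symm
    _ < ∞ := ENNReal.ofReal_lt_top

/-! ### dependence on the force -/

theorem tl_le (γ γ' : ℝ) (w : Wd) :
    tl γ w ≤ tl γ' w * ENNReal.ofReal (Real.exp |γ - γ'|) ^ w.length := by
  unfold tl
  rw [← ENNReal.ofReal_pow (Real.exp_pos _).le, ← ENNReal.ofReal_mul (Real.exp_pos _).le]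
  apply ENNReal.ofReal_le_ofReal
  have h1 := exp_lt_le (γ - γ') w
  rw [mul_comm (|γ - γ'|), Real.exp_nat_mul] at h1
  calc Real.exp (γ * lt w) = Real.exp (γ' * lt w) * Real.exp ((γ - γ') * lt w) := by
        rw [← Real.exp_add]
        congr 1
        ring
    _ ≤ _ := mul_le_mul_of_nonneg_left h1 (Real.exp_pos _).le

theorem wt_le (γ γ' : ℝ) (x : ℝ≥0∞) (w : Wd) :
    wt γ x w ≤ wt γ' (x * ENNReal.ofReal (Real.exp |γ - γ'|)) w := by
  unfold wt
  rw [mul_pow]
  calc x ^ w.length * tl γ w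
      ≤ x ^ w.length * (tl γ' w * ENNReal.ofReal (Real.exp |γ - γ'|) ^ w.length) :=
        mul_le_mul_right (tl_le γ γ' w) _
    _ = _ := by ring

theorem gw_force (γ γ' : ℝ) (x : ℝ≥0∞) (S : Set Wd) :
    gw γ x S ≤ gw γ' (x * ENNReal.ofReal (Real.exp |γ - γ'|)) S :=
  ENNReal.tsum_le_tsum fun w => wt_le γ γ' x w

theorem gp_force (γ γ' : ℝ) (x : ℝ≥0∞) (S : Set (Wd × Wd)) :
    gp γ x S ≤ gp γ' (x * ENNReal.ofReal (Real.exp |γ - γ'|)) S :=
  ENNReal.tsum_le_tsum fun _ => mul_le_mul' (wt_le γ γ' x _) (wt_le γ γ' x _)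

end Pool.Agent.TPG
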