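import Pool.Agent.Lib_helper74.MG.Xf
import Pool.Agent.TPG.Xc

/-!
# Mass gap of pairs of strands, IV: the choice of the weight (fork of Lib_helper74/MG with a lateral force)
-/

set_option autoImplicit false

namespace Pool.Agent.TPG

open Pool.Agent.MG Pool.Agent.Lib27 Pool.Agent.SapR
open scoped ENNReal

variable {γ : ℝ}

theorem gw_Bri_zero (x : ℝ≥0∞) : gw γ x (Bri 0) = 1 := by
  rw [Bri_zero, gw_singleton, wt_nil]

theorem gw_le_chi (x : ℝ≥0∞) {S : Set Wd} (h : S ⊆ SW) : gw γ x S ≤ chi γ x := gw_mono h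

theorem gw_scale (x s : ℝ≥0∞) (hs : s ≤ 1) (H : ℕ) :
    gw γ (x * s) (Bri H) ≤ s ^ H * gw γ x (Bri H) := by
  unfold gw
  rw [← ENNReal.tsum_mul_left]
  refine ENNReal.tsum_le_tsum fun w => ?_
  unfold wt
  rw [mul_pow]
  calc x ^ (w : Wd).length * s ^ (w : Wd).length * tl γ w
      = s ^ (w : Wd).length * (x ^ (w : Wd).length * tl γ w) := by ring
    _ ≤ _ := mul_le_mul_left (pow_le_pow_right_of_le_one' hs (height_le_length w.2)) _

theorem pow_Bri_le (x : ℝ≥0∞) (H k : ℕ) : gw γ x (Bri H) ^ k ≤ gw γ x (Bri (k * H)) := by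
  induction k with
  | zero => rw [pow_zero, zero_mul, gw_Bri_zero]
  | succ k ih =>
    rw [pow_succ, Nat.succ_mul]
    exact (mul_le_mul_left ih _).trans (gw_Bri_mul_le x (k * H) H)

theorem chi_Bri_pow_le (x : ℝ≥0∞) (H k : ℕ) :
    chi γ x * gw γ x (Bri ((k + 1) * H)) ≤ (chi γ x * gw γ x (Bri H)) ^ (k + 1) := by
  induction k with
  | zero => simp
  | succ k ih =>
    rw [pow_succ, Nat.succ_mul (k + 1)]
    calc chi γ x * gw γ x (Bri ((k + 1) * H + H))
        ≤ chi γ x * (chi γ x * (gw γ x (Bri ((k + 1) * H)) * gw γ x (Bri H))) :=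
          mul_le_mul_right (gw_Bri_add_le x _ _) _
      _ = (chi γ x * gw γ x (Bri ((k + 1) * H))) * (chi γ x * gw γ x (Bri H)) := by ring
      _ ≤ _ := mul_le_mul_left ih _

/-- the standing hypotheses on the weight `x` and the decay rate `q` -/
structure Crit (γ : ℝ) (x q : ℝ) : Prop where
  x_pos : 0 < x
  x_lt : x < xc γ
  q_pos : 0 < q
  q_lt : q < 1
  upper : ∀ H : ℕ, gw γ (ENNReal.ofReal x) (Bri H) ≤ ENNReal.ofReal (q ^ H)
  lower : ∀ H : ℕ, ENNReal.ofReal (q ^ H) ≤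
    chi γ (ENNReal.ofReal x) * gw γ (ENNReal.ofReal x) (Bri H)

theorem exists_crit {q : ℝ} (hq : 0 < q) (hq1 : q < 1) : ∃ x, Crit γ x q := by
  set S : Set ℝ := {x | 0 < x ∧ x < xc γ ∧
    ∀ H : ℕ, gw γ (ENNReal.ofReal x) (Bri H) ≤ ENNReal.ofReal (q ^ H)} with hS
  have hxc : 0 < xc γ := xc_pos
  -- nonempty
  obtain ⟨x₀, hx₀⟩ : S.Nonempty := by
    have h1 : 0 < xc γ / 2 := by positivity
    have h2 : xc γ / 2 < xc γ := by linarith
    have hfin := chi_finite h1 h2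
    set c : ℝ := (chi γ (ENNReal.ofReal (xc γ / 2))).toReal with hc
    have hc1 : 1 ≤ c := by
      rw [hc, ← ENNReal.toReal_one]
      exact ENNReal.toReal_mono hfin.ne (one_le_chi _)
    have hce : chi γ (ENNReal.ofReal (xc γ / 2)) = ENNReal.ofReal c :=
      (ENNReal.ofReal_toReal hfin.ne).symm
    have hs0 : 0 < q / c := by positivity
    have hs1 : q / c ≤ 1 := by
      rw [div_le_one (by linarith)]; linarith
    refine ⟨xc γ / 2 * (q / c), by positivity, ?_, ?_⟩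
    · calc xc γ / 2 * (q / c) ≤ xc γ / 2 * 1 := by gcongr
        _ < xc γ := by linarith
    · intro H
      rcases Nat.eq_zero_or_pos H with rfl | hH
      · rw [gw_Bri_zero]; simp
      · rw [ENNReal.ofReal_mul h1.le]
        refine (gw_scale _ _ (by
          rw [← ENNReal.ofReal_one]; exact ENNReal.ofReal_le_ofReal hs1) H).trans ?_
        calc ENNReal.ofReal (q / c) ^ H * gw γ (ENNReal.ofReal (xc γ / 2)) (Bri H)
            ≤ ENNReal.ofReal (q / c) ^ H * ENNReal.ofReal c := by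
              rw [← hce]
              exact mul_le_mul_right (gw_le_chi _ (Bri_sub_SW H)) _
          _ = ENNReal.ofReal ((q / c) ^ H * c) := by
              rw [← ENNReal.ofReal_pow hs0.le, ← ENNReal.ofReal_mul (by positivity)]
          _ ≤ ENNReal.ofReal (q ^ H) := by
              apply ENNReal.ofReal_le_ofReal
              rw [div_pow, div_mul_eq_mul_div, div_le_iff₀ (by positivity)]
              have h3 : c ≤ c ^ H := by
                calc c = c ^ 1 := (pow_one c).symm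
                  _ ≤ c ^ H := pow_le_pow_right₀ hc1 hH
              have h4 : 0 ≤ q ^ H := by positivity
              nlinarith
  -- bounded away from `xc γ`
  set y₀ : ℝ := x₀ * Real.exp (-|γ|) with hy₀
  have hy₀0 : 0 < y₀ := mul_pos hx₀.1 (Real.exp_pos _)
  obtain ⟨xs, hxs0, hxs1, hxs2⟩ := chi_unbounded (γ := γ)
    (y₀⁻¹ * (Real.exp (y₀⁻¹ / (1 - q)) * Real.exp (y₀⁻¹ / (1 - q))))
  have hbd : ∀ x ∈ S, x ≤ max xs x₀ := by
    intro x hx
    by_contra hcon
    push Not at hcon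
    have h1 : xs < x := (le_max_left _ _).trans_lt hcon
    have h2 : x₀ < x := (le_max_right _ _).trans_lt hcon
    have h3 := chi_le_of_bridges (γ := γ) (x₀ := y₀) (x := x) hy₀0
      (mul_le_mul_of_nonneg_right h2.le (Real.exp_pos _).le) hq.le hq1 hx.2.2
    have h4 : chi γ (ENNReal.ofReal xs) ≤ chi γ (ENNReal.ofReal x) :=
      gw_mono_x (ENNReal.ofReal_le_ofReal h1.le) _
    exact absurd (hxs2.trans_le (h4.trans h3)) (lt_irrefl _)
  set xf := sSup S with hxf
  have hbdd : BddAbove S := ⟨_, fun x hx => hbd x hx⟩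
  have hx0f : x₀ ≤ xf := le_csSup hbdd hx₀
  have hxf0 : 0 < xf := lt_of_lt_of_le hx₀.1 hx0f
  have hxfc : xf < xc γ := by
    refine lt_of_le_of_lt (csSup_le ⟨x₀, hx₀⟩ hbd) ?_
    exact max_lt hxs1 hx₀.2.1
  have hupper : ∀ H : ℕ, gw γ (ENNReal.ofReal xf) (Bri H) ≤ ENNReal.ofReal (q ^ H) := by
    intro H
    rw [gw_eq]
    refine tsum_pow_left (fun w : Bri H => tl γ (w : Wd)) (fun w : Bri H => (w : Wd).length)
      (by simpa using hxf0) ?_
    intro y hy
    rw [← gw_eq]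
    have hytop : y ≠ ∞ := (hy.trans_le le_top).ne
    have hy' : y.toReal < xf := by
      rw [← ENNReal.toReal_ofReal hxf0.le]
      exact (ENNReal.toReal_lt_toReal hytop ENNReal.ofReal_ne_top).2 hy
    obtain ⟨x, hx, hyx⟩ := exists_lt_of_lt_csSup ⟨x₀, hx₀⟩ hy'
    refine le_trans (gw_mono_x ?_ _) (hx.2.2 H)
    rw [← ENNReal.ofReal_toReal hytop]
    exact ENNReal.ofReal_le_ofReal hyx.le
  refine ⟨xf, hxf0, hxfc, hq, hq1, hupper, ?_⟩
  intro H₀
  by_contra hcon
  push Not at hcon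
  have hH₀ : 0 < H₀ := by
    by_contra h0
    have : H₀ = 0 := by omega
    subst this
    rw [gw_Bri_zero, mul_one, pow_zero, ENNReal.ofReal_one] at hcon
    exact absurd hcon (not_lt.2 (one_le_chi _))
  -- right continuity
  have h1 : 0 < (xf + xc γ) / 2 := by linarith
  have h2 : (xf + xc γ) / 2 < xc γ := by linarith
  have h3 : xf < (xf + xc γ) / 2 := by linarith
  have hfin := chi_finite h1 h2
  have hgp : ∀ y : ℝ≥0∞, chi γ y * gw γ y (Bri H₀) =
      ∑' p : (SW ×ˢ Bri H₀ : Set (Wd × Wd)), (tl γ (p : Wd × Wd).1 * tl γ (p : Wd × Wd).2) *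
        y ^ ((p : Wd × Wd).1.length + (p : Wd × Wd).2.length) := by
    intro y
    rw [chi, ← gp_prod, gp_eq]
  obtain ⟨y, hy1, hy2, hy3⟩ := tsum_pow_right
    (fun p : (SW ×ˢ Bri H₀ : Set (Wd × Wd)) => tl γ (p : Wd × Wd).1 * tl γ (p : Wd × Wd).2)
    (fun p => (p : Wd × Wd).1.length + (p : Wd × Wd).2.length)
    (x₀ := ENNReal.ofReal xf) (x₁ := ENNReal.ofReal ((xf + xc γ) / 2))
    ((ENNReal.ofReal_lt_ofReal_iff h1).2 h3)
    (by
      rw [← hgp]
      exact ENNReal.mul_ne_top hfin.ne ((gw_le_chi _ (Bri_sub_SW H₀)).trans_lt hfin).ne)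
    (by rw [← hgp]; exact hcon)
  rw [← hgp] at hy3
  have hytop : y ≠ ∞ := (hy2.trans_lt ENNReal.ofReal_lt_top).ne
  have hye : ENNReal.ofReal y.toReal = y := ENNReal.ofReal_toReal hytop
  have hyr : xf < y.toReal := by
    rw [← ENNReal.toReal_ofReal hxf0.le]
    exact (ENNReal.toReal_lt_toReal ENNReal.ofReal_ne_top hytop).2 hy1
  have hyc : y.toReal < xc γ := by
    refine lt_of_le_of_lt ?_ h2
    rw [← ENNReal.toReal_ofReal h1.le]
    exact ENNReal.toReal_mono ENNReal.ofReal_ne_top hy2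
  have hnS : y.toReal ∉ S := fun h => absurd (le_csSup hbdd h) (not_le.2 hyr)
  have hex : ∃ H₁ : ℕ, ENNReal.ofReal (q ^ H₁) < gw γ y (Bri H₁) := by
    by_contra h4
    push Not at h4
    exact hnS ⟨hxf0.trans hyr, hyc, fun H => by rw [hye]; exact h4 H⟩
  obtain ⟨H₁, hH₁⟩ := hex
  have hH₁0 : 0 < H₁ := by
    by_contra h0
    have : H₁ = 0 := by omega
    subst this
    rw [gw_Bri_zero, pow_zero, ENNReal.ofReal_one] at hH₁
    exact lt_irrefl _ hH₁
  have e1 : ENNReal.ofReal (q ^ H₁) ^ H₀ < gw γ y (Bri H₁) ^ H₀ :=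
    ENNReal.pow_lt_pow_left (by omega) hH₁
  have e2 := pow_Bri_le (γ := γ) y H₁ H₀
  obtain ⟨k, rfl⟩ : ∃ k, H₁ = k + 1 := ⟨H₁ - 1, by omega⟩
  have e3 := chi_Bri_pow_le (γ := γ) y H₀ k
  have e4 : (chi γ y * gw γ y (Bri H₀)) ^ (k + 1) ≤ ENNReal.ofReal (q ^ H₀) ^ (k + 1) := by
    gcongr
  have e5 : gw γ y (Bri ((k + 1) * H₀)) ≤ chi γ y * gw γ y (Bri ((k + 1) * H₀)) := by
    calc _ = 1 * gw γ y (Bri ((k + 1) * H₀)) := (one_mul _).symm
      _ ≤ _ := mul_le_mul_left (one_le_chi y) _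
  have e6 : H₀ * (k + 1) = (k + 1) * H₀ := by ring
  rw [e6] at e2
  have e7 : ENNReal.ofReal (q ^ (k + 1)) ^ H₀ = ENNReal.ofReal (q ^ H₀) ^ (k + 1) := by
    rw [← ENNReal.ofReal_pow (by positivity), ← ENNReal.ofReal_pow (by positivity), ← pow_mul,
      ← pow_mul, mul_comm]
  have e8 := e1.trans_le (e2.trans (e5.trans (e3.trans e4)))
  rw [e7] at e8
  exact lt_irrefl _ e8

end Pool.Agent.TPG
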