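import Pool.Agent.Lib_helper74.MG.Cuts
import Pool.Agent.TPG.Xf

/-!
# Mass gap of pairs of strands, V: common cuts of pairs of bridges, renewal (fork of Lib_helper74/MG with a lateral force)
-/

set_option autoImplicit false

namespace Pool.Agent.TPG

open Pool.Agent.MG Pool.Agent.Lib27 Pool.Agent.SapR
open scoped ENNReal

variable {γ : ℝ}

/-! ### sums over pairs -/

theorem gp_indicator (x : ℝ≥0∞) (S : Set (Wd × Wd)) :
    gp γ x S = ∑' p : Wd × Wd, S.indicator (fun p => wt2 γ x p) p :=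
  tsum_subtype S (fun p : Wd × Wd => wt2 γ x p)

theorem sum_gp_le {ι : Type*} (x : ℝ≥0∞) (s : Finset ι) (S : ι → Set (Wd × Wd))
    (T : Set (Wd × Wd)) (hsub : ∀ i ∈ s, S i ⊆ T)
    (hdisj : ∀ i ∈ s, ∀ j ∈ s, ∀ p, p ∈ S i → p ∈ S j → i = j) :
    ∑ i ∈ s, gp γ x (S i) ≤ gp γ x T := by
  classical
  simp_rw [gp_indicator]
  rw [← Summable.tsum_finsetSum (fun i _ => ENNReal.summable)]
  refine ENNReal.tsum_le_tsum fun p => ?_
  by_cases h : ∃ i ∈ s, p ∈ S i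
  · obtain ⟨i, hi, hp⟩ := h
    rw [Finset.sum_eq_single i]
    · rw [Set.indicator_of_mem hp, Set.indicator_of_mem (hsub i hi hp)]
    · intro j hj hji
      rw [Set.indicator_of_notMem]
      intro hp'
      exact hji (hdisj j hj i hi p hp' hp)
    · intro h'
      exact absurd hi h'
  · push Not at h
    rw [Finset.sum_eq_zero fun i hi => Set.indicator_of_notMem (h i hi) _]
    exact bot_le

theorem gp_le_sum {ι : Type*} (x : ℝ≥0∞) (s : Finset ι) (S : ι → Set (Wd × Wd))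
    (T : Set (Wd × Wd)) (hsub : ∀ p ∈ T, ∃ i ∈ s, p ∈ S i) :
    gp γ x T ≤ ∑ i ∈ s, gp γ x (S i) := by
  classical
  simp_rw [gp_indicator]
  rw [← Summable.tsum_finsetSum (fun i _ => ENNReal.summable)]
  refine ENNReal.tsum_le_tsum fun p => ?_
  by_cases hp : p ∈ T
  · obtain ⟨i, hi, hpi⟩ := hsub p hp
    rw [Set.indicator_of_mem hp]
    refine le_trans ?_ (Finset.single_le_sum (f := fun i =>
      (S i).indicator (fun p : Wd × Wd => wt2 γ x p) p)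
      (fun _ _ => bot_le) hi)
    rw [Set.indicator_of_mem hpi]
  · rw [Set.indicator_of_notMem hp]
    exact bot_le

/-- three-fold product of sums over pairs -/
theorem gp_mul3_le (x : ℝ≥0∞) {A B C T : Set (Wd × Wd)}
    (hmem : ∀ a ∈ A, ∀ b ∈ B, ∀ c ∈ C, (a.1 ++ b.1 ++ c.1, a.2 ++ b.2 ++ c.2) ∈ T)
    (hinj : ∀ a ∈ A, ∀ b ∈ B, ∀ c ∈ C, ∀ a' ∈ A, ∀ b' ∈ B, ∀ c' ∈ C,
      a.1 ++ b.1 ++ c.1 = a'.1 ++ b'.1 ++ c'.1 → a.2 ++ b.2 ++ c.2 = a'.2 ++ b'.2 ++ c'.2 →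
      a = a' ∧ b = b' ∧ c = c') :
    gp γ x A * gp γ x B * gp γ x C ≤ gp γ x T := by
  have h1 : gp γ x A * gp γ x B * gp γ x C = ∑' t : A × (B × C),
      wt2 γ x t.1 * (wt2 γ x t.2.1 * wt2 γ x t.2.2) := by
    unfold gp
    rw [mul_assoc, ← ENNReal.tsum_mul_right]
    refine Eq.trans ?_ (ENNReal.tsum_prod (f := fun (a : A) (t : B × C) =>
      wt2 γ x a * (wt2 γ x t.1 * wt2 γ x t.2))).symm
    congr 1
    funext a
    rw [ENNReal.tsum_mul_left]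
    congr 1
    rw [← ENNReal.tsum_mul_right]
    refine Eq.trans ?_ (ENNReal.tsum_prod (f := fun (b : B) (c : C) =>
      wt2 γ x b * wt2 γ x c)).symm
    congr 1
    funext b
    rw [← ENNReal.tsum_mul_left]
  rw [h1]
  let φ : A × (B × C) → T := fun t =>
    ⟨((t.1 : Wd × Wd).1 ++ (t.2.1 : Wd × Wd).1 ++ (t.2.2 : Wd × Wd).1,
      (t.1 : Wd × Wd).2 ++ (t.2.1 : Wd × Wd).2 ++ (t.2.2 : Wd × Wd).2),
      hmem t.1 t.1.2 t.2.1 t.2.1.2 t.2.2 t.2.2.2⟩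
  have hφ : Function.Injective φ := by
    rintro ⟨a, b, c⟩ ⟨a', b', c'⟩ h
    have h2 := congrArg Subtype.val h
    have h3 := congrArg Prod.fst h2
    have h4 := congrArg Prod.snd h2
    obtain ⟨e1, e2, e3⟩ := hinj a a.2 b b.2 c c.2 a' a'.2 b' b'.2 c' c'.2 h3 h4
    exact Prod.ext (Subtype.ext e1) (Prod.ext (Subtype.ext e2) (Subtype.ext e3))
  refine le_trans (le_of_eq ?_) (ENNReal.tsum_comp_le_tsum_of_injective hφ
    (fun p : T => wt2 γ x (p : Wd × Wd)))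
  congr 1
  funext t
  simp only [φ, wt2, wt_append]
  ring

/-- splitting of sums over pairs in three parts -/
theorem gp_split3 (x : ℝ≥0∞) {A B C T : Set (Wd × Wd)}
    (h : ∀ p ∈ T, ∃ a b c, a ∈ A ∧ b ∈ B ∧ c ∈ C ∧ p = (a.1 ++ b.1 ++ c.1, a.2 ++ b.2 ++ c.2)) :
    gp γ x T ≤ gp γ x A * gp γ x B * gp γ x C := by
  choose! a b c ha hb hc he using h
  have h1 : gp γ x A * gp γ x B * gp γ x C = ∑' t : (Wd × Wd) × ((Wd × Wd) × (Wd × Wd)),
      (A.indicator (fun p => wt2 γ x p) t.1) *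
        ((B.indicator (fun p => wt2 γ x p) t.2.1) *
        (C.indicator (fun p => wt2 γ x p) t.2.2)) := by
    rw [gp_indicator x A, gp_indicator x B, gp_indicator x C, mul_assoc,
      ← ENNReal.tsum_mul_right]
    refine Eq.trans ?_ (ENNReal.tsum_prod (f := fun (a : Wd × Wd) (t : (Wd × Wd) × (Wd × Wd)) =>
      (A.indicator (fun p => wt2 γ x p) a) *
        ((B.indicator (fun p => wt2 γ x p) t.1) *
        (C.indicator (fun p => wt2 γ x p) t.2)))).symm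
    congr 1
    funext a
    rw [ENNReal.tsum_mul_left]
    congr 1
    rw [← ENNReal.tsum_mul_right]
    refine Eq.trans ?_ (ENNReal.tsum_prod (f := fun (b c : Wd × Wd) =>
        (B.indicator (fun p => wt2 γ x p) b) *
        (C.indicator (fun p => wt2 γ x p) c))).symm
    congr 1
    funext b
    rw [← ENNReal.tsum_mul_left]
  rw [h1]
  refine tsum_le_of_inj' (S := T) (fun p : Wd × Wd => wt2 γ x p) _
    (fun p => (a p, (b p, c p))) ?_ ?_
  · intro p hp p' hp' heq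
    have e1 : a p = a p' := congrArg Prod.fst heq
    have e2 : b p = b p' := congrArg (fun t => t.2.1) heq
    have e3 : c p = c p' := congrArg (fun t => t.2.2) heq
    rw [he p hp, he p' hp', e1, e2, e3]
  · intro p hp
    simp only
    rw [Set.indicator_of_mem (ha p hp), Set.indicator_of_mem (hb p hp),
      Set.indicator_of_mem (hc p hp)]
    conv_lhs => rw [he p hp]
    refine le_of_eq ?_
    simp only [wt2, wt_append]
    ring

theorem gp_Brp (x : ℝ≥0∞) (H : ℕ) : gp γ x (Brp H) = gw γ x (Bri H) ^ 2 := by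
  rw [Brp, gp_prod, sq]

/-! ### renewal -/

/-- lower renewal inequality around the level `t` -/
theorem renewal_lower (x : ℝ≥0∞) (t M : ℕ) (s : Finset (ℕ × ℕ))
    (hs : ∀ i ∈ s, i.1 ≤ t ∧ t < i.1 + i.2 ∧ i.1 + i.2 ≤ M) :
    ∑ i ∈ s, gp γ x (Brp i.1) * gp γ x (Irr i.2) * gp γ x (Brp (M - (i.1 + i.2))) ≤
      gp γ x (Brp M) := by
  classical
  -- the pairs whose last cut below `t` is `i.1` and whose first cut above `t` is `i.1 + i.2`
  let S : ℕ × ℕ → Set (Wd × Wd) := fun i => {p | p ∈ Brp M ∧ CC p.1 p.2 i.1 ∧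
    CC p.1 p.2 ((i.1 + i.2 : ℕ) : ℤ) ∧ ∀ k : ℤ, (i.1 : ℤ) < k → k < ((i.1 + i.2 : ℕ) : ℤ) →
      ¬ CC p.1 p.2 k}
  have h1 : ∀ i ∈ s, gp γ x (Brp i.1) * gp γ x (Irr i.2) * gp γ x (Brp (M - (i.1 + i.2))) ≤
      gp γ x (S i) := by
    rintro ⟨i, l⟩ hi
    obtain ⟨h1, h2, h3⟩ := hs _ hi
    simp only at h1 h2 h3 ⊢
    -- counting on each component
    have key : ∀ u v w : Wd, u ∈ Bri i → v ∈ Bri l → w ∈ Bri (M - (i + l)) →
        (u ++ v ++ w) ∈ Bri M ∧ cnt (vt 0 (u ++ v ++ w)) i = 1 ∧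
        cnt (vt 0 (u ++ v ++ w)) ((i + l : ℕ) : ℤ) = 1 ∧
        ∀ k : ℤ, (i : ℤ) < k → k < ((i + l : ℕ) : ℤ) →
          cnt (vt 0 (u ++ v ++ w)) k = cnt (vt 0 v) (k - i) := by
      intro u v w hu hv hw
      have huv : u ++ v ∈ Bri (i + l) := Bri_append hu hv
      have huvw : u ++ v ++ w ∈ Bri M := by
        have := Bri_append huv hw
        rwa [Nat.add_sub_cancel' h3] at this
      have hc : ∀ k : ℤ, k < ((i + l : ℕ) : ℤ) →
          cnt (vt 0 (u ++ v ++ w)) k = cnt (vt 0 (u ++ v)) k := by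
        intro k hk
        refine cnt_below (Bri_sub_Fp _ huv) hk fun p hp => ?_
        have := (Bri_lev hw hp).1
        omega
      have hd : ∀ k : ℤ, (i : ℤ) ≤ k → cnt (vt 0 (u ++ v)) k = cnt (vt 0 v) (k - i) := fun k hk =>
        cnt_above v (Bri_sub_Fp _ hu) hk
      refine ⟨huvw, ?_, ?_, ?_⟩
      · rw [hc i (by omega), hd i le_rfl, sub_self, cnt_start hv]
      · rw [cnt_above w (Bri_sub_Fp _ huv) le_rfl, sub_self, cnt_start hw]
      · intro k hk hk'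
        rw [hc k hk', hd k hk.le]
    apply gp_mul3_le
    · rintro ⟨a1, a2⟩ ha ⟨b1, b2⟩ hb ⟨c1, c2⟩ hc
      obtain ⟨m1, m2, m3, m4⟩ := key a1 b1 c1 ha.1 hb.1.1 hc.1
      obtain ⟨n1, n2, n3, n4⟩ := key a2 b2 c2 ha.2 hb.1.2 hc.2
      refine ⟨⟨m1, n1⟩, ⟨m2, n2⟩, ⟨m3, n3⟩, ?_⟩
      intro k hk hk' hcc
      apply hb.2 (k - i) (by omega) (by push_cast at hk'; omega)
      refine ⟨?_, ?_⟩
      · rw [← m4 k hk hk']; exact hcc.1
      · rw [← n4 k hk hk']; exact hcc.2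
    · rintro ⟨a1, a2⟩ ha ⟨b1, b2⟩ hb ⟨c1, c2⟩ hc ⟨a1', a2'⟩ ha' ⟨b1', b2'⟩ hb' ⟨c1', c2'⟩ hc' e1 e2
      simp only [List.append_assoc] at e1 e2
      obtain ⟨p1, p2⟩ := Fp_cancel' (Bri_sub_Fp _ ha.1) (Bri_sub_Fp _ ha'.1) e1
      obtain ⟨p3, p4⟩ := Fp_cancel' (Bri_sub_Fp _ hb.1.1) (Bri_sub_Fp _ hb'.1.1) p2
      obtain ⟨q1, q2⟩ := Fp_cancel' (Bri_sub_Fp _ ha.2) (Bri_sub_Fp _ ha'.2) e2
      obtain ⟨q3, q4⟩ := Fp_cancel' (Bri_sub_Fp _ hb.1.2) (Bri_sub_Fp _ hb'.1.2) q2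
      exact ⟨Prod.ext p1 q1, Prod.ext p3 q3, Prod.ext p4 q4⟩
  refine (Finset.sum_le_sum h1).trans (sum_gp_le x s S _ (fun i _ p hp => hp.1) ?_)
  -- disjointness
  rintro ⟨i, l⟩ hi ⟨i', l'⟩ hi' p hp hp'
  obtain ⟨h1, h2, h3⟩ := hs _ hi
  obtain ⟨h1', h2', h3'⟩ := hs _ hi'
  obtain ⟨-, c1, c2, c3⟩ := hp
  obtain ⟨-, c1', c2', c3'⟩ := hp'
  simp only at h1 h2 h3 h1' h2' h3' c1 c2 c3 c1' c2' c3'
  have e1 : i = i' := by
    rcases lt_trichotomy i i' with h | h | h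
    · exact absurd c1' (c3 i' (by omega) (by push_cast; omega))
    · exact h
    · exact absurd c1 (c3' i (by omega) (by push_cast; omega))
  subst e1
  have e2 : l = l' := by
    rcases lt_trichotomy l l' with h | h | h
    · exact absurd c2 (c3' _ (by push_cast; omega) (by push_cast; omega))
    · exact h
    · exact absurd c2' (c3 _ (by push_cast; omega) (by push_cast; omega))
  subst e2
  rfl

/-- upper renewal inequality -/
theorem renewal_upper (x : ℝ≥0∞) (A B L : ℕ) (hAB : A < B) (hBL : B ≤ L) :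
    gp γ x (Nc A B L) ≤ ∑ i ∈ (Finset.range (A + 1) ×ˢ Finset.range (L + 1)).filter
      (fun i => B ≤ i.1 + i.2 ∧ i.1 + i.2 ≤ L),
      gp γ x (Brp i.1) * gp γ x (Irr i.2) * gp γ x (Brp (L - (i.1 + i.2))) := by
  classical
  let S : ℕ × ℕ → Set (Wd × Wd) := fun i => {p | p ∈ Brp L ∧ CC p.1 p.2 i.1 ∧
    CC p.1 p.2 ((i.1 + i.2 : ℕ) : ℤ) ∧ ∀ k : ℤ, (i.1 : ℤ) < k → k < ((i.1 + i.2 : ℕ) : ℤ) →
      ¬ CC p.1 p.2 k}
  have h1 : gp γ x (Nc A B L) ≤ ∑ i ∈ (Finset.range (A + 1) ×ˢ Finset.range (L + 1)).filter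
      (fun i => B ≤ i.1 + i.2 ∧ i.1 + i.2 ≤ L), gp γ x (S i) := by
    apply gp_le_sum
    rintro ⟨a, b⟩ ⟨hp, hno⟩
    -- last cut below
    have hz : CC a b ((0 : ℕ) : ℤ) := ⟨cnt_start hp.1, cnt_start hp.2⟩
    have hL : CC a b (L : ℤ) := ⟨cnt_end (Bri_sub_Fp _ hp.1), cnt_end (Bri_sub_Fp _ hp.2)⟩
    set i := Nat.findGreatest (fun k => CC a b (k : ℤ)) A with hi
    have hi1 : i ≤ A := Nat.findGreatest_le A
    have hi2 : CC a b (i : ℤ) := Nat.findGreatest_spec (P := fun k => CC a b (k : ℤ))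
      (Nat.zero_le A) hz
    have hi3 : ∀ k, i < k → k ≤ A → ¬ CC a b (k : ℤ) := fun k hk hk' =>
      Nat.findGreatest_is_greatest (P := fun k => CC a b (k : ℤ)) hk hk'
    have hex : ∃ j, B ≤ j ∧ CC a b (j : ℤ) := ⟨L, hBL, hL⟩
    set j := Nat.find hex with hj
    have hj1 := (Nat.find_spec hex).1
    have hj2 : CC a b (j : ℤ) := (Nat.find_spec hex).2
    have hj3 : j ≤ L := Nat.find_min' hex ⟨hBL, hL⟩
    have hj4 : ∀ k, B ≤ k → k < j → ¬ CC a b (k : ℤ) := fun k hk hk' hcc =>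
      Nat.find_min hex hk' ⟨hk, hcc⟩
    have hj1' : B ≤ j := hj1
    have hij : i + (j - i) = j := by omega
    refine ⟨(i, j - i), ?_, ?_⟩
    · simp only [Finset.mem_filter, Finset.mem_product, Finset.mem_range]
      omega
    · refine ⟨hp, hi2, by simp only [hij]; exact hj2, ?_⟩
      simp only [hij]
      intro k hk hk'
      obtain ⟨m, rfl⟩ : ∃ m : ℕ, k = m := ⟨k.toNat, by omega⟩
      rcases Nat.lt_or_ge A m with hm | hm
      · rcases Nat.lt_or_ge m B with hm' | hm'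
        · exact hno m (by exact_mod_cast hm) (by exact_mod_cast hm')
        · exact hj4 m hm' (by exact_mod_cast hk')
      · exact hi3 m (by exact_mod_cast hk) hm
  refine h1.trans (Finset.sum_le_sum ?_)
  rintro ⟨i, l⟩ hi
  simp only [Finset.mem_filter, Finset.mem_product, Finset.mem_range] at hi
  apply gp_split3
  rintro ⟨a, b⟩ ⟨hp, c1, c2, c3⟩
  simp only at c1 c2 c3 ⊢
  have key : ∀ w : Wd, w ∈ Bri L → cnt (vt 0 w) i = 1 → cnt (vt 0 w) ((i + l : ℕ) : ℤ) = 1 →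
      ∃ u v t, u ∈ Bri i ∧ v ∈ Bri l ∧ t ∈ Bri (L - (i + l)) ∧ w = u ++ v ++ t ∧
        ∀ k : ℤ, 0 < k → k < l → cnt (vt 0 v) k = cnt (vt 0 w) (k + i) := by
    intro w hw h2 h3
    obtain ⟨w', t, hw', ht, rfl⟩ := Bri_cut hw hi.2.2 h3
    have h4 : ∀ k : ℤ, k < ((i + l : ℕ) : ℤ) → cnt (vt 0 (w' ++ t)) k = cnt (vt 0 w') k :=
      fun k hk => cnt_below (Bri_sub_Fp _ hw') hk fun p hp => by
        have := (Bri_lev ht hp).1
        omega
    have h5 : cnt (vt 0 w') i = 1 := by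
      rcases Nat.eq_zero_or_pos l with rfl | hl
      · have := cnt_end (Bri_sub_Fp _ hw')
        simpa using this
      · rw [← h4 i (by push_cast; omega)]; exact h2
    obtain ⟨u, v, hu, hv, rfl⟩ := Bri_cut hw' (by omega) h5
    rw [Nat.add_sub_cancel_left] at hv
    refine ⟨u, v, t, hu, hv, ht, rfl, ?_⟩
    intro k hk hk'
    rw [h4 (k + i) (by push_cast; omega), cnt_above v (Bri_sub_Fp _ hu) (by omega),
      add_sub_cancel_right]
  obtain ⟨u, v, t, hu, hv, ht, rfl, hc⟩ := key a hp.1 c1.1 c2.1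
  obtain ⟨u', v', t', hu', hv', ht', rfl, hc'⟩ := key b hp.2 c1.2 c2.2
  refine ⟨(u, u'), (v, v'), (t, t'), ⟨hu, hu'⟩, ⟨⟨hv, hv'⟩, ?_⟩, ⟨ht, ht'⟩, rfl⟩
  intro k hk hk' hcc
  apply c3 (k + i) (by omega) (by push_cast; omega)
  refine ⟨?_, ?_⟩
  · rw [← hc k hk hk']; exact hcc.1
  · rw [← hc' k hk hk']; exact hcc.2

end Pool.Agent.TPG
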