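import Pool.Agent.Lib_helper74.MG.Block
import Pool.Agent.TPG.Cuts

/-!
# Mass gap of pairs of strands, VI: the block recursion (fork of Lib_helper74/MG with a lateral force)
-/

set_option autoImplicit false

namespace Pool.Agent.TPG

open Pool.Agent.MG Pool.Agent.Lib27 Pool.Agent.SapR
open scoped ENNReal

variable {γ : ℝ}

open Classical in
/-- weight of a block -/
noncomputable def thw (γ : ℝ) (x Y : ℝ≥0∞) (K : ℕ) (p : Wd × Wd) : ℝ≥0∞ :=
  wt2 γ x p * (Y ^ (cc K p.1 + cc K p.2) * (if SB K p then 1 else Y⁻¹))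

/-- total weight of a block -/
noncomputable def theta (γ : ℝ) (x Y : ℝ≥0∞) (K : ℕ) : ℝ≥0∞ := ∑' p : Fpp (3 * K), thw γ x Y K p

/-- sums over concatenations, the first factor in a class which depends on the second -/
theorem gp_dep (x : ℝ≥0∞) {T A : Set (Wd × Wd)} (B : Wd × Wd → Set (Wd × Wd))
    (h : ∀ p ∈ T, ∃ q v, q ∈ A ∧ v ∈ B q ∧ p = (v.1 ++ q.1, v.2 ++ q.2)) :
    gp γ x T ≤ ∑' q : A, wt2 γ x (q : Wd × Wd) * gp γ x (B q) := by
  choose! q v hq hv he using h
  have h1 : ∑' q : A, wt2 γ x (q : Wd × Wd) * gp γ x (B q) =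
      ∑' t : (Wd × Wd) × (Wd × Wd), A.indicator (fun p => wt2 γ x p) t.1 *
        (B t.1).indicator (fun p => wt2 γ x p) t.2 := by
    refine Eq.trans ?_ (ENNReal.tsum_prod (f := fun (a b : Wd × Wd) =>
      A.indicator (fun p => wt2 γ x p) a *
        (B a).indicator (fun p => wt2 γ x p) b)).symm
    have h2 := tsum_subtype A (fun q : Wd × Wd => wt2 γ x q * gp γ x (B q))
    rw [h2]
    congr 1
    funext a
    rw [ENNReal.tsum_mul_left, ← gp_indicator]
    by_cases ha : a ∈ A
    · rw [Set.indicator_of_mem ha, Set.indicator_of_mem ha]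
    · rw [Set.indicator_of_notMem ha, Set.indicator_of_notMem ha, zero_mul]
  rw [h1]
  refine tsum_le_of_inj' (S := T) (fun p : Wd × Wd => wt2 γ x p) _
    (fun p => (q p, v p)) ?_ ?_
  · intro p hp p' hp' heq
    have e1 : q p = q p' := congrArg Prod.fst heq
    have e2 : v p = v p' := congrArg Prod.snd heq
    rw [he p hp, he p' hp', e1, e2]
  · intro p hp
    simp only
    rw [Set.indicator_of_mem (hq p hp), Set.indicator_of_mem (hv p hp)]
    conv_lhs => rw [he p hp]
    refine le_of_eq ?_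
    simp only [wt2, wt_append]
    ring

/-- the block recursion -/
theorem gp_Bad_le {x Y : ℝ≥0∞} (hY : 1 ≤ Y) (hYt : Y ≠ ∞) {K : ℕ} (hK : 0 < K) (k : ℕ) :
    ∀ r, gp γ x (Bad K k r) ≤ Y ^ r * theta γ x Y K ^ k := by
  classical
  have hY0 : Y ≠ 0 := (zero_lt_one.trans_le hY).ne'
  induction k with
  | zero =>
    intro r
    have h1 : gp γ x (Bad K 0 r) ≤ gp γ x ({([] : Wd)} ×ˢ {([] : Wd)}) := by
      apply gp_mono
      rintro ⟨a, b⟩ ⟨ha, hb, -⟩
      rw [zero_mul] at ha hb
      exact ⟨Fp_zero ha, Fp_zero hb⟩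
    rw [gp_prod, gw_singleton] at h1
    simp only [wt_nil, pow_zero, mul_one] at h1 ⊢
    exact h1.trans (one_le_pow₀ hY)
  | succ k ih =>
    intro r
    set A : Set (Wd × Wd) := {q | q ∈ Fpp (3 * K) ∧ (1 ≤ r ∨ SB K q)} with hA
    have h1 : gp γ x (Bad K (k + 1) r) ≤ ∑' q : A,
        wt2 γ x (q : Wd × Wd) *
          gp γ x (Bad K k (max (r - 1) (max (cc K (q : Wd × Wd).1) (cc K (q : Wd × Wd).2)))) := by
      apply gp_dep (B := fun q => Bad K k (max (r - 1) (max (cc K q.1) (cc K q.2))))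
      rintro ⟨a, b⟩ ⟨ha, hb, hno⟩
      simp only at ha hb hno
      rw [Nat.succ_mul] at ha hb
      obtain ⟨v, s, hv, hs, rfl⟩ := Fp_cut ha
      obtain ⟨v', s', hv', hs', rfl⟩ := Fp_cut hb
      refine ⟨(s, s'), (v, v'), ⟨⟨hs, hs'⟩, ?_⟩, ?_, rfl⟩
      · rcases Nat.eq_zero_or_pos r with rfl | hr
        · right
          intro l hl1 hl2 hcc
          refine hno k (by omega) (l + ((k * (3 * K) : ℕ) : ℤ)) (by push_cast; omega)
            (by push_cast; push_cast at hl2; omega) ?_
          rw [CC_above s s' hv hv' (by omega), add_sub_cancel_right]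
          exact hcc
        · exact Or.inl hr
      · refine bad_of_cut hK hv hv' ?_
        intro j hj l hl1 hl2
        exact hno j (by omega) l hl1 hl2
    refine h1.trans ?_
    have h2 : ∀ q : A, wt2 γ x (q : Wd × Wd) *
          gp γ x (Bad K k (max (r - 1) (max (cc K (q : Wd × Wd).1) (cc K (q : Wd × Wd).2)))) ≤
        Y ^ r * theta γ x Y K ^ k * thw γ x Y K q := by
      rintro ⟨q, hq⟩
      simp only
      obtain ⟨c, hc⟩ : ∃ c, c = cc K q.1 + cc K q.2 := ⟨_, rfl⟩
      have hmax : max (cc K q.1) (cc K q.2) ≤ c := by rw [hc]; omega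
      have h3 : Y ^ (max (r - 1) (max (cc K q.1) (cc K q.2))) ≤
          Y ^ r * (Y ^ c * (if SB K q then 1 else Y⁻¹)) := by
        by_cases hsb : SB K q
        · rw [if_pos hsb, mul_one, ← pow_add]
          exact pow_le_pow_right₀ hY (max_le (by omega) (by omega))
        · rw [if_neg hsb]
          have hr : 1 ≤ r := by
            rcases hq.2 with h | h
            · exact h
            · exact absurd h hsb
          obtain ⟨r', rfl⟩ : ∃ r', r = r' + 1 := ⟨r - 1, by omega⟩
          have h4 : Y ^ (r' + 1) * (Y ^ c * Y⁻¹) = Y ^ (r' + c) := by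
            rw [pow_succ, pow_add Y r' c]
            calc Y ^ r' * Y * (Y ^ c * Y⁻¹) = Y ^ r' * Y ^ c * (Y * Y⁻¹) := by ring
              _ = _ := by rw [ENNReal.mul_inv_cancel hY0 hYt, mul_one]
          rw [h4]
          exact pow_le_pow_right₀ hY (max_le (by omega) (by omega))
      calc wt2 γ x q *
            gp γ x (Bad K k (max (r - 1) (max (cc K q.1) (cc K q.2))))
          ≤ wt2 γ x q *
            (Y ^ (max (r - 1) (max (cc K q.1) (cc K q.2))) * theta γ x Y K ^ k) :=
            mul_le_mul_right (ih _) _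
        _ ≤ wt2 γ x q *
            (Y ^ r * (Y ^ c * (if SB K q then 1 else Y⁻¹)) * theta γ x Y K ^ k) :=
            mul_le_mul_right (mul_le_mul_left h3 _) _
        _ = _ := by rw [hc]; unfold thw; ring
    calc _ ≤ ∑' q : A, Y ^ r * theta γ x Y K ^ k * thw γ x Y K q := ENNReal.tsum_le_tsum h2
      _ = Y ^ r * theta γ x Y K ^ k * ∑' q : A, thw γ x Y K q := ENNReal.tsum_mul_left
      _ ≤ Y ^ r * theta γ x Y K ^ k * theta γ x Y K := by
          refine mul_le_mul_right ?_ _
          exact tsum_le_of_inj (thw γ x Y K) (thw γ x Y K) (fun q => q) (fun q hq => hq.1)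
            (Set.injOn_id _) fun _ _ => le_rfl
      _ = _ := by rw [pow_succ]; ring

end Pool.Agent.TPG
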