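import Pool.Agent.Lib_helper74.MG.Est
import Pool.Agent.TPG.Xf
import Pool.Agent.TPG.Block

/-!
# Mass gap of pairs of strands, VII: estimates at the critical point (fork of Lib_helper74/MG with a lateral force)
-/

set_option autoImplicit false

namespace Pool.Agent.TPG

open Pool.Agent.MG Pool.Agent.Lib27 Pool.Agent.SapR
open scoped ENNReal

variable {γ : ℝ}

/-- critical pairs -/
structure CrE (γ : ℝ) (x Q : ℝ≥0∞) : Prop where
  chi_fin : chi γ x ≠ ∞
  q_pos : Q ≠ 0
  q_lt : Q < 1
  upper : ∀ H : ℕ, gw γ x (Bri H) ≤ Q ^ H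
  lower : ∀ H : ℕ, Q ^ H ≤ chi γ x * gw γ x (Bri H)

theorem Crit.crE {x q : ℝ} (h : Crit γ x q) : CrE γ (ENNReal.ofReal x) (ENNReal.ofReal q) where
  chi_fin := (chi_finite h.x_pos h.x_lt).ne
  q_pos := by
    have := h.q_pos
    positivity
  q_lt := by
    have := (ENNReal.ofReal_lt_ofReal_iff (p := q) (q := 1) one_pos).2 h.q_lt
    simpa using this
  upper := fun H => by
    rw [← ENNReal.ofReal_pow h.q_pos.le]
    exact h.upper H
  lower := fun H => by
    rw [← ENNReal.ofReal_pow h.q_pos.le]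
    exact h.lower H

theorem CrE.q_top {x Q : ℝ≥0∞} (h : CrE γ x Q) : Q ≠ ∞ := (h.q_lt.trans ENNReal.one_lt_top).ne

/-- normalized weights of the irreducible pairs -/
noncomputable def nn (γ : ℝ) (x Q : ℝ≥0∞) (l : ℕ) : ℝ≥0∞ := gp γ x (Irr l) * Q⁻¹ ^ (2 * l)

/-- the mean height of the irreducible pairs is finite -/
theorem mean_le {x Q : ℝ≥0∞} (h : CrE γ x Q) (K : ℕ) :
    ∑ l ∈ Finset.range (K + 1), (l : ℝ≥0∞) * nn γ x Q l ≤ chi γ x ^ 4 := by
  classical
  have hQ0 := h.q_pos
  have hQt := h.q_top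
  set s : Finset (ℕ × ℕ) := (Finset.range (K + 1) ×ˢ Finset.range (K + 1)).filter
    (fun i => K < i.1 + i.2) with hs
  have h1 := renewal_lower (γ := γ) x K (2 * K) s (by
    intro i hi
    rw [hs, Finset.mem_filter, Finset.mem_product, Finset.mem_range, Finset.mem_range] at hi
    omega)
  have h2 : ∑ i ∈ s, Q ^ (4 * K) * nn γ x Q i.2 ≤ chi γ x ^ 4 * Q ^ (4 * K) := by
    calc ∑ i ∈ s, Q ^ (4 * K) * nn γ x Q i.2
        ≤ ∑ i ∈ s, chi γ x ^ 4 * (gp γ x (Brp i.1) * gp γ x (Irr i.2) *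
          gp γ x (Brp (2 * K - (i.1 + i.2)))) := by
          refine Finset.sum_le_sum fun i hi => ?_
          rw [hs, Finset.mem_filter, Finset.mem_product, Finset.mem_range, Finset.mem_range] at hi
          obtain ⟨j, hj⟩ : ∃ j, j = 2 * K - (i.1 + i.2) := ⟨_, rfl⟩
          have e1 : 4 * K = 2 * i.1 + 2 * j + 2 * i.2 := by omega
          rw [← hj, gp_Brp, gp_Brp, nn]
          calc Q ^ (4 * K) * (gp γ x (Irr i.2) * Q⁻¹ ^ (2 * i.2))
              = (Q ^ i.1) ^ 2 * (Q ^ j) ^ 2 * gp γ x (Irr i.2) *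
                (Q ^ (2 * i.2) * Q⁻¹ ^ (2 * i.2)) := by
                rw [e1, pow_add, pow_add]; ring
            _ = (Q ^ i.1) ^ 2 * (Q ^ j) ^ 2 * gp γ x (Irr i.2) := by
                rw [pow_mul_inv_pow hQ0 hQt, mul_one]
            _ ≤ (chi γ x * gw γ x (Bri i.1)) ^ 2 * (chi γ x * gw γ x (Bri j)) ^ 2 * gp γ x (Irr i.2) := by
                gcongr
                · exact h.lower _
                · exact h.lower _
            _ = _ := by ring
      _ = chi γ x ^ 4 * ∑ i ∈ s, gp γ x (Brp i.1) * gp γ x (Irr i.2) *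
          gp γ x (Brp (2 * K - (i.1 + i.2))) := by rw [Finset.mul_sum]
      _ ≤ chi γ x ^ 4 * gp γ x (Brp (2 * K)) := by gcongr
      _ ≤ chi γ x ^ 4 * Q ^ (4 * K) := by
          rw [gp_Brp]
          have : Q ^ (4 * K) = (Q ^ (2 * K)) ^ 2 := by rw [← pow_mul]; congr 1; ring
          rw [this]
          gcongr
          exact h.upper _
  have h3 : ∑ i ∈ s, nn γ x Q i.2 ≤ chi γ x ^ 4 := by
    rw [← Finset.mul_sum] at h2
    have h4 : Q ^ (4 * K) ≠ 0 := pow_ne_zero _ hQ0
    have h5 : Q ^ (4 * K) ≠ ∞ := ENNReal.pow_ne_top hQt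
    rw [mul_comm (chi γ x ^ 4)] at h2
    exact (ENNReal.mul_le_mul_iff_right h4 h5).1 h2
  refine le_trans (le_of_eq ?_) h3
  rw [hs, Finset.sum_filter, Finset.sum_product_right]
  refine Finset.sum_congr rfl fun l hl => ?_
  rw [← Finset.sum_filter]
  show (l : ℝ≥0∞) * nn γ x Q l =
    ∑ _i ∈ (Finset.range (K + 1)).filter (fun i => K < i + l), nn γ x Q l
  rw [Finset.sum_const, card_mean K l (by rw [Finset.mem_range] at hl; omega), nsmul_eq_mul]

theorem mean_tsum_le {x Q : ℝ≥0∞} (h : CrE γ x Q) :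
    ∑' l : ℕ, (l : ℝ≥0∞) * nn γ x Q l ≤ chi γ x ^ 4 := by
  refine ENNReal.tsum_le_of_sum_range_le fun n => ?_
  refine le_trans ?_ (mean_le h n)
  exact Finset.sum_le_sum_of_subset (Finset.range_mono (Nat.le_succ n))

/-- pairs of bridges without common cut in the middle third -/
theorem gp_Nc_le {x Q : ℝ≥0∞} (h : CrE γ x Q) (K : ℕ) (hK : 0 < K) :
    gp γ x (Nc K (2 * K) (3 * K)) ≤
      Q ^ (6 * K) * (2 * ∑' k : ℕ, ((k + K : ℕ) : ℝ≥0∞) * nn γ x Q (k + K)) := by
  classical
  have hQ0 := h.q_pos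
  have hQt := h.q_top
  have h1 := renewal_upper (γ := γ) x K (2 * K) (3 * K) (by omega) (by omega)
  refine h1.trans ?_
  set s := (Finset.range (K + 1) ×ˢ Finset.range (3 * K + 1)).filter
    (fun i : ℕ × ℕ => 2 * K ≤ i.1 + i.2 ∧ i.1 + i.2 ≤ 3 * K) with hs
  calc ∑ i ∈ s, gp γ x (Brp i.1) * gp γ x (Irr i.2) * gp γ x (Brp (3 * K - (i.1 + i.2)))
      ≤ ∑ i ∈ s, Q ^ (6 * K) * nn γ x Q i.2 := by
        refine Finset.sum_le_sum fun i hi => ?_
        rw [hs, Finset.mem_filter, Finset.mem_product, Finset.mem_range, Finset.mem_range] at hi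
        obtain ⟨j, hj⟩ : ∃ j, j = 3 * K - (i.1 + i.2) := ⟨_, rfl⟩
        have e1 : 6 * K = 2 * i.1 + 2 * j + 2 * i.2 := by omega
        rw [← hj, gp_Brp, gp_Brp, nn]
        calc gw γ x (Bri i.1) ^ 2 * gp γ x (Irr i.2) * gw γ x (Bri j) ^ 2
            ≤ (Q ^ i.1) ^ 2 * gp γ x (Irr i.2) * (Q ^ j) ^ 2 := by
              gcongr
              · exact h.upper _
              · exact h.upper _
          _ = (Q ^ i.1) ^ 2 * (Q ^ j) ^ 2 * gp γ x (Irr i.2) *
                (Q ^ (2 * i.2) * Q⁻¹ ^ (2 * i.2)) := by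
              rw [pow_mul_inv_pow hQ0 hQt]; ring
          _ = _ := by rw [e1, pow_add, pow_add]; ring
    _ = Q ^ (6 * K) * ∑ i ∈ s, nn γ x Q i.2 := by rw [Finset.mul_sum]
    _ ≤ _ := by
        refine mul_le_mul_right ?_ _
        rw [hs, Finset.sum_filter, Finset.sum_product_right]
        have h2 : ∀ l ∈ Finset.range (3 * K + 1), (∑ i ∈ Finset.range (K + 1),
            if 2 * K ≤ i + l ∧ i + l ≤ 3 * K then nn γ x Q l else 0) ≤
            if K ≤ l then 2 * ((l : ℝ≥0∞) * nn γ x Q l) else 0 := by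
          intro l hl
          rw [← Finset.sum_filter, Finset.sum_const, nsmul_eq_mul]
          split_ifs with hKl
          · rw [← mul_assoc]
            gcongr
            have := card_ren K l hKl
            have h3 : l + 1 ≤ 2 * l := by omega
            exact_mod_cast this.trans h3
          · have : (Finset.range (K + 1)).filter (fun i => 2 * K ≤ i + l ∧ i + l ≤ 3 * K) = ∅ := by
              rw [Finset.filter_eq_empty_iff]
              intro i hi
              rw [Finset.mem_range] at hi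
              omega
            rw [this]
            simp
        refine (Finset.sum_le_sum h2).trans ?_
        rw [← ENNReal.tsum_mul_left, ← Finset.sum_filter]
        have h4 : ∑ l ∈ (Finset.range (3 * K + 1)).filter (fun l => K ≤ l),
            2 * ((l : ℝ≥0∞) * nn γ x Q l) =
            ∑ k ∈ Finset.range (2 * K + 1), 2 * (((k + K : ℕ) : ℝ≥0∞) * nn γ x Q (k + K)) := by
          have h5 : (Finset.range (3 * K + 1)).filter (fun l => K ≤ l) =
              (Finset.range (2 * K + 1)).map (addRightEmbedding K) := by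
            ext l
            simp only [Finset.mem_filter, Finset.mem_range, Finset.mem_map,
              addRightEmbedding_apply]
            constructor
            · intro hl
              exact ⟨l - K, by omega, by omega⟩
            · rintro ⟨k, hk, rfl⟩
              omega
          rw [h5, Finset.sum_map]
          rfl
        rw [h4]
        exact ENNReal.sum_le_tsum _

end Pool.Agent.TPG
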