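import Pool.Agent.Lib_helper74.MG.Beyond
import Pool.Agent.TPG.Est3

/-!
# Mass gap of pairs of strands, X: beyond the critical point (fork of Lib_helper74/MG with a lateral force)
-/

set_option autoImplicit false

namespace Pool.Agent.TPG

open Pool.Agent.MG Pool.Agent.Lib27 Pool.Agent.SapR Filter Topology
open scoped ENNReal

variable {γ : ℝ}

theorem exists_height {x Q Q₁ : ℝ≥0∞} (hc : chi γ x ≠ ∞) (hQ : Q < Q₁) (hQ₁ : Q₁ ≠ ∞) :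
    ∃ H : ℕ, 0 < H ∧ chi γ x * Q ^ H < Q₁ ^ H := by
  have hQ₁0 : Q₁ ≠ 0 := (zero_le.trans_lt hQ).ne'
  have hR : Q * Q₁⁻¹ < 1 := by
    rw [← ENNReal.mul_inv_cancel hQ₁0 hQ₁]
    exact (ENNReal.mul_lt_mul_iff_left (ENNReal.inv_ne_zero.2 hQ₁)
      (ENNReal.inv_ne_top.2 hQ₁0)).2 hQ
  have h1 := ENNReal.Tendsto.const_mul (a := chi γ x) (pow_tendsto hR) (Or.inr hc)
  rw [mul_zero] at h1
  obtain ⟨H, h2, h3⟩ := ((h1.eventually (gt_mem_nhds one_pos)).and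
    (eventually_gt_atTop 0)).exists
  refine ⟨H, h3, ?_⟩
  have h4 : Q₁ ^ H ≠ 0 := pow_ne_zero _ hQ₁0
  have h5 : Q₁ ^ H ≠ ∞ := ENNReal.pow_ne_top hQ₁
  have h6 := (ENNReal.mul_lt_mul_iff_left h4 h5).2 h2
  rw [one_mul] at h6
  refine lt_of_le_of_lt (le_of_eq ?_) h6
  rw [mul_pow, mul_assoc, mul_assoc, mul_comm (Q₁⁻¹ ^ H), pow_mul_inv_pow hQ₁0 hQ₁, mul_one]

/-- right of the critical point the bridges still decay at a rate close to the critical one -/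
theorem exists_beyond {x x₂ Q Q₁ : ℝ≥0∞} (h : CrE γ x Q) (hQ : Q < Q₁) (hQ₁ : Q₁ < 1)
    (hx : x < x₂) (hc : chi γ x₂ ≠ ∞) :
    ∃ x₁ C : ℝ≥0∞, x < x₁ ∧ x₁ ≤ x₂ ∧ C ≠ ∞ ∧ ∀ d : ℕ, gw γ x₁ (Bri d) ≤ C * Q₁ ^ d := by
  have hQ₁t : Q₁ ≠ ∞ := (hQ₁.trans ENNReal.one_lt_top).ne
  have hQ₁0 : Q₁ ≠ 0 := (zero_le.trans_lt hQ).ne'
  obtain ⟨H, hH, h1⟩ := exists_height h.chi_fin hQ hQ₁t
  have h3 : ∀ y : ℝ≥0∞, chi γ y * gw γ y (Bri H) =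
      ∑' p : (SW ×ˢ Bri H : Set (Wd × Wd)), (tl γ (p : Wd × Wd).1 * tl γ (p : Wd × Wd).2) *
        y ^ ((p : Wd × Wd).1.length + (p : Wd × Wd).2.length) := by
    intro y
    rw [chi, ← gp_prod, gp_eq]
  have h2 : ∑' p : (SW ×ˢ Bri H : Set (Wd × Wd)), (tl γ (p : Wd × Wd).1 * tl γ (p : Wd × Wd).2) *
        x ^ ((p : Wd × Wd).1.length + (p : Wd × Wd).2.length) < Q₁ ^ H := by
    rw [← h3]
    exact (mul_le_mul_right (h.upper H) _).trans_lt h1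
  have h4 : ∑' p : (SW ×ˢ Bri H : Set (Wd × Wd)), (tl γ (p : Wd × Wd).1 * tl γ (p : Wd × Wd).2) *
        x₂ ^ ((p : Wd × Wd).1.length + (p : Wd × Wd).2.length) ≠ ∞ := by
    rw [← h3]
    exact ENNReal.mul_ne_top hc (ne_top_of_le_ne_top hc (gw_le_chi x₂ (Bri_sub_SW H)))
  obtain ⟨x₁, h5, h6, h7⟩ := tsum_pow_right _ _ hx h4 h2
  have h8 : chi γ x₁ * gw γ x₁ (Bri H) ≤ Q₁ ^ H := by
    rw [h3]
    exact h7.le
  have hc1 : chi γ x₁ ≠ ∞ := ne_top_of_le_ne_top hc (gw_mono_x h6 SW)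
  have hinv : Q₁⁻¹ ≠ ∞ := ENNReal.inv_ne_top.2 hQ₁0
  have hinv1 : 1 ≤ Q₁⁻¹ := ENNReal.one_le_inv.2 hQ₁.le
  refine ⟨x₁, chi γ x₁ * Q₁⁻¹ ^ H, h5, h6, ENNReal.mul_ne_top hc1 (ENNReal.pow_ne_top hinv), ?_⟩
  intro d
  obtain ⟨k, r, hr, rfl⟩ : ∃ k r, r < H ∧ d = k * H + r :=
    ⟨d / H, d % H, Nat.mod_lt _ hH, by rw [mul_comm]; exact (Nat.div_add_mod d H).symm⟩
  have hkey : chi γ x₁ * (Q₁ ^ H) ^ k ≤ chi γ x₁ * Q₁⁻¹ ^ H * Q₁ ^ (k * H + r) := by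
    calc chi γ x₁ * (Q₁ ^ H) ^ k = chi γ x₁ * (Q₁ ^ H) ^ k * 1 := by rw [mul_one]
      _ ≤ chi γ x₁ * (Q₁ ^ H) ^ k * (Q₁⁻¹ ^ H * Q₁ ^ r) := by
          gcongr
          obtain ⟨j, rfl⟩ : ∃ j, H = r + j := ⟨H - r, by omega⟩
          calc (1 : ℝ≥0∞) = Q₁ ^ r * Q₁⁻¹ ^ r := (pow_mul_inv_pow hQ₁0 hQ₁t r).symm
            _ ≤ Q₁ ^ r * Q₁⁻¹ ^ r * Q₁⁻¹ ^ j := le_mul_of_one_le_right' (one_le_pow₀ hinv1)
            _ = _ := by rw [pow_add]; ring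
      _ = _ := by rw [pow_add Q₁, mul_comm k H, pow_mul]; ring
  refine le_trans ?_ hkey
  rcases Nat.eq_zero_or_pos k with rfl | hk
  · simp only [zero_mul, zero_add, pow_zero, mul_one]
    exact gw_le_chi x₁ (Bri_sub_SW r)
  · obtain ⟨k', rfl⟩ : ∃ k', k = k' + 1 := ⟨k - 1, by omega⟩
    calc gw γ x₁ (Bri ((k' + 1) * H + r))
        ≤ chi γ x₁ * (gw γ x₁ (Bri ((k' + 1) * H)) * gw γ x₁ (Bri r)) := gw_Bri_add_le x₁ _ _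
      _ = (chi γ x₁ * gw γ x₁ (Bri ((k' + 1) * H))) * gw γ x₁ (Bri r) := by ring
      _ ≤ (chi γ x₁ * gw γ x₁ (Bri H)) ^ (k' + 1) * chi γ x₁ := by
          gcongr
          · exact chi_Bri_pow_le x₁ H k'
          · exact gw_le_chi x₁ (Bri_sub_SW r)
      _ ≤ (Q₁ ^ H) ^ (k' + 1) * chi γ x₁ := by gcongr
      _ = _ := mul_comm _ _

/-- sum over all words ending at level `m`, the loops being paid -/
theorem sum_Tp_le {x C Q Y : ℝ≥0∞} (hQ0 : Q ≠ 0) (hQ : Q < 1)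
    (hb : ∀ d : ℕ, gw γ x (Bri d) ≤ C * Q ^ d) {K : ℕ} (hY : Y ≤ Q⁻¹ ^ (3 * K)) (m : ℕ) :
    ∑' t : Tp m, wt γ x (t : Wd) * Y ^ cc K (t : Wd) ≤
      chi γ x ^ 4 * C ^ 2 * Q⁻¹ ^ (2 * K) * (1 - Q)⁻¹ := by
  have hQt : Q ≠ ∞ := (hQ.trans ENNReal.one_lt_top).ne
  have hQi : 1 ≤ Q⁻¹ := ENNReal.one_le_inv.2 hQ.le
  calc ∑' t : Tp m, wt γ x (t : Wd) * Y ^ cc K (t : Wd)
      ≤ ∑' t : {s | s ∈ Tp m ∧ 0 ≤ dip s}, wt γ x (t : Wd) * Q⁻¹ ^ (dip (t : Wd) + 2 * K) := by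
        refine tsum_le_of_inj (fun t : Wd => wt γ x t * Y ^ cc K t)
          (fun t : Wd => wt γ x t * Q⁻¹ ^ (dip t + 2 * K)) (fun s => s)
          (fun s hs => ⟨hs, Nat.zero_le _⟩) (Set.injOn_id _) ?_
        intro s hs
        refine mul_le_mul_right ?_ _
        calc Y ^ cc K s ≤ (Q⁻¹ ^ (3 * K)) ^ cc K s := by gcongr
          _ = Q⁻¹ ^ (3 * K * cc K s) := by rw [← pow_mul]
          _ ≤ _ := pow_le_pow_right₀ hQi (cc_mul_le K s)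
    _ ≤ ∑' d : ℕ, chi γ x ^ 4 * (gw γ x (Bri (d + 0)) * gw γ x (Bri (m + (d + 0)))) *
          Q⁻¹ ^ (d + 0 + 2 * K) := tsum_dip_le x (fun d => Q⁻¹ ^ (d + 2 * K)) m 0
    _ ≤ ∑' d : ℕ, chi γ x ^ 4 * C ^ 2 * Q⁻¹ ^ (2 * K) * Q ^ d := by
        refine ENNReal.tsum_le_tsum fun d => ?_
        rw [add_zero]
        calc _ ≤ chi γ x ^ 4 * ((C * Q ^ d) * (C * Q ^ (m + d))) * Q⁻¹ ^ (d + 2 * K) := by
              gcongr
              · exact hb _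
              · exact hb _
          _ = chi γ x ^ 4 * C ^ 2 * Q⁻¹ ^ (2 * K) * Q ^ d * Q ^ m * (Q ^ d * Q⁻¹ ^ d) := by
              rw [pow_add, pow_add]; ring
          _ = chi γ x ^ 4 * C ^ 2 * Q⁻¹ ^ (2 * K) * Q ^ d * Q ^ m := by
              rw [pow_mul_inv_pow hQ0 hQt, mul_one]
          _ ≤ _ := by
              refine mul_le_of_le_one_right' (pow_le_one₀ zero_le hQ.le)
    _ = _ := by rw [ENNReal.tsum_mul_left, ENNReal.tsum_geometric]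

theorem theta_le_sq (x Y : ℝ≥0∞) (hY : 1 ≤ Y) (K : ℕ) :
    theta γ x Y K ≤ (∑' t : Tp (3 * K), wt γ x (t : Wd) * Y ^ cc K (t : Wd)) ^ 2 := by
  classical
  have h0 : theta γ x Y K = ∑' p : Wd × Wd, (Fpp (3 * K)).indicator (thw γ x Y K) p :=
    tsum_subtype (Fpp (3 * K)) (thw γ x Y K)
  have hYi : Y⁻¹ ≤ 1 := ENNReal.inv_le_one.2 hY
  rw [h0, sq, ← tsum_prod_set (Tp (3 * K)) (Tp (3 * K)) (fun s => wt γ x s * Y ^ cc K s)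
    (fun s => wt γ x s * Y ^ cc K s)]
  refine ENNReal.tsum_le_tsum fun p => Set.indicator_apply_le fun hp => ?_
  rw [Set.indicator_of_mem (show p ∈ Tp (3 * K) ×ˢ Tp (3 * K) from
    ⟨Fp_sub_Tp _ hp.1, Fp_sub_Tp _ hp.2⟩)]
  unfold thw
  have hif : (if SB K p then 1 else Y⁻¹) ≤ (1 : ℝ≥0∞) := by
    split_ifs
    · exact le_rfl
    · exact hYi
  calc _ ≤ wt2 γ x p * (Y ^ (cc K p.1 + cc K p.2) * 1) := by gcongr
    _ = _ := by rw [pow_add, wt2]; ring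

open Classical in
theorem theta_right {x x₁ Y τ : ℝ≥0∞} {K : ℕ} (hx : x < x₁) (h1 : theta γ x₁ Y K ≠ ∞)
    (h2 : theta γ x Y K < τ) : ∃ x', x < x' ∧ x' ≤ x₁ ∧ theta γ x' Y K < τ := by
  have h : ∀ z : ℝ≥0∞, theta γ z Y K = ∑' p : Fpp (3 * K),
      (Y ^ (cc K (p : Wd × Wd).1 + cc K (p : Wd × Wd).2) *
        (if SB K (p : Wd × Wd) then 1 else Y⁻¹) *
        (tl γ (p : Wd × Wd).1 * tl γ (p : Wd × Wd).2)) *
        z ^ ((p : Wd × Wd).1.length + (p : Wd × Wd).2.length) := by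
    intro z
    unfold theta thw
    congr 1
    funext p
    rw [wt2_eq]
    ring
  rw [h] at h1 h2
  obtain ⟨x', h3, h4, h5⟩ := tsum_pow_right _ _ hx h1 h2
  exact ⟨x', h3, h4, by rw [h]; exact h5⟩

/-! ### pairs without common cut -/

theorem gp_NCS_le {x Y : ℝ≥0∞} (hY : 1 ≤ Y) (hYt : Y ≠ ∞) {K : ℕ} (hK : 0 < K) (k m : ℕ) :
    gp γ x (NCS (k * (3 * K) + m)) ≤
      (∑' t : Tp m, wt γ x (t : Wd) * Y ^ cc K (t : Wd)) ^ 2 * theta γ x Y K ^ k := by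
  have h1 : gp γ x (NCS (k * (3 * K) + m)) ≤ ∑' q : (Tp m ×ˢ Tp m : Set (Wd × Wd)),
      wt2 γ x (q : Wd × Wd) *
        gp γ x (Bad K k (max 0 (max (cc K (q : Wd × Wd).1) (cc K (q : Wd × Wd).2)))) := by
    apply gp_dep (B := fun q => Bad K k (max 0 (max (cc K q.1) (cc K q.2))))
    rintro ⟨a, b⟩ ⟨ha, hb, hno⟩
    simp only at ha hb hno
    obtain ⟨v, s, hv, hs, rfl⟩ := Tp_cut ha
    obtain ⟨v', s', hv', hs', rfl⟩ := Tp_cut hb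
    refine ⟨(s, s'), (v, v'), ⟨hs, hs'⟩, ?_, rfl⟩
    refine bad_of_cut hK hv hv' ?_
    intro j hj l hl1 hl2
    have h3 : (j + 1) * (3 * K) ≤ k * (3 * K) := Nat.mul_le_mul_right _ (by omega)
    have h4 : (j + 1) * (3 * K) = j * (3 * K) + 3 * K := by ring
    refine hno l (by omega) ?_
    have h5 : ((j * (3 * K) + 2 * K : ℕ) : ℤ) < ((k * (3 * K) + m : ℕ) : ℤ) := by
      have : j * (3 * K) + 2 * K < k * (3 * K) + m := by omega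
      exact_mod_cast this
    omega
  refine h1.trans ?_
  calc ∑' q : (Tp m ×ˢ Tp m : Set (Wd × Wd)),
      wt2 γ x (q : Wd × Wd) *
        gp γ x (Bad K k (max 0 (max (cc K (q : Wd × Wd).1) (cc K (q : Wd × Wd).2))))
      ≤ ∑' q : (Tp m ×ˢ Tp m : Set (Wd × Wd)),
        ((wt γ x (q : Wd × Wd).1 * Y ^ cc K (q : Wd × Wd).1) *
          (wt γ x (q : Wd × Wd).2 * Y ^ cc K (q : Wd × Wd).2)) * theta γ x Y K ^ k := by
        refine ENNReal.tsum_le_tsum fun q => ?_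
        calc _ ≤ wt2 γ x (q : Wd × Wd) *
              (Y ^ (cc K (q : Wd × Wd).1 + cc K (q : Wd × Wd).2) * theta γ x Y K ^ k) := by
              refine mul_le_mul_right ((gp_Bad_le hY hYt hK k _).trans ?_) _
              refine mul_le_mul_left (pow_le_pow_right₀ hY ?_) _
              omega
          _ = _ := by rw [pow_add, wt2]; ring
    _ = _ := by
        rw [ENNReal.tsum_mul_right, sq,
          ← tsum_prod_set (Tp m) (Tp m) (fun s => wt γ x s * Y ^ cc K s)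
            (fun s => wt γ x s * Y ^ cc K s)]
        congr 1
        exact tsum_subtype (Tp m ×ˢ Tp m : Set (Wd × Wd))
          (fun q : Wd × Wd => (wt γ x q.1 * Y ^ cc K q.1) * (wt γ x q.2 * Y ^ cc K q.2))

/-- the mass gap -/
theorem gap {x x₂ Q : ℝ≥0∞} (h : CrE γ x Q) (hx : x < x₂) (hc : chi γ x₂ ≠ ∞) :
    ∃ (x' D θ : ℝ≥0∞) (K : ℕ), 0 < K ∧ x < x' ∧ x' ≤ x₂ ∧ D ≠ ∞ ∧ θ ≤ Q ^ (6 * K) * (3 / 4) ∧
      ∀ k m : ℕ, gp γ x' (NCS (k * (3 * K) + m)) ≤ D * θ ^ k := by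
  obtain ⟨Q₁, hQ, hQ₁⟩ := exists_between h.q_lt
  have hQ₁t : Q₁ ≠ ∞ := (hQ₁.trans ENNReal.one_lt_top).ne
  have hQ₁0 : Q₁ ≠ 0 := (zero_le.trans_lt hQ).ne'
  obtain ⟨K, hK, hY, hth⟩ := exists_block h hQ₁
  obtain ⟨x₁, C, hx₁, hx₁₂, hC, hb⟩ := exists_beyond h hQ hQ₁ hx hc
  set Y := Yc γ x with hYd
  have hY1 : 1 ≤ Y := one_le_Yc x
  have hYt : Y ≠ ∞ := Yc_ne_top h.chi_fin
  have hc₁ : chi γ x₁ ≠ ∞ := ne_top_of_le_ne_top hc (gw_mono_x hx₁₂ SW)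
  set D₁ : ℝ≥0∞ := chi γ x₁ ^ 4 * C ^ 2 * Q₁⁻¹ ^ (2 * K) * (1 - Q₁)⁻¹ with hD₁
  have hD₁t : D₁ ≠ ∞ := by
    refine ENNReal.mul_ne_top (ENNReal.mul_ne_top (ENNReal.mul_ne_top (ENNReal.pow_ne_top hc₁)
      (ENNReal.pow_ne_top hC)) (ENNReal.pow_ne_top (ENNReal.inv_ne_top.2 hQ₁0))) ?_
    exact ENNReal.inv_ne_top.2 (tsub_pos_of_lt hQ₁).ne'
  have hsum : ∀ m, ∑' t : Tp m, wt γ x₁ (t : Wd) * Y ^ cc K (t : Wd) ≤ D₁ :=
    sum_Tp_le hQ₁0 hQ₁ hb hY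
  have hth₁ : theta γ x₁ Y K ≠ ∞ := by
    refine ne_top_of_le_ne_top ?_ (theta_le_sq x₁ Y hY1 K)
    exact ENNReal.pow_ne_top (ne_top_of_le_ne_top hD₁t (hsum _))
  have hlt : theta γ x Y K < Q ^ (6 * K) * (3 / 4) := by
    refine hth.trans_lt ?_
    refine (ENNReal.mul_lt_mul_iff_right (pow_ne_zero _ h.q_pos)
      (ENNReal.pow_ne_top h.q_top)).2 ?_
    have e1 : (2⁻¹ : ℝ≥0∞) = ENNReal.ofReal (1 / 2) := by
      rw [one_div, ENNReal.ofReal_inv_of_pos (by norm_num)]; simp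
    have e2 : (3 / 4 : ℝ≥0∞) = ENNReal.ofReal (3 / 4) := by
      rw [ENNReal.ofReal_div_of_pos (by norm_num)]; simp
    rw [e1, e2]
    exact (ENNReal.ofReal_lt_ofReal_iff (by norm_num)).2 (by norm_num)
  obtain ⟨x', hx', hx'₁, hth'⟩ := theta_right hx₁ hth₁ hlt
  refine ⟨x', D₁ ^ 2, theta γ x' Y K, K, hK, hx', hx'₁.trans hx₁₂, ENNReal.pow_ne_top hD₁t,
    hth'.le, ?_⟩
  intro k m
  refine (gp_NCS_le hY1 hYt hK k m).trans ?_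
  gcongr
  refine le_trans ?_ (hsum m)
  exact ENNReal.tsum_le_tsum fun t => mul_le_mul' (wt_mono γ hx'₁ _) le_rfl

end Pool.Agent.TPG
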