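import Pool.Agent.TPG.Final
import Pool.Agent.TPT.HGM

/-!
# Mass gap of pairs of strands under a lateral force: embeddings in the pairs without common cut
-/

set_option autoImplicit false

namespace Pool.Agent.TPG

open Pool.Agent.MG Pool.Agent.Lib27 Pool.Agent.SapR Finset
open Pool.Agent.TPT (lat kap mlev mlat MArch MCap)
open Pool.Agent.FL (hl htn)
open scoped ENNReal

variable {γ : ℝ}

/-- general embedding -/
theorem emb_gen {α : Type*} (A : Set α) (φ : α → ℕ × (Wd × Wd))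
    (hmem : ∀ a ∈ A, (φ a).2 ∈ NCS (φ a).1) (hinj : Set.InjOn φ A) (x S : ℝ≥0∞) :
    ∑' a : A, wt2 γ x (φ a).2 * S ^ (φ a).1 ≤ ∑' H : ℕ, S ^ H * gp γ x (NCS H) := by
  have hR : ∑' H : ℕ, S ^ H * gp γ x (NCS H) =
      ∑' t : {t : ℕ × (Wd × Wd) | t.2 ∈ NCS t.1}, wt2 γ x (t : ℕ × (Wd × Wd)).2 *
        S ^ (t : ℕ × (Wd × Wd)).1 := by
    rw [tsum_subtype {t : ℕ × (Wd × Wd) | t.2 ∈ NCS t.1}
      (fun t : ℕ × (Wd × Wd) => wt2 γ x t.2 * S ^ t.1)]
    refine Eq.trans ?_ (ENNReal.tsum_prod (f := fun (j : ℕ) (q : Wd × Wd) =>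
      {t : ℕ × (Wd × Wd) | t.2 ∈ NCS t.1}.indicator
        (fun t => wt2 γ x t.2 * S ^ t.1) (j, q))).symm
    congr 1
    funext j
    rw [gp_indicator, mul_comm, ← ENNReal.tsum_mul_right]
    congr 1
    funext q
    by_cases hq : q ∈ NCS j
    · rw [Set.indicator_of_mem hq, Set.indicator_of_mem (show (j, q) ∈
        {t : ℕ × (Wd × Wd) | t.2 ∈ NCS t.1} from hq)]
    · rw [Set.indicator_of_notMem hq, Set.indicator_of_notMem (show (j, q) ∉
        {t : ℕ × (Wd × Wd) | t.2 ∈ NCS t.1} from hq), zero_mul]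
  rw [hR]
  exact tsum_le_of_inj (fun a : α => wt2 γ x (φ a).2 * S ^ (φ a).1)
    (fun t : ℕ × (Wd × Wd) => wt2 γ x t.2 * S ^ t.1) φ hmem hinj fun _ _ => le_rfl

theorem Irr_sub_NCS (H : ℕ) : Irr H ⊆ NCS H := by
  rintro p ⟨⟨h1, h2⟩, h3⟩
  exact ⟨⟨h1.1, h1.2.1⟩, ⟨h2.1, h2.2.1⟩, h3⟩

/-- the free pieces -/
theorem emb_piece (x S : ℝ≥0∞) :
    ∑' p : {p : Wd × Wd | FreePiece p.1 p.2}, wt2 γ x ((p : Wd × Wd).1, rv (p : Wd × Wd).2) *
      S ^ htn (p : Wd × Wd) ≤ ∑' H : ℕ, S ^ H * gp γ x (NCS H) := by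
  refine emb_gen (γ := γ) {p : Wd × Wd | FreePiece p.1 p.2} (fun p => (htn p, (p.1, rv p.2)))
    ?_ ?_ x S
  · intro p hp
    have hp' : FreePiece p.1 p.2 := hp
    have h1 := hp'.1.1
    have h2 : htn p = (htn p - 1) + 1 := by
      unfold htn ht
      omega
    apply Irr_sub_NCS
    simp only
    rw [h2]
    refine free_iff.2 ⟨hp, ?_⟩
    unfold htn ht
    omega
  · intro p _ q _ h
    have h1 : p.1 = q.1 := congrArg (fun t => t.2.1) h
    have h2 : rv p.2 = rv q.2 := congrArg (fun t => t.2.2) h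
    exact Prod.ext h1 (rv_injective h2)

/-! ### pairs from words with a mark -/

/-- the two strands from the ends of a word to its mark -/
def cutw (a : Wd × ℕ) : Wd × Wd := (a.1.take a.2, rv (a.1.drop a.2))

theorem cutw_inj {a b : Wd × ℕ} (ha : a.2 ≤ a.1.length) (hb : b.2 ≤ b.1.length)
    (h : cutw a = cutw b) : a = b := by
  have h1 : a.1.take a.2 = b.1.take b.2 := congrArg Prod.fst h
  have h2 : a.1.drop a.2 = b.1.drop b.2 := rv_injective (congrArg Prod.snd h)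
  have h3 : a.1 = b.1 := by
    rw [← List.take_append_drop a.2 a.1, ← List.take_append_drop b.2 b.1, h1, h2]
  have h4 := congrArg List.length h1
  rw [List.length_take, List.length_take] at h4
  exact Prod.ext h3 (by omega)

theorem lev_parts (a : Wd × ℕ) (h0 : lev (ep 0 a.1) = 0) :
    lev (ep 0 (rv (a.1.drop a.2))) = lev (ep 0 (a.1.take a.2)) := by
  have h1 := lev_ep_append (a.1.take a.2) (a.1.drop a.2)
  rw [List.take_append_drop, h0] at h1
  rw [lev_ep_rv]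
  omega

/-- number of visits of a level by a marked word, in terms of the two strands -/
theorem cnt_cutw (a : Wd × ℕ) (h0 : lev (ep 0 a.1) = 0) {k : ℤ}
    (hk : k ≠ lev (ep 0 (a.1.take a.2))) :
    cnt (vt 0 a.1) k = cnt (vt 0 (cutw a).1) k + cnt (vt 0 (cutw a).2) k := by
  have h1 : cnt (vt 0 a.1) k = cnt (vt 0 (a.1.take a.2 ++ a.1.drop a.2)) k := by
    rw [List.take_append_drop]
  have h2 := lev_ep_append (a.1.take a.2) (a.1.drop a.2)
  rw [List.take_append_drop, h0] at h2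
  rw [h1, cnt_vt_append]
  unfold cutw
  simp only
  rw [cnt_vt (a.1.take a.2), if_neg (Ne.symm hk), add_zero, cnt_rv]
  congr 2
  omega

/-- a strand from level `0` to level `H` visits all levels between -/
theorem visit {w : Wd} {H k : ℤ} (hw : lev (ep 0 w) = H) (h0 : 0 ≤ k) (hk : k ≤ H) :
    0 < cnt (vt 0 w) k := by
  obtain ⟨u, v, rfl, h1, -⟩ := first_visit (w := w) (h := k) h0
    ⟨ep 0 w, ep_mem_vt _ _, by rw [hw]; exact hk⟩
  refine (cnt_pos _ _).2 ⟨ep 0 u, ?_, h1⟩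
  have := mem_vt_append_right u (mem_vt_self 0 v)
  rwa [zero_add] at this

theorem two_mul_mlat (x : ℤ) (a : Wd × ℕ) (h0 : ep 0 a.1 = (-x, x)) :
    lt (a.1.take a.2) + lt (rv (a.1.drop a.2)) = 2 * mlat x a := by
  have h1 := lt_append (a.1.take a.2) (a.1.drop a.2)
  rw [List.take_append_drop] at h1
  have h2 : lt a.1 = -x - x := by
    unfold lt
    rw [h0]
  rw [lt_rv]
  unfold mlat lat
  have h3 : lt (a.1.take a.2) = (ep 0 (a.1.take a.2)).1 - (ep 0 (a.1.take a.2)).2 := rfl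
  rw [h3] at h1 ⊢
  omega

/-- marked caps of all gaps and lengths -/
def MC : Set (Wd × ℕ) := {a | ∃ (x : ℤ) (N : ℕ), a ∈ MCap x N}

theorem mem_MCap {x : ℤ} {N : ℕ} {a : Wd × ℕ} : a ∈ MCap x N ↔
    a ∈ MArch x N ∧ ∀ h : ℤ, 1 ≤ h → h < mlev a → ¬ Cut (vt 0 a.1) h := by
  classical
  unfold MCap
  rw [mem_filter]

theorem mc_mem {x : ℤ} {N : ℕ} {a : Wd × ℕ} (ha : a ∈ MCap x N) : cutw a ∈ NCS (mlev a) := by
  rw [mem_MCap] at ha
  obtain ⟨ha1, ha2⟩ := ha
  have hm := TPT.HGM.marked ha1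
  rw [TPT.HGM.mem_MArch] at ha1
  obtain ⟨hN, hj, hA, hj0⟩ := ha1
  have hsaw : SAWs (a.1.take a.2 ++ a.1.drop a.2) := by
    rw [List.take_append_drop]
    exact hA.2.2.1
  have h0 : lev (ep 0 a.1) = 0 := by
    rw [hA.2.1]
    simp [lev]
  have hlev : ((mlev a : ℕ) : ℤ) = lev (ep 0 (a.1.take a.2)) := by
    unfold mlev
    exact Int.toNat_of_nonneg hm.1.le
  refine ⟨⟨SAWs_left hsaw, hlev.symm⟩, ⟨SAWs_rv (SAWs_right hsaw), ?_⟩, ?_⟩
  · show lev (ep 0 (rv (a.1.drop a.2))) = _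
    rw [lev_parts a h0, hlev]
  · intro k hk hk' hcc
    refine ha2 k (by omega) hk' ⟨?_, ?_, ?_⟩
    · rw [cnt_cutw a h0 (by omega), hcc.1, hcc.2]
    · rw [cnt_cutw a h0 (by omega)]
      have := visit (w := (cutw a).1) (H := mlev a) (k := k - 1) hlev.symm (by omega) (by omega)
      omega
    · rcases eq_or_ne (k + 1) (lev (ep 0 (a.1.take a.2))) with h5 | h5
      · rw [h5]
        refine (cnt_pos _ _).2 ⟨ep 0 (a.1.take a.2), ?_, rfl⟩
        have h6 := mem_vt_append_left (a.1.drop a.2) (ep_mem_vt 0 (a.1.take a.2))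
        rwa [List.take_append_drop] at h6
      · rw [cnt_cutw a h0 h5]
        have := visit (w := (cutw a).1) (H := mlev a) (k := k + 1) hlev.symm (by omega) (by omega)
        omega

/-- the marked caps -/
theorem emb_cap (x S : ℝ≥0∞) :
    ∑' a : MC, wt2 γ x (cutw a) * S ^ mlev (a : Wd × ℕ) ≤ ∑' H : ℕ, S ^ H * gp γ x (NCS H) := by
  refine emb_gen (γ := γ) MC (fun a => (mlev a, cutw a)) ?_ ?_ x S
  · rintro a ⟨y, N, ha⟩
    exact mc_mem ha
  · rintro a ⟨y, N, ha⟩ b ⟨y', N', hb⟩ h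
    rw [mem_MCap, TPT.HGM.mem_MArch] at ha hb
    exact cutw_inj (by omega) (by omega) (congrArg Prod.snd h)

/-! ### polygon words with a marked vertex -/

/-- polygon words with a marked vertex at a nonnegative level, without two-vertex level strictly
between the level of the origin and that of the mark -/
def PM (n : ℕ) : Set (Wd × ℕ) := {a | a.1 ∈ W n ∧ 0 < a.2 ∧ a.2 < 2 * n ∧
  0 ≤ lev (ep 0 (a.1.take a.2)) ∧
  ∀ h : ℤ, 0 < h → h < lev (ep 0 (a.1.take a.2)) → cnt (vs 0 a.1) h ≠ 2}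

/-- polygon words with a marked vertex different from the origin -/
def PN (n : ℕ) : Set (Wd × ℕ) := {a | a.1 ∈ W n ∧ 0 < a.2 ∧ a.2 < 2 * n}

theorem parts_saw {n : ℕ} {a : Wd × ℕ} (ha : a ∈ PN n) :
    SAWs (a.1.take a.2) ∧ SAWs (a.1.drop a.2) ∧ ep 0 a.1 = 0 := by
  obtain ⟨hW, h0, hj⟩ := ha
  rw [mem_W] at hW
  obtain ⟨hl, hc, hn⟩ := hW
  have hd : a.1.drop a.2 ≠ [] := by
    intro h
    have := congrArg List.length h
    rw [List.length_drop, List.length_nil] at this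
    omega
  have ht : a.1.take a.2 ≠ [] := by
    intro h
    have := congrArg List.length h
    rw [List.length_take, List.length_nil] at this
    omega
  have hv : vs 0 a.1 = vs 0 (a.1.take a.2) ++ vs (ep 0 (a.1.take a.2)) (a.1.drop a.2) := by
    rw [← vs_append, List.take_append_drop]
  rw [hv] at hn
  have hn' := List.nodup_append'.1 hn
  refine ⟨?_, ?_, hc⟩
  · unfold SAWs vt
    rw [vs_eq_cons _ _ hd] at hn
    have : (vs 0 (a.1.take a.2) ++ [ep 0 (a.1.take a.2)]) ++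
        (vs (ep 0 (a.1.take a.2)) (a.1.drop a.2)).tail =
        vs 0 (a.1.take a.2) ++ (ep 0 (a.1.take a.2) ::
        (vs (ep 0 (a.1.take a.2)) (a.1.drop a.2)).tail) := by simp
    rw [← this] at hn
    exact hn.of_append_left
  · unfold SAWs
    rw [← nodup_vt (ep 0 (a.1.take a.2))]
    unfold vt
    rw [← ep_append, List.take_append_drop, hc]
    rw [List.nodup_append']
    refine ⟨hn'.2.1, by simp, ?_⟩
    intro p hp hp'
    rw [List.mem_singleton] at hp'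
    subst hp'
    refine hn'.2.2 ?_ hp
    rw [vs_eq_cons _ _ ht]
    exact List.mem_cons_self

theorem pm_mem {n : ℕ} {a : Wd × ℕ} (ha : a ∈ PM n) :
    cutw a ∈ NCS (lev (ep 0 (a.1.take a.2))).toNat := by
  obtain ⟨hW, hj0, hj, hl0, hno⟩ := ha
  obtain ⟨h1, h2, h3⟩ := parts_saw (n := n) (a := a) ⟨hW, hj0, hj⟩
  have h0 : lev (ep 0 a.1) = 0 := by
    rw [h3]
    simp
  have hlev : (((lev (ep 0 (a.1.take a.2))).toNat : ℕ) : ℤ) = lev (ep 0 (a.1.take a.2)) :=
    Int.toNat_of_nonneg hl0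
  refine ⟨⟨h1, hlev.symm⟩, ⟨SAWs_rv h2, ?_⟩, ?_⟩
  · show lev (ep 0 (rv (a.1.drop a.2))) = _
    rw [lev_parts a h0, hlev]
  · intro k hk hk' hcc
    refine hno k hk (by omega) ?_
    have h4 := cnt_cutw a h0 (k := k) (by omega)
    rw [hcc.1, hcc.2, cnt_vt, h0, if_neg (by omega), add_zero] at h4
    exact h4

/-- polygon words with a mark at a nonnegative level -/
theorem emb_pm (n : ℕ) (x S : ℝ≥0∞) :
    ∑' a : PM n, wt2 γ x (cutw a) * S ^ (lev (ep 0 ((a : Wd × ℕ).1.take (a : Wd × ℕ).2))).toNat ≤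
      ∑' H : ℕ, S ^ H * gp γ x (NCS H) := by
  refine emb_gen (γ := γ) (PM n) (fun a => ((lev (ep 0 (a.1.take a.2))).toNat, cutw a)) ?_ ?_ x S
  · intro a ha
    exact pm_mem ha
  · intro a ha b hb h
    have h1 := (mem_W _ _).1 ha.1
    have h2 := (mem_W _ _).1 hb.1
    have h3 := ha.2.2.1
    have h4 := hb.2.2.1
    exact cutw_inj (by omega) (by omega) (congrArg Prod.snd h)

/-- polygon words with a mark -/
theorem emb_pn (n : ℕ) (x : ℝ≥0∞) : ∑' a : PN n, wt2 γ x (cutw a) ≤ chi γ x ^ 2 := by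
  have h1 : ∑' a : PN n, wt2 γ x (cutw a) ≤ gp γ x (SW ×ˢ SW) := by
    refine tsum_le_of_inj (fun a : Wd × ℕ => wt2 γ x (cutw a)) (fun p => wt2 γ x p) cutw ?_ ?_
      fun _ _ => le_rfl
    · intro a ha
      obtain ⟨h1, h2, -⟩ := parts_saw ha
      exact ⟨h1, SAWs_rv h2⟩
    · intro a ha b hb h
      have h1 := (mem_W _ _).1 ha.1
      have h2 := (mem_W _ _).1 hb.1
      have h3 := ha.2.2
      have h4 := hb.2.2
      exact cutw_inj (by omega) (by omega) h
  refine h1.trans (le_of_eq ?_)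
  rw [gp_prod, sq]
  rfl

end Pool.Agent.TPG
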