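import Pool.Agent.Lib_helper74.MG.Renew
import Pool.Agent.TPG.Est

/-!
# Mass gap of pairs of strands, XI: the renewal equation at the critical point (fork of Lib_helper74/MG with a lateral force)
-/

set_option autoImplicit false

namespace Pool.Agent.TPG

open Pool.Agent.MG Pool.Agent.Lib27 Pool.Agent.SapR Finset
open scoped ENNReal

variable {γ : ℝ}

/-! ### the renewal equation of the pairs of bridges -/

theorem gp_Brp_succ (x : ℝ≥0∞) (H : ℕ) :
    gp γ x (Brp (H + 1)) = ∑ j ∈ range (H + 1), gp γ x (Irr (j + 1)) * gp γ x (Brp (H - j)) := by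
  classical
  apply le_antisymm
  · have h1 := renewal_upper (γ := γ) x 0 1 (H + 1) (by omega) (by omega)
    have h2 : Nc 0 1 (H + 1) = Brp (H + 1) := by
      ext p
      constructor
      · exact fun h => h.1
      · intro h
        refine ⟨h, fun k h3 h4 => ?_⟩
        push_cast at h3 h4
        omega
    rw [h2] at h1
    refine h1.trans ?_
    have h3 : (range (0 + 1) ×ˢ range (H + 1 + 1)).filter
        (fun i : ℕ × ℕ => 1 ≤ i.1 + i.2 ∧ i.1 + i.2 ≤ H + 1) =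
        (range (H + 1)).map ⟨fun j => (0, j + 1), fun a b h => by simpa using h⟩ := by
      ext ⟨a, b⟩
      simp only [mem_filter, mem_product, mem_range, mem_map, Function.Embedding.coeFn_mk,
        Prod.mk.injEq]
      constructor
      · rintro ⟨⟨h1, h2⟩, h3, h4⟩
        exact ⟨b - 1, by omega, by omega, by omega⟩
      · rintro ⟨j, hj, rfl, rfl⟩
        omega
    rw [h3, Finset.sum_map]
    refine Finset.sum_le_sum fun j hj => ?_
    simp only [Function.Embedding.coeFn_mk]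
    rw [gp_Brp x 0, gw_Bri_zero, one_pow, one_mul]
    have : H + 1 - (0 + (j + 1)) = H - j := by omega
    rw [this]
  · have h1 := renewal_lower (γ := γ) x 0 (H + 1)
      ((range (H + 1)).map ⟨fun j => (0, j + 1), fun a b h => by simpa using h⟩) (by
        rintro ⟨a, b⟩ hi
        simp only [mem_map, mem_range, Function.Embedding.coeFn_mk, Prod.mk.injEq] at hi
        obtain ⟨j, hj, rfl, rfl⟩ := hi
        simp only
        omega)
    refine le_trans ?_ h1
    rw [Finset.sum_map]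
    refine Finset.sum_le_sum fun j hj => ?_
    simp only [Function.Embedding.coeFn_mk]
    rw [gp_Brp x 0, gw_Bri_zero, one_pow, one_mul]
    have : H + 1 - (0 + (j + 1)) = H - j := by omega
    rw [this]

/-- the irreducible pairs are critical -/
theorem nn_sum {x Q : ℝ≥0∞} (h : CrE γ x Q) : ∑' j : ℕ, nn γ x Q (j + 1) = 1 := by
  have hQ0 := h.q_pos
  have hQt := h.q_top
  have hc0 : chi γ x ≠ 0 := (zero_lt_one.trans_le (one_le_chi x)).ne'
  refine renewal_one (fun H => gp γ x (Brp H) * Q⁻¹ ^ (2 * H)) (fun j => nn γ x Q (j + 1)) ?_ ?_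
    (c := (chi γ x ^ 2)⁻¹) (ENNReal.inv_ne_zero.2 (ENNReal.pow_ne_top h.chi_fin)) ?_ ?_
  · rw [gp_Brp, gw_Bri_zero]
    simp
  · intro H
    rw [gp_Brp_succ, Finset.sum_mul]
    refine Finset.sum_congr rfl fun j hj => ?_
    rw [mem_range] at hj
    have : 2 * (H + 1) = 2 * (j + 1) + 2 * (H - j) := by omega
    rw [this, pow_add, nn]
    ring
  · intro H
    rw [gp_Brp, ENNReal.inv_le_iff_le_mul
      (fun _ => pow_ne_zero _ hc0) (fun h1 => absurd h1 (ENNReal.pow_ne_top h.chi_fin))]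
    calc (1 : ℝ≥0∞) = Q ^ (2 * H) * Q⁻¹ ^ (2 * H) := (pow_mul_inv_pow hQ0 hQt _).symm
      _ = (Q ^ H) ^ 2 * Q⁻¹ ^ (2 * H) := by rw [mul_comm 2 H, pow_mul Q]
      _ ≤ (chi γ x * gw γ x (Bri H)) ^ 2 * Q⁻¹ ^ (2 * H) := by
          gcongr
          exact h.lower H
      _ = _ := by ring
  · intro H
    rw [gp_Brp]
    calc gw γ x (Bri H) ^ 2 * Q⁻¹ ^ (2 * H) ≤ (Q ^ H) ^ 2 * Q⁻¹ ^ (2 * H) := by
          gcongr
          exact h.upper H
      _ = Q ^ (2 * H) * Q⁻¹ ^ (2 * H) := by rw [mul_comm 2 H, pow_mul Q]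
      _ = 1 := pow_mul_inv_pow hQ0 hQt _
      _ ≤ 1 := le_rfl

/-! ### free pieces -/

theorem free_sum (x S : ℝ≥0∞) :
    ∑' p : {p : Wd × Wd | FreePiece p.1 p.2},
      wt2 γ x ((p : Wd × Wd).1, rv (p : Wd × Wd).2) * S ^ (ht (p : Wd × Wd)).toNat =
    ∑' j : ℕ, gp γ x (Irr (j + 1)) * S ^ (j + 1) := by
  classical
  have hR : ∑' j : ℕ, gp γ x (Irr (j + 1)) * S ^ (j + 1) =
      ∑' t : ℕ × (Wd × Wd), {t : ℕ × (Wd × Wd) | t.2 ∈ Irr (t.1 + 1)}.indicator
        (fun t => wt2 γ x t.2 * S ^ (t.1 + 1)) t := by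
    refine Eq.trans ?_ (ENNReal.tsum_prod (f := fun (j : ℕ) (q : Wd × Wd) =>
      {t : ℕ × (Wd × Wd) | t.2 ∈ Irr (t.1 + 1)}.indicator
        (fun t => wt2 γ x t.2 * S ^ (t.1 + 1)) (j, q))).symm
    congr 1
    funext j
    rw [gp_indicator, ← ENNReal.tsum_mul_right]
    congr 1
    funext q
    by_cases hq : q ∈ Irr (j + 1)
    · rw [Set.indicator_of_mem hq, Set.indicator_of_mem (show (j, q) ∈
        {t : ℕ × (Wd × Wd) | t.2 ∈ Irr (t.1 + 1)} from hq)]
    · rw [Set.indicator_of_notMem hq, Set.indicator_of_notMem (show (j, q) ∉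
        {t : ℕ × (Wd × Wd) | t.2 ∈ Irr (t.1 + 1)} from hq), zero_mul]
  rw [hR, ← tsum_subtype {t : ℕ × (Wd × Wd) | t.2 ∈ Irr (t.1 + 1)}
    (fun t : ℕ × (Wd × Wd) => wt2 γ x t.2 * S ^ (t.1 + 1))]
  have hht : ∀ p : Wd × Wd, FreePiece p.1 p.2 →
      lev (ep 0 p.1) = (((ht p).toNat - 1 : ℕ) : ℤ) + 1 := by
    intro p hp
    have h1 := hp.1.1
    have h2 : ht p = lev (ep 0 p.1) := rfl
    omega
  apply le_antisymm
  · refine tsum_le_of_inj
      (fun p : Wd × Wd => wt2 γ x (p.1, rv p.2) * S ^ (ht p).toNat)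
      (fun t : ℕ × (Wd × Wd) => wt2 γ x t.2 * S ^ (t.1 + 1))
      (fun p => ((ht p).toNat - 1, (p.1, rv p.2))) ?_ ?_ ?_
    · intro p hp
      exact free_iff.2 ⟨hp, hht p hp⟩
    · intro p _ q _ hpq
      have h1 : p.1 = q.1 := congrArg (fun t => t.2.1) hpq
      have h2 : rv p.2 = rv q.2 := congrArg (fun t => t.2.2) hpq
      exact Prod.ext h1 (rv_injective h2)
    · intro p hp
      have h1 : FreePiece p.1 p.2 := hp
      have h2 := h1.1.1
      have h3 : ht p = lev (ep 0 p.1) := rfl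
      simp only
      rw [show (ht p).toNat - 1 + 1 = (ht p).toNat by omega]
  · refine tsum_le_of_inj
      (fun t : ℕ × (Wd × Wd) => wt2 γ x t.2 * S ^ (t.1 + 1))
      (fun p : Wd × Wd => wt2 γ x (p.1, rv p.2) * S ^ (ht p).toNat)
      (fun t => (t.2.1, rv t.2.2)) ?_ ?_ ?_
    · intro t ht'
      have h1 : (t.2.1, rv (rv t.2.2)) ∈ Irr (t.1 + 1) := by rw [rv_rv]; exact ht'
      exact (free_iff (p := (t.2.1, rv t.2.2))).1 h1 |>.1
    · intro t ht1 t' ht2 h
      have h' : (t.2.1, rv t.2.2) = (t'.2.1, rv t'.2.2) := h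
      have h1 : t.2.1 = t'.2.1 := (Prod.mk.inj h').1
      have h2 : t.2.2 = t'.2.2 := rv_injective (Prod.mk.inj h').2
      have h3 : lev (ep 0 t.2.1) = ((t.1 + 1 : ℕ) : ℤ) := ht1.1.1.2.1
      have h4 : lev (ep 0 t'.2.1) = ((t'.1 + 1 : ℕ) : ℤ) := ht2.1.1.2.1
      rw [h1] at h3
      have h5 : t.1 = t'.1 := by omega
      exact Prod.ext h5 (Prod.ext h1 h2)
    · intro t ht1
      have h3 : lev (ep 0 t.2.1) = ((t.1 + 1 : ℕ) : ℤ) := ht1.1.1.2.1
      have h4 : (ht (t.2.1, rv t.2.2)).toNat = t.1 + 1 := by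
        show (lev (ep 0 t.2.1)).toNat = t.1 + 1
        rw [h3]
        exact Int.toNat_natCast _
      simp only
      rw [rv_rv, h4]

/-- the free pieces are critical -/
theorem free_one {x Q S : ℝ≥0∞} (h : CrE γ x Q) (hS : S = Q⁻¹ ^ 2) :
    ∑' p : {p : Wd × Wd | FreePiece p.1 p.2},
      wt2 γ x ((p : Wd × Wd).1, rv (p : Wd × Wd).2) * S ^ (ht (p : Wd × Wd)).toNat = 1 := by
  rw [free_sum, ← nn_sum h]
  congr 1
  funext j
  rw [nn, hS, ← pow_mul]

end Pool.Agent.TPG
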