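import Pool.Agent.Lib_helper74.MG.Final
import Pool.Agent.TPG.Beyond
import Pool.Agent.TPG.Renew

/-!
# Mass gap of pairs of strands, XII: uniformity (fork of Lib_helper74/MG with a lateral force)
-/

set_option autoImplicit false

namespace Pool.Agent.TPG

open Pool.Agent.MG Pool.Agent.Lib27 Pool.Agent.SapR Filter Topology
open scoped ENNReal NNReal

variable {γ : ℝ}

/-- comparison with the critical point -/
theorem crit_compare {γ x₀ q₀ x q : ℝ} (h₀ : Crit γ x₀ q₀) (hx : 0 < x) (hq : 0 < q)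
    (hup : ∀ H : ℕ, gw γ (ENNReal.ofReal x) (Bri H) ≤ ENNReal.ofReal (q ^ H)) :
    x ≤ x₀ * max 1 (q / q₀) := by
  by_contra hcon
  push Not at hcon
  have hx₀ := h₀.x_pos
  have hq₀ := h₀.q_pos
  have h1 : x₀ < x := by
    calc x₀ = x₀ * 1 := (mul_one _).symm
      _ ≤ x₀ * max 1 (q / q₀) := by gcongr; exact le_max_left _ _
      _ < x := hcon
  have h2 : x₀ * (q / q₀) < x := by
    calc x₀ * (q / q₀) ≤ x₀ * max 1 (q / q₀) := by gcongr; exact le_max_right _ _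
      _ < x := hcon
  set t : ℝ := x₀ / x with ht
  have ht0 : 0 < t := by positivity
  have ht1 : t ≤ 1 := by rw [ht, div_le_one hx]; exact h1.le
  set R : ℝ := t * q / q₀ with hR
  have hR0 : 0 < R := by positivity
  have hR1 : R < 1 := by
    rw [hR, ht, div_mul_eq_mul_div, div_div, div_lt_one (by positivity)]
    have h3 : x₀ * (q / q₀) * q₀ < x * q₀ := by gcongr
    have h4 : x₀ * (q / q₀) * q₀ = x₀ * q := by field_simp
    linarith
  have hRE : ENNReal.ofReal R < 1 := by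
    have := (ENNReal.ofReal_lt_ofReal_iff (p := R) (q := 1) one_pos).2 hR1
    simpa using this
  have hc : chi γ (ENNReal.ofReal x₀) ≠ ∞ := (chi_finite hx₀ h₀.x_lt).ne
  have h5 := ENNReal.Tendsto.const_mul (a := chi γ (ENNReal.ofReal x₀)) (pow_tendsto hRE)
    (Or.inr hc)
  rw [mul_zero] at h5
  obtain ⟨H, hH⟩ := (h5.eventually (gt_mem_nhds one_pos)).exists
  have h6 : ENNReal.ofReal x₀ = ENNReal.ofReal x * ENNReal.ofReal t := by
    rw [← ENNReal.ofReal_mul hx.le, ht]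
    congr 1
    field_simp
  have h7 : ENNReal.ofReal (q₀ ^ H) ≤
      (chi γ (ENNReal.ofReal x₀) * ENNReal.ofReal R ^ H) * ENNReal.ofReal (q₀ ^ H) := by
    calc ENNReal.ofReal (q₀ ^ H)
        ≤ chi γ (ENNReal.ofReal x₀) * gw γ (ENNReal.ofReal x₀) (Bri H) := h₀.lower H
      _ ≤ chi γ (ENNReal.ofReal x₀) * (ENNReal.ofReal t ^ H * gw γ (ENNReal.ofReal x) (Bri H)) := by
          gcongr
          conv_lhs => rw [h6]
          exact gw_scale _ _ (by simpa using ENNReal.ofReal_le_ofReal ht1) H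
      _ ≤ chi γ (ENNReal.ofReal x₀) * (ENNReal.ofReal t ^ H * ENNReal.ofReal (q ^ H)) := by
          gcongr
          exact hup H
      _ = _ := by
          rw [mul_assoc]
          congr 1
          rw [← ENNReal.ofReal_pow ht0.le, ← ENNReal.ofReal_pow hR0.le,
            ← ENNReal.ofReal_mul (by positivity), ← ENNReal.ofReal_mul (by positivity)]
          congr 1
          rw [← mul_pow, ← mul_pow, hR]
          congr 1
          field_simp
  have h8 : ENNReal.ofReal (q₀ ^ H) ≠ 0 := by positivity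
  have h9 := (ENNReal.mul_lt_mul_iff_left h8 ENNReal.ofReal_ne_top).2 hH
  rw [one_mul] at h9
  exact absurd h7 (not_le.2 h9)

/-- the two bounds at the weight `(1 + eta) x` -/
def Bd (C eta : ℝ≥0) (q γ x : ℝ) : Prop :=
  ∑' H : ℕ, (ENNReal.ofReal q)⁻¹ ^ (2 * H) *
    gp γ ((1 + (eta : ℝ≥0∞)) * ENNReal.ofReal x) (NCS H) ≤ C ∧
  chi γ ((1 + (eta : ℝ≥0∞)) * ENNReal.ofReal x) ≤ C

theorem Bd.mono {C C' eta eta' : ℝ≥0} {q γ x : ℝ} (h : Bd C eta q γ x) (hC : C ≤ C')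
    (he : eta' ≤ eta) : Bd C' eta' q γ x := by
  have hX : (1 + (eta' : ℝ≥0∞)) * ENNReal.ofReal x ≤ (1 + (eta : ℝ≥0∞)) * ENNReal.ofReal x := by
    gcongr
  have hC' : (C : ℝ≥0∞) ≤ C' := by exact_mod_cast hC
  refine ⟨le_trans (ENNReal.tsum_le_tsum fun H => mul_le_mul_right (gp_mono_x hX _) _)
    (h.1.trans hC'), (gw_mono_x hX SW).trans (h.2.trans hC')⟩

theorem local_gap {q₀ γ₀ : ℝ} (h0 : 0 < q₀) (h1 : q₀ < 1) : ∃ C eta : ℝ≥0, 0 < eta ∧
    ∀ᶠ p : ℝ × ℝ in 𝓝 (q₀, γ₀), ∀ x : ℝ, Crit p.2 x p.1 → Bd C eta p.1 p.2 x := by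
  obtain ⟨x₀, hx₀⟩ := exists_crit (γ := γ₀) h0 h1
  have hx0 := hx₀.x_pos
  obtain ⟨x₂, hx₂, hx₂c⟩ := exists_between hx₀.x_lt
  have hc₂ : chi γ₀ (ENNReal.ofReal x₂) ≠ ∞ := (chi_finite (hx0.trans hx₂) hx₂c).ne
  obtain ⟨x', D, θ, K, hK, hx', hx'₂, hD, hθ, hgap⟩ := gap hx₀.crE (x₂ := ENNReal.ofReal x₂)
    ((ENNReal.ofReal_lt_ofReal_iff (hx0.trans hx₂)).2 hx₂) hc₂
  have hx't : x' ≠ ∞ := ne_top_of_le_ne_top ENNReal.ofReal_ne_top hx'₂
  obtain ⟨y, hy0, rfl⟩ : ∃ y : ℝ, 0 ≤ y ∧ x' = ENNReal.ofReal y :=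
    ⟨x'.toReal, ENNReal.toReal_nonneg, (ENNReal.ofReal_toReal hx't).symm⟩
  have hy : x₀ < y := (ENNReal.ofReal_lt_ofReal_iff_of_nonneg hx0.le).1 hx'
  -- the room
  set e : ℝ := min 1 ((y - x₀) / (15 * x₀)) with he
  have he0 : 0 < e := lt_min one_pos (div_pos (by linarith) (by positivity))
  have he1 : e ≤ 1 := min_le_left _ _
  have he2 : x₀ * (1 + e) ^ 4 ≤ y := by
    have h2 : e * (15 * x₀) ≤ y - x₀ := by
      have h3 : e ≤ (y - x₀) / (15 * x₀) := min_le_right _ _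
      rwa [le_div_iff₀ (by positivity)] at h3
    have h4 : (1 + e) ^ 4 ≤ 1 + 15 * e := by
      have e2 : e ^ 2 ≤ e := by nlinarith
      have e3 : e ^ 3 ≤ e := by nlinarith [mul_nonneg he0.le he0.le]
      have e4 : e ^ 4 ≤ e := by nlinarith [mul_nonneg he0.le he0.le]
      nlinarith
    nlinarith
  -- the neighbourhood
  have hq : Filter.Tendsto (fun p : ℝ × ℝ => p.1) (𝓝 (q₀, γ₀)) (𝓝 q₀) := continuous_fst.tendsto _
  have hev1 : ∀ᶠ p : ℝ × ℝ in 𝓝 (q₀, γ₀), p.1 < q₀ * (1 + e) := by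
    refine hq.eventually (gt_mem_nhds ?_)
    nlinarith [mul_pos h0 he0]
  have hev2 : ∀ᶠ p : ℝ × ℝ in 𝓝 (q₀, γ₀), q₀ / 2 < p.1 :=
    hq.eventually (lt_mem_nhds (by linarith))
  have hev3 : ∀ᶠ p : ℝ × ℝ in 𝓝 (q₀, γ₀), (q₀ / p.1) ^ (6 * K) * (3 / 4) < 7 / 8 := by
    have hcont : ContinuousAt (fun q : ℝ => (q₀ / q) ^ (6 * K) * (3 / 4)) q₀ := by
      refine ContinuousAt.mul (ContinuousAt.pow ?_ _) continuousAt_const
      exact ContinuousAt.div continuousAt_const continuousAt_id h0.ne'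
    refine hq.eventually (hcont.eventually (gt_mem_nhds ?_))
    show (q₀ / q₀) ^ (6 * K) * (3 / 4) < 7 / 8
    rw [div_self h0.ne', one_pow]
    norm_num
  have hev4 : ∀ᶠ p : ℝ × ℝ in 𝓝 (q₀, γ₀), Real.exp |p.2 - γ₀| < 1 + e := by
    have hcont : Continuous fun p : ℝ × ℝ => Real.exp |p.2 - γ₀| := by fun_prop
    refine (hcont.tendsto _).eventually (gt_mem_nhds ?_)
    simp only [sub_self, abs_zero, Real.exp_zero]
    linarith
  set CE : ℝ≥0∞ := ((3 * K : ℕ) : ℝ≥0∞) * ((ENNReal.ofReal (q₀ / 2))⁻¹ ^ (6 * K) * D * 8) with hCE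
  have hCEt : CE ≠ ∞ := by
    refine ENNReal.mul_ne_top (ENNReal.natCast_ne_top _) (ENNReal.mul_ne_top
      (ENNReal.mul_ne_top (ENNReal.pow_ne_top (ENNReal.inv_ne_top.2 ?_)) hD) (by norm_num))
    have : 0 < q₀ / 2 := by positivity
    positivity
  refine ⟨max CE.toNNReal (chi γ₀ (ENNReal.ofReal x₂)).toNNReal, e.toNNReal, by simpa using he0, ?_⟩
  filter_upwards [hev1, hev2, hev3, hev4] with p hq1 hq2 hq3 hq4
  obtain ⟨q, γ⟩ := p
  simp only at hq1 hq2 hq3 hq4 ⊢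
  intro x hxq
  have hq := hxq.q_pos
  have hxp := hxq.x_pos
  set E : ℝ := Real.exp |γ - γ₀| with hE
  have hE0 : 0 < E := Real.exp_pos _
  set S : ℝ≥0∞ := (ENNReal.ofReal q)⁻¹ with hS
  have hS1 : 1 ≤ S := ENNReal.one_le_inv.2 (by
    simpa using ENNReal.ofReal_le_ofReal hxq.q_lt.le)
  have hSle : S ≤ (ENNReal.ofReal (q₀ / 2))⁻¹ :=
    ENNReal.inv_le_inv.2 (ENNReal.ofReal_le_ofReal hq2.le)
  -- the point
  have hxE : x / E ≤ x₀ * (1 + e) := by
    refine (crit_compare hx₀ (x := x / E) (q := q) (by positivity) hq ?_).trans ?_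
    · intro H
      refine (gw_force γ₀ γ _ _).trans ?_
      rw [← ENNReal.ofReal_mul (by positivity), abs_sub_comm, ← hE, div_mul_cancel₀ _ hE0.ne']
      exact hxq.upper H
    · gcongr
      refine max_le (by linarith) ?_
      rw [div_le_iff₀ h0]
      linarith
  have hX : (1 + ((e.toNNReal : ℝ≥0) : ℝ≥0∞)) * ENNReal.ofReal x * ENNReal.ofReal E ≤
      ENNReal.ofReal y := by
    have e1 : (1 + ((e.toNNReal : ℝ≥0) : ℝ≥0∞)) = ENNReal.ofReal (1 + e) := by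
      rw [ENNReal.ofReal_add zero_le_one he0.le, ENNReal.ofReal_one]
      rfl
    rw [e1, ← ENNReal.ofReal_mul (by positivity), ← ENNReal.ofReal_mul (by positivity)]
    refine ENNReal.ofReal_le_ofReal ?_
    refine le_trans ?_ he2
    rw [div_le_iff₀ hE0] at hxE
    calc (1 + e) * x * E ≤ (1 + e) * (x₀ * (1 + e) * E) * E := by gcongr
      _ ≤ (1 + e) * (x₀ * (1 + e) * (1 + e)) * (1 + e) := by gcongr
      _ = _ := by ring
  have hNCS : ∀ T : Set (Wd × Wd),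
      gp γ ((1 + ((e.toNNReal : ℝ≥0) : ℝ≥0∞)) * ENNReal.ofReal x) T ≤
      gp γ₀ (ENNReal.ofReal y) T := fun T => (gp_force γ γ₀ _ _).trans (gp_mono_x hX _)
  refine ⟨?_, ?_⟩
  swap
  · refine ((gw_force γ γ₀ _ _).trans (gw_mono_x (hX.trans hx'₂) _)).trans ?_
    have h9 : (chi γ₀ (ENNReal.ofReal x₂)) = ((chi γ₀ (ENNReal.ofReal x₂)).toNNReal : ℝ≥0∞) :=
      (ENNReal.coe_toNNReal hc₂).symm
    show chi γ₀ (ENNReal.ofReal x₂) ≤ _
    conv_lhs => rw [h9]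
    exact_mod_cast le_max_right _ _
  have hCC : CE ≤ ((max CE.toNNReal (chi γ₀ (ENNReal.ofReal x₂)).toNNReal : ℝ≥0) : ℝ≥0∞) := by
    conv_lhs => rw [← ENNReal.coe_toNNReal hCEt]
    exact_mod_cast le_max_left _ _
  refine le_trans ?_ hCC
  -- the ratio
  have hr : S ^ (6 * K) * θ ≤ 7 / 8 := by
    calc S ^ (6 * K) * θ ≤ S ^ (6 * K) * (ENNReal.ofReal q₀ ^ (6 * K) * (3 / 4)) := by gcongr
      _ = ENNReal.ofReal ((q₀ / q) ^ (6 * K) * (3 / 4)) := by
          rw [ENNReal.ofReal_mul (by positivity), ENNReal.ofReal_pow (by positivity),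
            ENNReal.ofReal_div_of_pos hq, ← mul_assoc, ← mul_pow, hS, mul_comm (ENNReal.ofReal q)⁻¹,
            ← div_eq_mul_inv]
          congr 1
          rw [ENNReal.ofReal_div_of_pos (by norm_num)]
          simp
      _ ≤ ENNReal.ofReal (7 / 8) := ENNReal.ofReal_le_ofReal hq3.le
      _ = 7 / 8 := by
          rw [ENNReal.ofReal_div_of_pos (by norm_num)]
          simp
  have h3K : 0 < 3 * K := by omega
  have hsum := tsum_div_mod_le (fun H : ℕ => S ^ (2 * H) *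
      gp γ ((1 + ((e.toNNReal : ℝ≥0) : ℝ≥0∞)) * ENNReal.ofReal x) (NCS H))
    (fun k => S ^ (6 * K) * D * (S ^ (6 * K) * θ) ^ k) h3K (by
      intro k m hm
      calc S ^ (2 * (k * (3 * K) + m)) *
            gp γ ((1 + ((e.toNNReal : ℝ≥0) : ℝ≥0∞)) * ENNReal.ofReal x) (NCS (k * (3 * K) + m))
          ≤ S ^ (k * (6 * K) + 6 * K) * (D * θ ^ k) := by
            refine mul_le_mul' (pow_le_pow_right₀ hS1 ?_) ((hNCS _).trans (hgap k m))
            have : 2 * (k * (3 * K) + m) = k * (6 * K) + 2 * m := by ring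
            omega
        _ = _ := by rw [pow_add, mul_pow, mul_comm k (6 * K), pow_mul]; ring)
  refine hsum.trans ?_
  rw [ENNReal.tsum_mul_left, ENNReal.tsum_geometric, hCE]
  gcongr
  -- `(1 - r)⁻¹ ≤ 8`
  rw [ENNReal.inv_le_iff_le_mul (fun h => by norm_num at h) (fun h => by
    have : (1 : ℝ≥0∞) - S ^ (6 * K) * θ ≤ 1 := tsub_le_self
    rw [h] at this
    norm_num at this)]
  have h8 : (1 : ℝ≥0∞) ≤ (1 - 7 / 8) * 8 := by
    have e1 : (7 / 8 : ℝ≥0∞) = ENNReal.ofReal (7 / 8) := by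
      rw [ENNReal.ofReal_div_of_pos (by norm_num)]
      simp
    have e2 : (8 : ℝ≥0∞) = ENNReal.ofReal 8 := by simp
    rw [e1]
    conv_rhs => rw [e2]
    rw [← ENNReal.ofReal_one, ← ENNReal.ofReal_sub _ (by norm_num),
      ← ENNReal.ofReal_mul (by norm_num)]
    exact ENNReal.ofReal_le_ofReal (by norm_num)
  refine h8.trans ?_
  gcongr

/-- the mass gap, uniformly on compact sets of rates and forces -/
theorem uniform_gap {a b c : ℝ} (ha : 0 < a) (hb : b < 1) : ∃ C eta : ℝ≥0, 0 < eta ∧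
    ∀ q ∈ Set.Icc a b, ∀ γ ∈ Set.Icc (-c) c, ∀ x : ℝ, Crit γ x q → Bd C eta q γ x := by
  have h : ∃ C eta : ℝ≥0, 0 < eta ∧ ∀ p ∈ Set.Icc a b ×ˢ Set.Icc (-c) c, ∀ x : ℝ,
      Crit p.2 x p.1 → Bd C eta p.1 p.2 x := by
    refine ((isCompact_Icc : IsCompact (Set.Icc a b)).prod
      (isCompact_Icc : IsCompact (Set.Icc (-c) c))).induction_on
      (p := fun s => ∃ C eta : ℝ≥0, 0 < eta ∧ ∀ p ∈ s, ∀ x : ℝ, Crit p.2 x p.1 →
        Bd C eta p.1 p.2 x) ?_ ?_ ?_ ?_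
    · exact ⟨0, 1, one_pos, fun q hq => absurd hq (Set.notMem_empty q)⟩
    · rintro s t hst ⟨C, eta, he, h⟩
      exact ⟨C, eta, he, fun q hq => h q (hst hq)⟩
    · rintro s t ⟨C, eta, he, h⟩ ⟨C', eta', he', h'⟩
      refine ⟨max C C', min eta eta', lt_min he he', ?_⟩
      rintro q (hq | hq) x hx
      · exact (h q hq x hx).mono (le_max_left _ _) (min_le_left _ _)
      · exact (h' q hq x hx).mono (le_max_right _ _) (min_le_right _ _)
    · rintro ⟨q, γ⟩ hq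
      obtain ⟨C, eta, he, h⟩ := local_gap (γ₀ := γ) (ha.trans_le hq.1.1) (hq.1.2.trans_lt hb)
      exact ⟨_, mem_nhdsWithin_of_mem_nhds h, C, eta, he, fun q' hq' => hq'⟩
  obtain ⟨C, eta, he, h⟩ := h
  exact ⟨C, eta, he, fun q hq γ hγ x hx => h (q, γ) ⟨hq, hγ⟩ x hx⟩

end Pool.Agent.TPG
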