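import Pool.Agent.Lib_helper24.SapR.Glue

/-!
# Mass gap of pairs of strands under a lateral force, I: generating functions (fork of Lib_helper74/MG/Gf)
-/

set_option autoImplicit false

namespace Pool.Agent.TPG

open Pool.Agent.Lib27 Pool.Agent.SapR
open scoped ENNReal

variable {γ : ℝ}

/-- words -/
abbrev Wd := List (Fin 4)

/-- lateral displacement of a word -/
def lt (w : Wd) : ℤ := (ep 0 w).1 - (ep 0 w).2

/-- lateral tilt -/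
noncomputable def tl (γ : ℝ) (w : Wd) : ℝ≥0∞ := ENNReal.ofReal (Real.exp (γ * lt w))

/-- weight of a word -/
noncomputable def wt (γ : ℝ) (x : ℝ≥0∞) (w : Wd) : ℝ≥0∞ := x ^ w.length * tl γ w

/-- weight of a pair of words -/
noncomputable def wt2 (γ : ℝ) (x : ℝ≥0∞) (p : Wd × Wd) : ℝ≥0∞ := wt γ x p.1 * wt γ x p.2

/-- generating function of a class of words -/
noncomputable def gw (γ : ℝ) (x : ℝ≥0∞) (S : Set Wd) : ℝ≥0∞ := ∑' w : S, wt γ x w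

/-- generating function of a class of pairs of words -/
noncomputable def gp (γ : ℝ) (x : ℝ≥0∞) (S : Set (Wd × Wd)) : ℝ≥0∞ := ∑' p : S, wt2 γ x p

theorem lt_nil : lt [] = 0 := by simp [lt]

theorem lt_append (u v : Wd) : lt (u ++ v) = lt u + lt v := by
  unfold lt
  rw [ep_append0]
  simp only [Prod.fst_add, Prod.snd_add]
  ring

theorem tl_nil (γ : ℝ) : tl γ [] = 1 := by simp [tl, lt_nil]

theorem tl_append (γ : ℝ) (u v : Wd) : tl γ (u ++ v) = tl γ u * tl γ v := by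
  unfold tl
  rw [lt_append, ← ENNReal.ofReal_mul (Real.exp_pos _).le, ← Real.exp_add]
  congr 2
  push_cast
  ring

theorem tl_ne_zero (γ : ℝ) (w : Wd) : tl γ w ≠ 0 := by
  unfold tl
  have := Real.exp_pos (γ * lt w)
  positivity

theorem tl_ne_top (γ : ℝ) (w : Wd) : tl γ w ≠ ∞ := ENNReal.ofReal_ne_top

theorem wt_nil (γ : ℝ) (x : ℝ≥0∞) : wt γ x [] = 1 := by simp [wt, tl_nil]

theorem wt_append (γ : ℝ) (x : ℝ≥0∞) (u v : Wd) : wt γ x (u ++ v) = wt γ x u * wt γ x v := by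
  unfold wt
  rw [tl_append, List.length_append, pow_add]
  ring

theorem wt_mono (γ : ℝ) {x y : ℝ≥0∞} (h : x ≤ y) (w : Wd) : wt γ x w ≤ wt γ y w := by
  unfold wt
  gcongr

theorem wt2_mono (γ : ℝ) {x y : ℝ≥0∞} (h : x ≤ y) (p : Wd × Wd) : wt2 γ x p ≤ wt2 γ y p :=
  mul_le_mul' (wt_mono γ h _) (wt_mono γ h _)

theorem wt2_eq (γ : ℝ) (x : ℝ≥0∞) (p : Wd × Wd) :
    wt2 γ x p = (tl γ p.1 * tl γ p.2) * x ^ (p.1.length + p.2.length) := by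
  unfold wt2 wt
  rw [pow_add]
  ring

theorem wt2_append (γ : ℝ) (x : ℝ≥0∞) (p q : Wd × Wd) :
    wt2 γ x (p.1 ++ q.1, p.2 ++ q.2) = wt2 γ x p * wt2 γ x q := by
  unfold wt2
  rw [wt_append, wt_append]
  ring

theorem tsum_le_of_inj {α β : Type*} {S : Set α} {T : Set β} (f : α → ℝ≥0∞) (g : β → ℝ≥0∞)
    (φ : α → β) (hmem : ∀ a ∈ S, φ a ∈ T) (hinj : Set.InjOn φ S) (hle : ∀ a ∈ S, f a ≤ g (φ a)) :
    ∑' a : S, f a ≤ ∑' b : T, g b := by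
  have h1 : ∑' a : S, f a ≤ ∑' a : S, (fun b : T => g b) (⟨φ a, hmem a a.2⟩ : T) :=
    ENNReal.tsum_le_tsum fun a => hle a a.2
  refine h1.trans ?_
  refine ENNReal.tsum_comp_le_tsum_of_injective (f := fun a : S => (⟨φ a, hmem a a.2⟩ : T)) ?_
    (fun b : T => g b)
  intro a b hab
  exact Subtype.ext (hinj a.2 b.2 (Subtype.mk_eq_mk.1 hab))

theorem tsum_le_of_inj' {α β : Type*} {S : Set α} (f : α → ℝ≥0∞) (g : β → ℝ≥0∞)
    (φ : α → β) (hinj : Set.InjOn φ S) (hle : ∀ a ∈ S, f a ≤ g (φ a)) :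
    ∑' a : S, f a ≤ ∑' b, g b := by
  have h1 : ∑' a : S, f a ≤ ∑' a : S, g (φ a) :=
    ENNReal.tsum_le_tsum fun a => hle a a.2
  refine h1.trans ?_
  refine ENNReal.tsum_comp_le_tsum_of_injective (f := fun a : S => φ a) ?_ g
  intro a b hab
  exact Subtype.ext (hinj a.2 b.2 hab)

theorem gw_mono {x : ℝ≥0∞} {S T : Set Wd} (h : S ⊆ T) : gw γ x S ≤ gw γ x T :=
  tsum_le_of_inj (fun w : Wd => wt γ x w) (fun w : Wd => wt γ x w) (fun w => w)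
    (fun _ hw => h hw) (Set.injOn_id S) fun _ _ => le_rfl

theorem gw_mono_x {x y : ℝ≥0∞} (h : x ≤ y) (S : Set Wd) : gw γ x S ≤ gw γ y S :=
  ENNReal.tsum_le_tsum fun w => wt_mono γ h w

theorem gp_mono {x : ℝ≥0∞} {S T : Set (Wd × Wd)} (h : S ⊆ T) : gp γ x S ≤ gp γ x T :=
  tsum_le_of_inj (fun p : Wd × Wd => wt2 γ x p)
    (fun p : Wd × Wd => wt2 γ x p) (fun w => w)
    (fun _ hw => h hw) (Set.injOn_id S) fun _ _ => le_rfl

theorem gp_mono_x {x y : ℝ≥0∞} (h : x ≤ y) (S : Set (Wd × Wd)) : gp γ x S ≤ gp γ y S :=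
  ENNReal.tsum_le_tsum fun p => wt2_mono γ h p

theorem gw_union (x : ℝ≥0∞) (S T : Set Wd) : gw γ x (S ∪ T) ≤ gw γ x S + gw γ x T :=
  ENNReal.tsum_union_le (fun w : Wd => wt γ x w) S T

theorem gp_union (x : ℝ≥0∞) (S T : Set (Wd × Wd)) : gp γ x (S ∪ T) ≤ gp γ x S + gp γ x T :=
  ENNReal.tsum_union_le (fun p : Wd × Wd => wt2 γ x p) S T

theorem gp_iUnion {ι : Type*} (x : ℝ≥0∞) (S : ι → Set (Wd × Wd)) :
    gp γ x (⋃ i, S i) ≤ ∑' i, gp γ x (S i) :=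
  ENNReal.tsum_iUnion_le_tsum (fun p : Wd × Wd => wt2 γ x p) S

theorem gw_iUnion {ι : Type*} (x : ℝ≥0∞) (S : ι → Set Wd) :
    gw γ x (⋃ i, S i) ≤ ∑' i, gw γ x (S i) :=
  ENNReal.tsum_iUnion_le_tsum (fun w : Wd => wt γ x w) S

theorem gp_prod (x : ℝ≥0∞) (A B : Set Wd) : gp γ x (A ×ˢ B) = gw γ x A * gw γ x B := by
  unfold gp gw
  have h1 : ∑' p : (A ×ˢ B : Set (Wd × Wd)),
      wt2 γ x (p : Wd × Wd) =
      ∑' c : A × B, (fun (a : A) (b : B) => wt γ x a * wt γ x b) c.1 c.2 :=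
    ((Equiv.Set.prod A B).symm.tsum_eq
      (fun p : (A ×ˢ B : Set (Wd × Wd)) =>
        wt2 γ x (p : Wd × Wd))).symm
  rw [h1]
  refine (ENNReal.tsum_prod (f := fun (a : A) (b : B) =>
    wt γ x a * wt γ x b)).trans ?_
  rw [← ENNReal.tsum_mul_right]
  congr 1
  funext a
  rw [← ENNReal.tsum_mul_left]

theorem gw_split2 (x : ℝ≥0∞) {S A B : Set Wd} (h : ∀ w ∈ S, ∃ u v, u ∈ A ∧ v ∈ B ∧ w = u ++ v) :
    gw γ x S ≤ gw γ x A * gw γ x B := by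
  choose! u v hu hv he using h
  rw [← gp_prod]
  refine tsum_le_of_inj (fun w : Wd => wt γ x w)
    (fun p : Wd × Wd => wt2 γ x p)
    (fun w => (u w, v w)) (fun w hw => ⟨hu w hw, hv w hw⟩) ?_ ?_
  · intro w hw w' hw' heq
    have h1 : u w = u w' := congrArg Prod.fst heq
    have h2 : v w = v w' := congrArg Prod.snd heq
    rw [he w hw, he w' hw', h1, h2]
  · intro w hw
    show wt γ x w ≤ wt γ x (u w) * wt γ x (v w)
    conv_lhs => rw [he w hw, wt_append]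

theorem gw_split3 (x : ℝ≥0∞) {S A B C : Set Wd}
    (h : ∀ w ∈ S, ∃ u v t, u ∈ A ∧ v ∈ B ∧ t ∈ C ∧ w = u ++ v ++ t) :
    gw γ x S ≤ gw γ x A * gw γ x B * gw γ x C := by
  have h1 : gw γ x S ≤ gw γ x {w | ∃ u v, u ∈ A ∧ v ∈ B ∧ w = u ++ v} * gw γ x C := by
    apply gw_split2
    intro w hw
    obtain ⟨u, v, t, hu, hv, ht, he⟩ := h w hw
    exact ⟨u ++ v, t, ⟨u, v, hu, hv, rfl⟩, ht, he⟩
  exact h1.trans (mul_le_mul_left (gw_split2 x fun w hw => hw) _)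

theorem gw_concat (x : ℝ≥0∞) {A B T : Set Wd} (h : ∀ u ∈ A, ∀ v ∈ B, u ++ v ∈ T)
    (hinj : ∀ u ∈ A, ∀ v ∈ B, ∀ u' ∈ A, ∀ v' ∈ B, u ++ v = u' ++ v' → u = u') :
    gw γ x A * gw γ x B ≤ gw γ x T := by
  rw [← gp_prod]
  refine tsum_le_of_inj (fun p : Wd × Wd => wt2 γ x p)
    (fun w : Wd => wt γ x w) (fun p => p.1 ++ p.2)
    (fun p hp => h p.1 hp.1 p.2 hp.2) ?_ ?_
  · rintro ⟨u, v⟩ hp ⟨u', v'⟩ hp' heq
    have h1 := hinj u hp.1 v hp.2 u' hp'.1 v' hp'.2 heq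
    subst h1
    have h2 : v = v' := List.append_cancel_left heq
    rw [h2]
  · rintro ⟨u, v⟩ _
    show wt γ x u * wt γ x v ≤ wt γ x (u ++ v)
    rw [wt_append]

theorem gw_le_map (x : ℝ≥0∞) {S T : Set Wd} (φ : Wd → Wd) (hmem : ∀ w ∈ S, φ w ∈ T)
    (hinj : Set.InjOn φ S) (hlen : ∀ w ∈ S, wt γ x (φ w) = wt γ x w) : gw γ x S ≤ gw γ x T :=
  tsum_le_of_inj (fun w : Wd => wt γ x w) (fun w : Wd => wt γ x w) φ hmem hinj
    fun w hw => by rw [hlen w hw]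

theorem gw_le_one_of_nil (x : ℝ≥0∞) {S : Set Wd} (h : ∀ w ∈ S, w = []) : gw γ x S ≤ 1 := by
  have h1 : gw γ x S ≤ gw γ x {[]} := gw_mono fun w hw => h w hw
  refine h1.trans ?_
  unfold gw
  rw [tsum_singleton ([] : Wd) (fun w : Wd => wt γ x w), wt_nil]

theorem one_le_gw (x : ℝ≥0∞) {S : Set Wd} (h : [] ∈ S) : 1 ≤ gw γ x S := by
  have h1 : gw γ x {[]} ≤ gw γ x S := gw_mono (Set.singleton_subset_iff.2 h)
  refine le_trans ?_ h1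
  unfold gw
  rw [tsum_singleton ([] : Wd) (fun w : Wd => wt γ x w), wt_nil]

/-! ### convexity -/

theorem pow_convex (w₁ w₂ z₁ z₂ : ℝ≥0∞) (hw : w₁ + w₂ = 1) (n : ℕ) :
    (w₁ * z₁ + w₂ * z₂) ^ n ≤ w₁ * z₁ ^ n + w₂ * z₂ ^ n := by
  rcases Nat.eq_zero_or_pos n with rfl | hn
  · simp [hw]
  · have h := ENNReal.rpow_arith_mean_le_arith_mean2_rpow w₁ w₂ z₁ z₂ hw (p := (n : ℝ))
      (by exact_mod_cast hn)
    simpa only [ENNReal.rpow_natCast] using h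

theorem tsum_pow_convex {α : Type*} (c : α → ℝ≥0∞) (n : α → ℕ) (w₁ w₂ z₁ z₂ : ℝ≥0∞)
    (hw : w₁ + w₂ = 1) :
    ∑' a, c a * (w₁ * z₁ + w₂ * z₂) ^ n a ≤
      w₁ * ∑' a, c a * z₁ ^ n a + w₂ * ∑' a, c a * z₂ ^ n a := by
  rw [← ENNReal.tsum_mul_left, ← ENNReal.tsum_mul_left, ← ENNReal.tsum_add]
  refine ENNReal.tsum_le_tsum fun a => ?_
  calc c a * (w₁ * z₁ + w₂ * z₂) ^ n a ≤ c a * (w₁ * z₁ ^ n a + w₂ * z₂ ^ n a) :=
        mul_le_mul_right (pow_convex w₁ w₂ z₁ z₂ hw (n a)) _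
    _ = _ := by ring

/-- right continuity of power series with nonnegative coefficients -/
theorem tsum_pow_right {α : Type*} (c : α → ℝ≥0∞) (n : α → ℕ) {x₀ x₁ τ : ℝ≥0∞} (h01 : x₀ < x₁)
    (hfin : ∑' a, c a * x₁ ^ n a ≠ ∞) (hτ : ∑' a, c a * x₀ ^ n a < τ) :
    ∃ x, x₀ < x ∧ x ≤ x₁ ∧ ∑' a, c a * x ^ n a < τ := by
  set F₀ := ∑' a, c a * x₀ ^ n a with hF₀
  set F₁ := ∑' a, c a * x₁ ^ n a with hF₁
  have hpos : τ - F₀ ≠ 0 := (tsub_pos_of_lt hτ).ne'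
  obtain ⟨t, ht0, ht⟩ := ENNReal.exists_nnreal_pos_mul_lt hfin hpos
  set s : NNReal := min t (1 / 2) with hs
  have hs0 : 0 < s := lt_min ht0 (by norm_num)
  have hs1 : s ≤ 1 / 2 := min_le_right _ _
  have hst : (s : ℝ≥0∞) * F₁ < τ - F₀ :=
    lt_of_le_of_lt (mul_le_mul_left (by exact_mod_cast min_le_left t (1 / 2)) _) ht
  have hsum : ((1 - s : NNReal) : ℝ≥0∞) + (s : ℝ≥0∞) = 1 := by
    rw [← ENNReal.coe_add, tsub_add_cancel_of_le (hs1.trans (by norm_num)), ENNReal.coe_one]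
  refine ⟨((1 - s : NNReal) : ℝ≥0∞) * x₀ + (s : ℝ≥0∞) * x₁, ?_, ?_, ?_⟩
  · have hx₀ : x₀ ≠ ∞ := (h01.trans_le le_top).ne
    calc x₀ = ((1 - s : NNReal) : ℝ≥0∞) * x₀ + (s : ℝ≥0∞) * x₀ := by
          rw [← add_mul, hsum, one_mul]
      _ < _ := by
          refine ENNReal.add_lt_add_left (ENNReal.mul_ne_top ENNReal.coe_ne_top hx₀) ?_
          exact (ENNReal.mul_lt_mul_iff_right (by exact_mod_cast hs0.ne') ENNReal.coe_ne_top).2 h01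
  · calc ((1 - s : NNReal) : ℝ≥0∞) * x₀ + (s : ℝ≥0∞) * x₁
        ≤ ((1 - s : NNReal) : ℝ≥0∞) * x₁ + (s : ℝ≥0∞) * x₁ := by gcongr
      _ = x₁ := by rw [← add_mul, hsum, one_mul]
  · refine lt_of_le_of_lt (tsum_pow_convex c n _ _ x₀ x₁ hsum) ?_
    rw [← hF₀, ← hF₁]
    have h1 : ((1 - s : NNReal) : ℝ≥0∞) * F₀ ≤ F₀ := by
      calc ((1 - s : NNReal) : ℝ≥0∞) * F₀ ≤ 1 * F₀ := by
            gcongr
            rw [← hsum]; exact le_self_add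
        _ = F₀ := one_mul _
    calc ((1 - s : NNReal) : ℝ≥0∞) * F₀ + (s : ℝ≥0∞) * F₁ ≤ F₀ + (s : ℝ≥0∞) * F₁ := by gcongr
      _ < F₀ + (τ - F₀) := ENNReal.add_lt_add_left (hτ.trans_le le_top).ne hst
      _ = τ := add_tsub_cancel_of_le hτ.le

/-- left continuity of power series with nonnegative coefficients -/
theorem tsum_pow_left {α : Type*} (c : α → ℝ≥0∞) (n : α → ℕ) {x₀ τ : ℝ≥0∞} (hx₀ : x₀ ≠ 0)
    (h : ∀ x < x₀, ∑' a, c a * x ^ n a ≤ τ) : ∑' a, c a * x₀ ^ n a ≤ τ := by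
  rw [ENNReal.tsum_eq_iSup_sum]
  refine iSup_le fun F => ?_
  have h1 : ∀ x < x₀, ∑ a ∈ F, c a * x ^ n a ≤ τ := fun x hx =>
    (ENNReal.sum_le_tsum F).trans (h x hx)
  by_contra hcon
  push Not at hcon
  -- finite powers are sup of the values on the left
  have h2 : ∀ a : α, c a * x₀ ^ n a ≤ ⨆ x : {x : ℝ≥0∞ // x < x₀}, c a * (x : ℝ≥0∞) ^ n a := by
    intro a
    rw [← ENNReal.mul_iSup]
    refine mul_le_mul_right ?_ _
    refine le_of_forall_lt fun r hr => ?_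
    obtain ⟨r', hr', hr''⟩ := exists_between hr
    -- `x ↦ x ^ n` is continuous at `x₀`
    have hc : Filter.Tendsto (fun x : ℝ≥0∞ => x ^ n a) (nhds x₀) (nhds (x₀ ^ n a)) :=
      (ENNReal.continuous_pow (n a)).tendsto x₀
    have hev := hc.eventually (lt_mem_nhds hr'')
    obtain ⟨l, hl, hlx⟩ := (mem_nhdsLT_iff_exists_Ioo_subset' (pos_iff_ne_zero.2 hx₀)).1
      (mem_nhdsWithin_of_mem_nhds hev)
    obtain ⟨y, hy1, hy2⟩ := exists_between (show l < x₀ from hl)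
    have h3 := hlx ⟨hy1, hy2⟩
    exact lt_of_lt_of_le (hr'.trans h3)
      (le_iSup (fun x : {x : ℝ≥0∞ // x < x₀} => (x : ℝ≥0∞) ^ n a) ⟨y, hy2⟩)
  have h3 : ∑ a ∈ F, c a * x₀ ^ n a ≤ ∑ a ∈ F, ⨆ x : {x : ℝ≥0∞ // x < x₀}, c a * (x : ℝ≥0∞) ^ n a :=
    Finset.sum_le_sum fun a _ => h2 a
  have : Nonempty {x : ℝ≥0∞ // x < x₀} := ⟨⟨0, pos_iff_ne_zero.2 hx₀⟩⟩
  have h4 : ∑ a ∈ F, ⨆ x : {x : ℝ≥0∞ // x < x₀}, c a * (x : ℝ≥0∞) ^ n a
      = ⨆ x : {x : ℝ≥0∞ // x < x₀}, ∑ a ∈ F, c a * (x : ℝ≥0∞) ^ n a := by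
    refine ENNReal.finsetSum_iSup fun i j => ?_
    rcases le_total (i : ℝ≥0∞) j with hij | hij
    · exact ⟨j, fun a => ⟨by gcongr, le_rfl⟩⟩
    · exact ⟨i, fun a => ⟨le_rfl, by gcongr⟩⟩
  rw [h4] at h3
  exact absurd (h3.trans (iSup_le fun x => h1 x x.2)) (not_le.2 hcon)

theorem gw_eq (x : ℝ≥0∞) (S : Set Wd) :
    gw γ x S = ∑' w : S, tl γ (w : Wd) * x ^ (w : Wd).length := by
  unfold gw wt
  congr 1
  funext w
  exact mul_comm _ _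

theorem gp_eq (x : ℝ≥0∞) (S : Set (Wd × Wd)) :
    gp γ x S = ∑' p : S, (tl γ (p : Wd × Wd).1 * tl γ (p : Wd × Wd).2) *
      x ^ ((p : Wd × Wd).1.length + (p : Wd × Wd).2.length) := by
  unfold gp
  congr 1
  funext p
  exact wt2_eq γ x p

end Pool.Agent.TPG
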