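import Pool.Agent.Lib_helper74.MG.Walks
import Pool.Agent.TPG.Gf

/-!
# Mass gap of pairs of strands, II: classes of walks and their splittings (fork of Lib_helper74/MG with a lateral force)
-/

set_option autoImplicit false

namespace Pool.Agent.TPG

open Pool.Agent.MG Pool.Agent.Lib27 Pool.Agent.SapR
open scoped ENNReal

variable {γ : ℝ}

/-- generating function of all self-avoiding words -/
noncomputable def chi (γ : ℝ) (x : ℝ≥0∞) : ℝ≥0∞ := gw γ x SW

theorem one_le_chi (x : ℝ≥0∞) : 1 ≤ chi γ x := one_le_gw x nil_mem_SW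

/-! ### splittings -/

theorem gw_Fp_le (x : ℝ≥0∞) (H : ℕ) : gw γ x (Fp H) ≤ chi γ x * gw γ x (Bri H) :=
  gw_split2 x fun w hw => by
    obtain ⟨a, b, ha, hb, he, -⟩ := Fp_split hw
    exact ⟨a, b, ha, hb, he⟩

theorem gw_Tp_le (x : ℝ≥0∞) (H : ℕ) : gw γ x (Tp H) ≤ chi γ x ^ 2 * gw γ x (Bri H) := by
  have h1 : gw γ x (Tp H) ≤ gw γ x (Fp H) * gw γ x SW := gw_split2 x fun w hw => Tp_split hw
  calc gw γ x (Tp H) ≤ gw γ x (Fp H) * gw γ x SW := h1
    _ ≤ (chi γ x * gw γ x (Bri H)) * chi γ x := mul_le_mul_left (gw_Fp_le x H) _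
    _ = _ := by ring

theorem gw_Bri_add_le (x : ℝ≥0∞) (H H' : ℕ) :
    gw γ x (Bri (H + H')) ≤ chi γ x * (gw γ x (Bri H) * gw γ x (Bri H')) := by
  have h1 : gw γ x (Bri (H + H')) ≤ gw γ x (Bri H) * gw γ x SW * gw γ x (Bri H') :=
    gw_split3 x fun w hw => by
      obtain ⟨u, l, v, hu, hl, hv, he⟩ := Bri_split hw
      exact ⟨u, l, v, hu, hl, hv, he⟩
  calc _ ≤ gw γ x (Bri H) * gw γ x SW * gw γ x (Bri H') := h1
    _ = _ := by unfold chi; ring

theorem gw_Bri_mul_le (x : ℝ≥0∞) (H H' : ℕ) :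
    gw γ x (Bri H) * gw γ x (Bri H') ≤ gw γ x (Bri (H + H')) :=
  gw_concat x (fun _ hu _ hv => Bri_append hu hv)
    fun _ hu _ _ _ hu' _ _ h => Fp_cancel (Bri_sub_Fp H hu) (Bri_sub_Fp H hu') h

/-! ### reversal composed with the reflection in the diagonal -/

/-- reflection of steps in the diagonal -/
def mi (d : Fin 4) : Fin 4 := ![1, 0, 3, 2] d

theorem mi_mi (d : Fin 4) : mi (mi d) = d := by revert d; decide

theorem dv_mi (d : Fin 4) : dv (mi d) = ((dv d).2, (dv d).1) := by revert d; decide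

/-- word reflected in the diagonal -/
def mir (s : Wd) : Wd := s.map mi

theorem mir_mir (s : Wd) : mir (mir s) = s := by
  unfold mir
  rw [List.map_map]
  conv_rhs => rw [← List.map_id s]
  apply List.map_congr_left
  intro d _
  exact mi_mi d

theorem mir_injective : Function.Injective mir := fun a b h => by
  rw [← mir_mir a, h, mir_mir]

theorem mir_length (s : Wd) : (mir s).length = s.length := by simp [mir]

theorem vt_mir (s : Wd) (p : ℤ × ℤ) :
    vt (p.2, p.1) (mir s) = (vt p s).map (fun v => (v.2, v.1)) := by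
  induction s generalizing p with
  | nil => simp [mir]
  | cons d s ih =>
    show vt _ (mi d :: mir s) = _
    rw [vt_cons, vt_cons, List.map_cons, ← ih (p + dv d), dv_mi]
    congr 2

theorem vt_mir0 (s : Wd) : vt 0 (mir s) = (vt 0 s).map (fun v => (v.2, v.1)) := vt_mir s 0

theorem ep_mir (s : Wd) (p : ℤ × ℤ) : ep (p.2, p.1) (mir s) = ((ep p s).2, (ep p s).1) := by
  induction s generalizing p with
  | nil => simp [mir]
  | cons d s ih =>
    show ep _ (mi d :: mir s) = _
    rw [ep_cons, ep_cons, ← ih (p + dv d), dv_mi]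
    congr 2

theorem ep_mir0 (s : Wd) : ep 0 (mir s) = ((ep 0 s).2, (ep 0 s).1) := ep_mir s 0

theorem lev_swap (v : ℤ × ℤ) : lev (v.2, v.1) = lev v := by
  unfold lev
  exact add_comm _ _

theorem SAWs_mir {s : Wd} (h : SAWs s) : SAWs (mir s) := by
  unfold SAWs at *
  rw [vt_mir0]
  apply h.map
  intro a b hab
  simp only [Prod.mk.injEq] at hab
  exact Prod.ext hab.2 hab.1

theorem lt_mir (s : Wd) : lt (mir s) = -lt s := by
  unfold lt
  rw [ep_mir0]
  ring

theorem lt_rv (w : Wd) : lt (rv w) = -lt w := by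
  have h := ep_rv 0 w
  rw [ep_eq (ep 0 w)] at h
  have h1 := congrArg Prod.fst h
  have h2 := congrArg Prod.snd h
  simp only [Prod.fst_add, Prod.snd_add, Prod.fst_zero, Prod.snd_zero] at h1 h2
  unfold lt
  omega

/-- reversal composed with the reflection in the diagonal: the lateral displacement is kept, the
change of level is reversed -/
def mr (w : Wd) : Wd := mir (rv w)

theorem lt_mr (w : Wd) : lt (mr w) = lt w := by
  unfold mr
  rw [lt_mir, lt_rv, neg_neg]

theorem mr_length (w : Wd) : (mr w).length = w.length := by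
  unfold mr
  rw [mir_length, rv_length]

theorem wt_mr (x : ℝ≥0∞) (w : Wd) : wt γ x (mr w) = wt γ x w := by
  unfold wt tl
  rw [mr_length, lt_mr]

theorem mr_injective : Function.Injective mr := mir_injective.comp rv_injective

theorem SAWs_mr {w : Wd} (h : SAWs w) : SAWs (mr w) := SAWs_mir (SAWs_rv h)

theorem lev_ep_mr (w : Wd) : lev (ep 0 (mr w)) = -lev (ep 0 w) := by
  unfold mr
  rw [ep_mir0, lev_swap, lev_ep_rv]

theorem gw_Dn_le (x : ℝ≥0∞) (H : ℕ) : gw γ x (Dn H) ≤ chi γ x ^ 2 * gw γ x (Bri H) := by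
  refine le_trans ?_ (gw_Tp_le x H)
  refine gw_le_map x mr (fun w hw => ⟨SAWs_mr hw.1, ?_⟩) (fun a _ b _ h => mr_injective h)
    fun w _ => wt_mr x w
  rw [lev_ep_mr, hw.2, neg_neg]

end Pool.Agent.TPG
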