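import Pool.Agent.Lib_helper74.MG.HW
import Pool.Agent.TPG.Walks

/-!
# Mass gap of pairs of strands, III: Hammersley-Welsh in the diagonal direction (fork of Lib_helper74/MG with a lateral force)
-/

set_option autoImplicit false

namespace Pool.Agent.TPG

open Pool.Agent.MG Pool.Agent.Lib27 Pool.Agent.SapR Finset
open scoped ENNReal

variable {γ : ℝ}

theorem lt_rfa (w : Wd) : lt (rfa w) = lt w := by
  have h1 : ∀ (s : Wd) (p : ℤ × ℤ), ep (-p.2, -p.1) (rfa s) = (-(ep p s).2, -(ep p s).1) := by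
    intro s
    induction s with
    | nil => intro p; simp [rfa]
    | cons d s ih =>
      intro p
      show ep _ (ra d :: rfa s) = _
      rw [ep_cons, ep_cons, ← ih (p + dv d), dv_ra]
      congr 1
      ext
      · simp; ring
      · simp; ring
  have h2 := h1 w 0
  have h0 : ((-(0 : ℤ × ℤ).2, -(0 : ℤ × ℤ).1) : ℤ × ℤ) = 0 := Prod.ext (by simp) (by simp)
  rw [h0] at h2
  unfold lt
  rw [h2]
  ring

theorem wt_rfa (x : ℝ≥0∞) (w : Wd) : wt γ x (rfa w) = wt γ x w := by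
  unfold wt tl
  rw [rfa_length, lt_rfa]

theorem lt_zero : lt [0] = 1 := by decide

theorem lt_one : lt [1] = -1 := by decide

theorem wt_zero_ge (x : ℝ≥0∞) : x * ENNReal.ofReal (Real.exp (-|γ|)) ≤ wt γ x [0] := by
  unfold wt tl
  rw [lt_zero, List.length_singleton, pow_one]
  refine mul_le_mul_right (ENNReal.ofReal_le_ofReal (Real.exp_le_exp.2 ?_)) _
  have := neg_abs_le γ
  push_cast
  linarith

theorem wt_one_ge (x : ℝ≥0∞) : x * ENNReal.ofReal (Real.exp (-|γ|)) ≤ wt γ x [1] := by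
  unfold wt tl
  rw [lt_one, List.length_singleton, pow_one]
  refine mul_le_mul_right (ENNReal.ofReal_le_ofReal (Real.exp_le_exp.2 ?_)) _
  have := le_abs_self γ
  push_cast
  linarith

theorem Hsp_mir {w : Wd} (h : w ∈ Hsp) : mir w ∈ Hsp := by
  refine ⟨SAWs_mir h.1, ?_⟩
  intro p hp
  rw [vt_mir0, ← List.map_tail, List.mem_map] at hp
  obtain ⟨v, hv, rfl⟩ := hp
  rw [lev_swap]
  exact h.2 v hv

theorem gw_singleton (x : ℝ≥0∞) (w : Wd) : gw γ x {w} = wt γ x w := by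
  unfold gw
  exact tsum_singleton w (fun w : Wd => wt γ x w)

theorem gw_Bw_mul (x : ℝ≥0∞) {A : ℕ} (hA : 0 < A) :
    gw γ x (Bw A) * wt γ x [0] ≤ gw γ x (Bri (A + 1)) := by
  have h1 : gw γ x (Bw A) * gw γ x {([0] : Wd)} ≤ gw γ x (Bri (A + 1)) := by
    apply gw_concat
    · rintro u ⟨hu1, hu2, hu3⟩ v rfl
      have hu : u ≠ [] := ne_nil_of_Tp hA hu2
      have hle : ∀ p ∈ vt 0 u, lev p ≤ A := by
        intro p hp
        rw [vt_head, List.mem_cons] at hp
        rcases hp with rfl | hp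
        · simp
        · exact (hu3 p hp).2
      refine ⟨?_, ?_, ?_⟩
      · unfold SAWs
        rw [vt_append', vt_cons, List.tail_cons, vt_nil, List.nodup_append']
        refine ⟨hu1, by simp, ?_⟩
        intro p hp hp'
        rw [List.mem_singleton] at hp'
        have h2 := hle p hp
        rw [hp', lev_add, hu2] at h2
        have h3 : lev (dv 0) = 1 := by decide
        omega
      · rw [lev_ep_append, hu2, ep_cons, ep_nil, zero_add]
        have h3 : lev (dv 0) = 1 := by decide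
        rw [h3]; push_cast; ring
      · intro p hp
        have h4 : (vs 0 (u ++ [0])).tail = (vt 0 u).tail := by
          rw [vs_append, vs_cons, vs_nil]
          rfl
        rw [h4] at hp
        have := hu3 p hp
        push_cast
        omega
    · rintro u _ v rfl u' _ v' rfl h
      exact List.append_cancel_right h
  rwa [gw_singleton] at h1

theorem gw_Hf_succ (x : ℝ≥0∞) (A : ℕ) :
    gw γ x (Hf (A + 1)) ≤ (1 + gw γ x (Bw (A + 1))) * gw γ x (Hf A) := by
  have h1 : gw γ x (Hf (A + 1)) ≤ gw γ x (Hf A) +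
      gw γ x {w | w ∈ Hf (A + 1) ∧ ∃ v ∈ vt 0 w, lev v = (A : ℤ) + 1} := by
    refine (gw_mono ?_).trans (gw_union x _ _)
    intro w hw
    by_cases h : ∃ v ∈ vt 0 w, lev v = (A : ℤ) + 1
    · exact Or.inr ⟨hw, h⟩
    · push Not at h
      refine Or.inl ⟨hw.1, fun p hp => ⟨(hw.2 p hp).1, ?_⟩⟩
      have h2 := (hw.2 p hp).2
      have h3 := h p (List.mem_of_mem_tail hp)
      push_cast at h2
      omega
  have h2 : gw γ x {w | w ∈ Hf (A + 1) ∧ ∃ v ∈ vt 0 w, lev v = (A : ℤ) + 1} ≤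
      gw γ x (Bw (A + 1)) * gw γ x {v | rfa v ∈ Hf A} := by
    apply gw_split2
    rintro w ⟨⟨hsaw, hw⟩, hex⟩
    obtain ⟨l₁, l₂, rfl, hP, hlast⟩ := split_last (fun v => lev v = (A : ℤ) + 1) w 0 hex
    have hP : lev (ep 0 l₁) = (A : ℤ) + 1 := hP
    refine ⟨l₁, l₂, ⟨SAWs_left hsaw, by rw [hP]; push_cast; ring, ?_⟩, ⟨SAWs_rfa (SAWs_right hsaw), ?_⟩,
      rfl⟩
    · intro v hv
      exact hw v (by rw [vt_tail_append]; exact List.mem_append_left _ hv)
    · intro v hv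
      rw [vt_rfa0, ← List.map_tail, List.mem_map] at hv
      obtain ⟨p, hp, rfl⟩ := hv
      have hp' : p + ep 0 l₁ ∈ (vt (ep 0 l₁) l₂).tail := by
        rw [vt_tail_map, List.mem_map]
        exact ⟨p, hp, rfl⟩
      have h3 := hlast _ hp'
      have h4 := hw (p + ep 0 l₁) (by rw [vt_tail_append]; exact List.mem_append_right _ hp')
      rw [lev_add, hP] at h4 h3
      push_cast at h4
      have h5 : lev (-p.2, -p.1) = -lev p := by simp only [lev]; ring
      show 0 < lev (-p.2, -p.1) ∧ lev (-p.2, -p.1) ≤ (A : ℤ)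
      rw [h5]
      omega
  have h3 : gw γ x {v | rfa v ∈ Hf A} ≤ gw γ x (Hf A) :=
    gw_le_map x rfa (fun w hw => hw) (fun a _ b _ h => rfa_injective h) fun w _ => wt_rfa x w
  calc gw γ x (Hf (A + 1)) ≤ gw γ x (Hf A) + gw γ x (Bw (A + 1)) * gw γ x (Hf A) :=
        h1.trans (add_le_add_right (h2.trans (mul_le_mul_right h3 _)) _)
    _ = _ := by ring

theorem gw_Hf_zero (x : ℝ≥0∞) : gw γ x (Hf 0) ≤ 1 := by
  apply gw_le_one_of_nil
  rintro w ⟨-, hw⟩
  by_contra hne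
  have := hw _ (ep_mem_tail 0 w hne)
  push_cast at this
  omega

theorem gw_Hf_le (x : ℝ≥0∞) (A : ℕ) :
    gw γ x (Hf A) ≤ ∏ a ∈ range A, (1 + gw γ x (Bw (a + 1))) := by
  induction A with
  | zero => simpa using gw_Hf_zero x
  | succ A ih =>
    rw [prod_range_succ, mul_comm]
    exact (gw_Hf_succ x A).trans (mul_le_mul_right ih _)

/-- truncation by length -/
theorem gw_le_of_truncate {x c : ℝ≥0∞} {S : Set Wd}
    (h : ∀ N : ℕ, gw γ x (S ∩ {w | w.length ≤ N}) ≤ c) : gw γ x S ≤ c := by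
  unfold gw
  rw [ENNReal.tsum_eq_iSup_sum]
  refine iSup_le fun F => ?_
  set N := F.sup (fun w : S => (w : Wd).length) with hN
  refine le_trans ?_ (h N)
  have h1 : ∑ a ∈ F, wt γ x (a : Wd) = ∑' a : (F : Set S), wt γ x ((a : S) : Wd) :=
    (Finset.tsum_subtype F (fun a : S => wt γ x (a : Wd))).symm
  rw [h1]
  refine tsum_le_of_inj (fun a : S => wt γ x (a : Wd)) (fun w : Wd => wt γ x w)
    (fun a : S => (a : Wd)) ?_ ?_ ?_
  · intro a ha
    exact ⟨a.2, Finset.le_sup (f := fun w : S => (w : Wd).length) ha⟩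
  · intro a _ b _ hab
    exact Subtype.ext hab
  · intro a _
    exact le_rfl

theorem gw_Hsp_le {x c : ℝ≥0∞} (h : ∀ A, gw γ x (Hf A) ≤ c) : gw γ x Hsp ≤ c := by
  apply gw_le_of_truncate
  intro N
  refine (gw_mono ?_).trans (h N)
  rintro w ⟨⟨h1, h2⟩, h3⟩
  refine ⟨h1, fun p hp => ⟨h2 p hp, ?_⟩⟩
  have h4 := lev_le_length w 0 p (List.mem_of_mem_tail hp)
  have h5 : w.length ≤ N := h3
  simp only [lev_zero] at h4
  omega

theorem chi_mul_le (x : ℝ≥0∞) : wt γ x [1] * chi γ x ≤ gw γ x Hsp * gw γ x Hsp := by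
  rw [← gp_prod, chi, gw, ← ENNReal.tsum_mul_left]
  have key : ∀ w ∈ SW, ∃ u v : Wd, w = u ++ v ∧ (0 :: rv u) ∈ Hsp ∧ v ∈ Hsp := by
    intro w hw
    have hex : ∃ v ∈ vt 0 w, (∀ z ∈ vt 0 w, lev v ≤ lev z) := by
      classical
      obtain ⟨v, hv, hmin⟩ := Finset.exists_min_image (vt 0 w).toFinset (fun v => lev v)
        ⟨0, by rw [List.mem_toFinset]; exact mem_vt_self 0 w⟩
      exact ⟨v, List.mem_toFinset.1 hv, fun z hz => hmin z (List.mem_toFinset.2 hz)⟩
    obtain ⟨u, v, rfl, hP, hlast⟩ := split_last (fun v => ∀ z ∈ vt 0 w, lev v ≤ lev z) w 0 hex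
    have hP : ∀ z ∈ vt 0 (u ++ v), lev (ep 0 u) ≤ lev z := hP
    refine ⟨u, v, rfl, ⟨?_, ?_⟩, ⟨SAWs_right hw, ?_⟩⟩
    · -- self-avoidance
      unfold SAWs
      rw [vt_cons, List.nodup_cons]
      refine ⟨?_, (nodup_vt _ _).2 (SAWs_rv (SAWs_left hw))⟩
      intro h
      rw [zero_add, vt_eq, List.mem_map] at h
      obtain ⟨q, hq, hq0⟩ := h
      have h1 : q + ep 0 u ∈ vt (ep 0 u) (rv u) := by
        rw [vt_eq]; exact List.mem_map.2 ⟨q, hq, rfl⟩
      rw [vt_rv0, List.mem_reverse] at h1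
      have h2 := hP _ (mem_vt_append_left v h1)
      have h3 := congrArg lev hq0
      rw [lev_add, lev_zero] at h3
      rw [lev_add] at h2
      have h4 : lev (dv 0) = 1 := by decide
      omega
    · intro p hp
      rw [vt_cons, List.tail_cons, zero_add, vt_eq, List.mem_map] at hp
      obtain ⟨q, hq, rfl⟩ := hp
      have h1 : q + ep 0 u ∈ vt (ep 0 u) (rv u) := by
        rw [vt_eq]; exact List.mem_map.2 ⟨q, hq, rfl⟩
      rw [vt_rv0, List.mem_reverse] at h1
      have h2 := hP _ (mem_vt_append_left v h1)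
      rw [lev_add] at h2 ⊢
      have h4 : lev (dv 0) = 1 := by decide
      omega
    · intro p hp
      have hp' : p + ep 0 u ∈ (vt (ep 0 u) v).tail := by
        rw [vt_tail_map, List.mem_map]
        exact ⟨p, hp, rfl⟩
      have h1 := hlast _ hp'
      have h2 := hP _ (mem_vt_append_right u (List.mem_of_mem_tail hp))
      rw [lev_add] at h2
      by_contra hcon
      apply h1
      intro z hz
      have h3 := hP z hz
      rw [lev_add]
      omega
  choose! u v he hu hv using key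
  have hcons : ∀ s : Wd, mir (0 :: rv s) = [1] ++ mr s := fun s => rfl
  refine tsum_le_of_inj (S := SW) (fun w : Wd => wt γ x [1] * wt γ x w)
    (fun p : Wd × Wd => wt2 γ x p)
    (fun w => ([1] ++ mr (u w), v w)) (fun w hw => ⟨by
      show [1] ++ mr (u w) ∈ Hsp
      rw [← hcons]
      exact Hsp_mir (hu w hw), hv w hw⟩) ?_ ?_
  · intro w hw w' hw' heq
    have h1 : ([1] ++ mr (u w) : Wd) = [1] ++ mr (u w') := congrArg Prod.fst heq
    have h2 : v w = v w' := congrArg Prod.snd heq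
    have h3 : u w = u w' := mr_injective (List.append_cancel_left h1)
    rw [he w hw, he w' hw', h2, h3]
  · intro w hw
    show wt γ x [1] * wt γ x w ≤ wt γ x ([1] ++ mr (u w)) * wt γ x (v w)
    conv_lhs => rw [he w hw]
    rw [wt_append, wt_append, wt_mr, mul_assoc]

/-- Hammersley-Welsh bound -/
theorem chi_le_of_bridges {x₀ x q : ℝ} (hx₀ : 0 < x₀) (hx : x₀ ≤ x * Real.exp (-|γ|))
    (hq : 0 ≤ q) (hq1 : q < 1)
    (h : ∀ H : ℕ, gw γ (ENNReal.ofReal x) (Bri H) ≤ ENNReal.ofReal (q ^ H)) :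
    chi γ (ENNReal.ofReal x) ≤ ENNReal.ofReal
      (x₀⁻¹ * (Real.exp (x₀⁻¹ / (1 - q)) * Real.exp (x₀⁻¹ / (1 - q)))) := by
  set y : ℝ := x * Real.exp (-|γ|) with hy
  have hy0 : 0 < y := lt_of_lt_of_le hx₀ hx
  have hx0 : 0 < x := pos_of_mul_pos_left hy0 (Real.exp_pos _).le
  have hye : ENNReal.ofReal y ≠ 0 := by simpa using hy0
  have hyx : ENNReal.ofReal y = ENNReal.ofReal x * ENNReal.ofReal (Real.exp (-|γ|)) :=
    ENNReal.ofReal_mul hx0.le
  have h1 : ∀ a : ℕ, gw γ (ENNReal.ofReal x) (Bw (a + 1)) ≤ ENNReal.ofReal (x₀⁻¹ * q ^ a) := by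
    intro a
    have h2 := (gw_Bw_mul (γ := γ) (ENNReal.ofReal x) (A := a + 1) (by omega)).trans (h (a + 1 + 1))
    have h2' : gw γ (ENNReal.ofReal x) (Bw (a + 1)) * ENNReal.ofReal y ≤
        ENNReal.ofReal (q ^ (a + 1 + 1)) := by
      refine le_trans (mul_le_mul_right ?_ _) h2
      rw [hyx]
      exact wt_zero_ge _
    have h3 : gw γ (ENNReal.ofReal x) (Bw (a + 1)) ≤
        ENNReal.ofReal (q ^ (a + 1 + 1)) * (ENNReal.ofReal y)⁻¹ := by
      rw [← div_eq_mul_inv]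
      exact (ENNReal.le_div_iff_mul_le (Or.inl hye) (Or.inl ENNReal.ofReal_ne_top)).2 h2'
    refine h3.trans ?_
    rw [← ENNReal.ofReal_inv_of_pos hy0, ← ENNReal.ofReal_mul (by positivity)]
    apply ENNReal.ofReal_le_ofReal
    rw [mul_comm]
    have h4 : y⁻¹ ≤ x₀⁻¹ := inv_anti₀ hx₀ hx
    have h5 : q ^ (a + 1 + 1) ≤ q ^ a := pow_le_pow_of_le_one hq hq1.le (by omega)
    exact mul_le_mul h4 h5 (by positivity) (by positivity)
  have h2 : ∀ A, gw γ (ENNReal.ofReal x) (Hf A) ≤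
      ENNReal.ofReal (Real.exp (x₀⁻¹ / (1 - q))) := by
    intro A
    refine (gw_Hf_le _ A).trans ?_
    calc ∏ a ∈ range A, (1 + gw γ (ENNReal.ofReal x) (Bw (a + 1)))
        ≤ ∏ a ∈ range A, ENNReal.ofReal (1 + x₀⁻¹ * q ^ a) := by
          refine Finset.prod_le_prod' fun a _ => ?_
          rw [ENNReal.ofReal_add (by norm_num) (by positivity), ENNReal.ofReal_one]
          exact add_le_add_right (h1 a) _
      _ = ENNReal.ofReal (∏ a ∈ range A, (1 + x₀⁻¹ * q ^ a)) :=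
          (ENNReal.ofReal_prod_of_nonneg fun a _ => by positivity).symm
      _ ≤ _ := ENNReal.ofReal_le_ofReal (prod_le_exp _ _ (by positivity) hq hq1 A)
  have h3 := gw_Hsp_le h2
  have h4 := (chi_mul_le (γ := γ) (ENNReal.ofReal x)).trans (mul_le_mul' h3 h3)
  have h4' : ENNReal.ofReal y * chi γ (ENNReal.ofReal x) ≤
      ENNReal.ofReal (Real.exp (x₀⁻¹ / (1 - q))) * ENNReal.ofReal (Real.exp (x₀⁻¹ / (1 - q))) := by
    refine le_trans (mul_le_mul_left ?_ _) h4
    rw [hyx]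
    exact wt_one_ge _
  rw [← ENNReal.ofReal_mul (by positivity), mul_comm] at h4'
  have h5 : chi γ (ENNReal.ofReal x) ≤
      ENNReal.ofReal (Real.exp (x₀⁻¹ / (1 - q)) * Real.exp (x₀⁻¹ / (1 - q))) *
        (ENNReal.ofReal y)⁻¹ := by
    rw [← div_eq_mul_inv]
    exact (ENNReal.le_div_iff_mul_le (Or.inl hye) (Or.inl ENNReal.ofReal_ne_top)).2 h4'
  refine h5.trans ?_
  rw [← ENNReal.ofReal_inv_of_pos hy0, ← ENNReal.ofReal_mul (by positivity), mul_comm]
  apply ENNReal.ofReal_le_ofReal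
  have h4 : y⁻¹ ≤ x₀⁻¹ := inv_anti₀ hx₀ hx
  exact mul_le_mul_of_nonneg_right h4 (by positivity)

end Pool.Agent.TPG
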