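import Pool.Agent.TPG.Emb
import Pool.Agent.TPT.Stmts0
import Pool.Agent.Lib_helper12.FL.MGI2

/-!
# Mass gap of pairs of strands under a lateral force: real weights
-/

set_option autoImplicit false

namespace Pool.Agent.TPG

open Pool.Agent.MG Pool.Agent.Lib27 Pool.Agent.SapR Finset Pool.Agent.AreaLaw
open Pool.Agent.TPT (lat kap mlev mlat MArch MCap wp CritM TailsM NoB slev scnt)
open Pool.Agent.FL (hl htn)
open scoped ENNReal NNReal

/-- finite sums of real numbers -/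
theorem fin_sum_le {ι : Type*} (A : Set ι) (F : Finset ι) (hF : ∀ p ∈ F, p ∈ A)
    (f : ι → ℝ≥0∞) (r : ι → ℝ) (hr : ∀ p ∈ F, 0 ≤ r p)
    (h : ∀ p ∈ F, ENNReal.ofReal (r p) ≤ f p) (C : ℝ) (hC0 : 0 ≤ C)
    (hC : ∑' p : A, f p ≤ ENNReal.ofReal C) : ∑ p ∈ F, r p ≤ C := by
  rw [← ENNReal.ofReal_le_ofReal_iff hC0, ENNReal.ofReal_sum_of_nonneg hr]
  refine (sum_le_sum h).trans (le_trans ?_ hC)
  rw [← Finset.tsum_subtype F f]
  exact ENNReal.tsum_mono_subtype f (s := (F : Set ι)) (t := A) (fun p hp => hF p hp)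

/-- the weight of a pair of strands as a real number -/
theorem real_wt (f g X : ℝ) (hX : 0 < X) (m h : ℕ) (hle : h ≤ m) (c : ℤ) (A B : Wd)
    (hlen : A.length + B.length = 2 * m) (hlt : lt A + lt B = 2 * c) :
    wt2 (g / 2) (ENNReal.ofReal X) (A, B) * ENNReal.ofReal (Real.exp f) ^ h =
      ENNReal.ofReal ((X ^ 2 * Real.exp f) ^ m * Real.exp (-f) ^ (m - h) *
        Real.exp (g * c)) := by
  obtain ⟨j, rfl⟩ : ∃ j, m = h + j := ⟨m - h, by omega⟩
  have h1 : h + j - h = j := by omega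
  rw [h1, wt2_eq]
  unfold tl
  rw [← ENNReal.ofReal_mul (Real.exp_pos _).le, ← ENNReal.ofReal_pow hX.le,
    ← ENNReal.ofReal_pow (Real.exp_pos _).le, ← ENNReal.ofReal_mul (by positivity),
    ← ENNReal.ofReal_mul (by positivity)]
  congr 1
  simp only
  rw [hlen, ← Real.exp_add]
  have e1 : g / 2 * (lt A : ℝ) + g / 2 * (lt B : ℝ) = g * c := by
    have : ((lt A : ℤ) : ℝ) + ((lt B : ℤ) : ℝ) = 2 * (c : ℝ) := by exact_mod_cast hlt
    linear_combination g / 2 * this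
  rw [e1, mul_pow, ← pow_mul, pow_add (Real.exp f) h j]
  have e2 : Real.exp f ^ j * Real.exp (-f) ^ j = 1 := by
    rw [← mul_pow, ← Real.exp_add]
    simp
  calc Real.exp (g * c) * X ^ (2 * (h + j)) * Real.exp f ^ h
      = X ^ (2 * (h + j)) * Real.exp f ^ h * 1 * Real.exp (g * c) := by ring
    _ = X ^ (2 * (h + j)) * Real.exp f ^ h * (Real.exp f ^ j * Real.exp (-f) ^ j) *
          Real.exp (g * c) := by rw [e2]
    _ = _ := by ring

/-- twice the lateral displacement of a piece -/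
theorem two_mul_kap {p : Wd × Wd} (hp : FreePiece p.1 p.2) : lt p.1 + lt (rv p.2) = 2 * kap p := by
  have h1 : lev (ep 0 p.1) + lev (ep 0 p.2) = 0 := by
    rw [hp.1.2.1]
    ring
  rw [lt_rv]
  unfold kap lat jump lt
  unfold lev at h1
  omega

theorem wp_eq (f g X : ℝ) (hX : 0 < X) {p : Wd × Wd} (hp : FreePiece p.1 p.2) :
    wt2 (g / 2) (ENNReal.ofReal X) (p.1, rv p.2) * ENNReal.ofReal (Real.exp f) ^ htn p =
      ENNReal.ofReal (wp (Real.exp (-f)) g (X ^ 2 * Real.exp f) p) := by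
  have h1 := FL.hl_eq hp
  have h2 := FL.htn_le hp
  have h3 := FL.hl_pos hp
  exact real_wt f g X hX (hl p) (htn p) (by omega) (kap p) p.1 (rv p.2)
    (by rw [rv_length]; exact h1) (two_mul_kap hp)

theorem cap_eq (f g X : ℝ) (hX : 0 < X) {x : ℤ} {m : ℕ} {a : Wd × ℕ} (ha : a ∈ MCap x (2 * m)) :
    wt2 (g / 2) (ENNReal.ofReal X) (cutw a) * ENNReal.ofReal (Real.exp f) ^ mlev a =
      ENNReal.ofReal ((X ^ 2 * Real.exp f) ^ m * Real.exp (-f) ^ (m - mlev a) *
        Real.exp (g * mlat x a)) := by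
  have ha1 := (mem_MCap.1 ha).1
  have hm := TPT.HGM.marked ha1
  rw [TPT.HGM.mem_MArch] at ha1
  obtain ⟨hN, hj, hA, hj0⟩ := ha1
  have hlev : ((mlev a : ℕ) : ℤ) = lev (ep 0 (a.1.take a.2)) := by
    unfold mlev
    exact Int.toNat_of_nonneg hm.1.le
  refine real_wt f g X hX m (mlev a) ?_ (mlat x a) _ _ ?_ (two_mul_mlat x a hA.2.1)
  · have := hm.2.1
    push_cast at this
    omega
  · rw [rv_length, List.length_take, List.length_drop]
    omega

/-- lateral displacement of the two strands of a closed word -/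
theorem two_mul_lat (a : Wd × ℕ) (h0 : ep 0 a.1 = 0) :
    lt (a.1.take a.2) + lt (rv (a.1.drop a.2)) = 2 * lat (ep 0 (a.1.take a.2)) := by
  have h1 := two_mul_mlat 0 a (by rw [h0]; simp; rfl)
  unfold mlat at h1
  rw [add_zero] at h1
  exact h1

/-- real form of the weight of a marked polygon word -/
noncomputable def pw (f g X : ℝ) (n : ℕ) (a : Wd × ℕ) : ℝ :=
  X ^ (2 * n) * Real.exp (f * lev (ep 0 (a.1.take a.2)) + g * lat (ep 0 (a.1.take a.2)))

theorem pw_nonneg (f g X : ℝ) (hX : 0 < X) (n : ℕ) (a : Wd × ℕ) : 0 ≤ pw f g X n a := by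
  unfold pw
  positivity

theorem pn_wt (g X : ℝ) (hX : 0 < X) {n : ℕ} {a : Wd × ℕ} (ha : a ∈ PN n) :
    wt2 (g / 2) (ENNReal.ofReal X) (cutw a) =
      ENNReal.ofReal (X ^ (2 * n) * Real.exp (g * lat (ep 0 (a.1.take a.2)))) := by
  obtain ⟨h1, h2, h3⟩ := parts_saw ha
  obtain ⟨hW, h0, hj⟩ := ha
  rw [mem_W] at hW
  have h4 := real_wt 0 g X hX n n le_rfl (lat (ep 0 (a.1.take a.2))) (a.1.take a.2)
    (rv (a.1.drop a.2)) (by rw [rv_length, List.length_take, List.length_drop]; omega)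
    (two_mul_lat a h3)
  simp only [Real.exp_zero, ENNReal.ofReal_one, one_pow, mul_one, neg_zero, ← pow_mul] at h4
  exact h4

theorem pm_wt (f g X : ℝ) (hX : 0 < X) {n : ℕ} {a : Wd × ℕ} (ha : a ∈ PM n) :
    wt2 (g / 2) (ENNReal.ofReal X) (cutw a) *
      ENNReal.ofReal (Real.exp f) ^ (lev (ep 0 (a.1.take a.2))).toNat =
      ENNReal.ofReal (pw f g X n a) := by
  rw [pn_wt g X hX (n := n) ⟨ha.1, ha.2.1, ha.2.2.1⟩, ← ENNReal.ofReal_pow (Real.exp_pos _).le,
    ← ENNReal.ofReal_mul (by positivity)]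
  congr 1
  unfold pw
  have h1 : (((lev (ep 0 (a.1.take a.2))).toNat : ℕ) : ℝ) =
      ((lev (ep 0 (a.1.take a.2)) : ℤ) : ℝ) := by
    have : (((lev (ep 0 (a.1.take a.2))).toNat : ℕ) : ℤ) = lev (ep 0 (a.1.take a.2)) :=
      Int.toNat_of_nonneg ha.2.2.2.1
    exact_mod_cast this
  rw [← Real.exp_nat_mul, h1, Real.exp_add, mul_comm (lev (ep 0 (a.1.take a.2)) : ℝ) f]
  ring

end Pool.Agent.TPG
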